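import Pool.Agent.H628R4.TP.Defs

set_option autoImplicit false

/-! Igusa zeta functions, Poincare series, and the polynomials of the theorem. -/

namespace Pool.Agent.W427.SMC

open MeasureTheory MvPolynomial

/-- Igusa's `p`-adic zeta function `Z_p(f;s) = ∫_{ℤ_p ^ V} |f(x)| ^ s dx` of a polynomial `f` with
integral coefficients in the variables `V`; here `dx` is the Haar measure on the compact additive
group `ℤ_p ^ V`, of total mass `1`. -/
noncomputable def igusaZeta (p : ℕ) [Fact p.Prime] {V : Type} [Fintype V] (f : MvPolynomial V ℤ)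
    (s : ℂ) : ℂ :=
  letI : MeasurableSpace (V → ℤ_[p]) := borel _
  haveI : BorelSpace (V → ℤ_[p]) := ⟨rfl⟩
  ∫ x : V → ℤ_[p], ((‖aeval x f‖ : ℝ) : ℂ) ^ s
    ∂(Measure.addHaarMeasure (⊤ : TopologicalSpace.PositiveCompacts (V → ℤ_[p])))

/-- The number of solutions of `f = 0` in `(ℤ / p ^ m) ^ V`. -/
noncomputable def solCount (p m : ℕ) {V : Type} (f : MvPolynomial V ℤ) : ℕ :=
  Nat.card {x : V → ZMod (p ^ m) // aeval x f = 0}

/-- Igusa's Poincare series `∑_m a_m (p ^ (-n) T) ^ m` of a polynomial in `n = |V|` variables, where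
`a_m` is the number of solutions modulo `p ^ m`. -/
noncomputable def poincare (p : ℕ) {V : Type} [Fintype V] (f : MvPolynomial V ℤ) : PowerSeries ℂ :=
  PowerSeries.mk fun m => (solCount p m f : ℂ) * (((p : ℂ) ^ (Fintype.card V))⁻¹) ^ m

/-- The polynomial `∏_i x_i ^ (a i) * ∏_k (∑_j c_{k,j} y_{k,j} ^ (m_{k,j}) ∏_i x_i ^ (v_{k,j,i})) ^ (N_k)`
in the variables `x_i`, `i : ι`, and `y_{k,j}`, `k : κ`, `j : J k`: a product of powers of sparse
polynomials such that every monomial of every factor contains a private variable `y_{k,j}`. -/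
noncomputable def sparseProd {ι κ : Type} [Fintype ι] [Fintype κ] {J : κ → Type}
    [∀ k, Fintype (J k)] (a : ι → ℕ) (N : κ → ℕ) (c : (k : κ) → J k → ℤ) (m : (k : κ) → J k → ℕ)
    (v : (k : κ) → J k → ι → ℕ) : MvPolynomial (ι ⊕ (Σ k, J k)) ℤ :=
  (∏ i, X (Sum.inl i) ^ a i) * ∏ k, (∑ j, C (c k j) * X (Sum.inr ⟨k, j⟩) ^ m k j *
    ∏ i, X (Sum.inl i) ^ v k j i) ^ N k

end Pool.Agent.W427.SMC
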