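import Mathlib

set_option autoImplicit false

/-! Exponentials of nilpotent elements. -/

namespace Pool.Agent.W427.SMC

open IsNilpotent

variable {Q : Type} [CommRing Q] [Module ℚ Q]

lemma exp_spec (x : Q) (hx : IsNilpotent x) : ∃ w, exp x = 1 + x * (1 + x * w) := by
  obtain ⟨n, hn⟩ := hx
  refine ⟨∑ i ∈ Finset.range n, ((i + 2).factorial : ℚ)⁻¹ • x ^ i, ?_⟩
  rw [exp_eq_sum (k := n + 2) (pow_eq_zero_of_le (by omega) hn), Finset.sum_range_succ',
    Finset.sum_range_succ']
  simp only [zero_add, Nat.factorial_one, Nat.cast_one, inv_one, pow_one, one_smul,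
    Nat.factorial_zero, pow_zero]
  have h : ∑ i ∈ Finset.range n, ((i + 1 + 1).factorial : ℚ)⁻¹ • x ^ (i + 1 + 1) =
      x * (x * ∑ i ∈ Finset.range n, ((i + 2).factorial : ℚ)⁻¹ • x ^ i) := by
    rw [Finset.mul_sum, Finset.mul_sum]
    refine Finset.sum_congr rfl fun i _ => ?_
    rw [mul_smul_comm, mul_smul_comm]
    congr 1
    ring
  rw [h]
  ring

lemma exp_unit (x : Q) (hx : IsNilpotent x) : ∃ u, IsUnit u ∧ exp x = 1 + x * u := by
  obtain ⟨w, hw⟩ := exp_spec x hx
  refine ⟨1 + x * w, ?_, hw⟩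
  exact (Commute.isNilpotent_mul_right (Commute.all _ _) hx).isUnit_one_add

lemma exp_inj (x : Q) (hx : IsNilpotent x) (h : exp x = 1) : x = 0 := by
  obtain ⟨u, hu, h1⟩ := exp_unit x hx
  rw [h] at h1
  have : x * u = 0 := by linear_combination -h1
  exact (hu.mul_left_eq_zero).1 this

lemma exp_surj (x : Q) (hx : IsNilpotent x) : ∃ m, IsNilpotent m ∧ exp m = 1 + x := by
  obtain ⟨n, hn⟩ := hx
  have key : ∀ i : ℕ, ∃ m r, m = x * r ∧ x ^ (i + 1) ∣ exp m - (1 + x) := by
    intro i
    induction i with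
    | zero =>
      refine ⟨0, 0, by simp, -1, ?_⟩
      rw [exp_zero]; ring
    | succ i ih =>
      obtain ⟨m, r, hm, d, hd⟩ := ih
      have hxn : IsNilpotent x := ⟨n, hn⟩
      have hmn : IsNilpotent m := by
        rw [hm]; exact Commute.isNilpotent_mul_right (Commute.all _ _) hxn
      set δ := -(x ^ (i + 1) * d) with hδ
      have hδx : δ = x * (-(x ^ i * d)) := by rw [hδ]; ring
      have hδn : IsNilpotent δ := by
        rw [hδx]; exact Commute.isNilpotent_mul_right (Commute.all _ _) hxn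
      obtain ⟨w, hw⟩ := exp_spec δ hδn
      obtain ⟨w', hw'⟩ := exp_spec m hmn
      refine ⟨m + δ, r - x ^ i * d, by rw [hm, hδx]; ring, ?_⟩
      rw [exp_add_of_commute (Commute.all _ _) hmn hδn]
      have h1 : exp m = 1 + x - δ := by rw [hδ]; linear_combination hd
      have h2 : exp m * exp δ - (1 + x) = δ * (exp m * (1 + δ * w) - 1) := by
        rw [hw]
        linear_combination h1
      rw [h2, hw', hm]
      refine ⟨-d * (r * (1 + x * r * w') * (1 + δ * w) + -(x ^ i * d) * w), ?_⟩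
      rw [hδx]
      ring
  obtain ⟨m, r, hm, d, hd⟩ := key n
  have hxn : IsNilpotent x := ⟨n, hn⟩
  refine ⟨m, by rw [hm]; exact Commute.isNilpotent_mul_right (Commute.all _ _) hxn, ?_⟩
  have : x ^ (n + 1) = 0 := pow_eq_zero_of_le (by omega) hn
  rw [this, zero_mul] at hd
  linear_combination hd

lemma exp_sum {α : Type} (s : Finset α) (f : α → Q) (hf : ∀ i ∈ s, IsNilpotent (f i)) :
    IsNilpotent (∑ i ∈ s, f i) ∧ exp (∑ i ∈ s, f i) = ∏ i ∈ s, exp (f i) := by
  classical
  induction s using Finset.induction_on with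
  | empty => simp [exp_zero]
  | insert i s hi ih =>
    have h1 := ih fun j hj => hf j (Finset.mem_insert_of_mem hj)
    have h2 := hf i (Finset.mem_insert_self _ _)
    rw [Finset.sum_insert hi, Finset.prod_insert hi]
    refine ⟨Commute.isNilpotent_add (Commute.all _ _) h2 h1.1, ?_⟩
    rw [exp_add_of_commute (Commute.all _ _) h2 h1.1, h1.2]

lemma exp_nsmul (x : Q) (hx : IsNilpotent x) (n : ℕ) :
    IsNilpotent ((n : Q) * x) ∧ exp ((n : Q) * x) = exp x ^ n := by
  have := exp_sum (Finset.range n) (fun _ => x) (fun _ _ => hx)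
  simpa using this

end Pool.Agent.W427.SMC
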