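import Pool.Agent.W427.SMC.Pa7

set_option autoImplicit false
set_option linter.unusedSectionVars false

/-! Poles of the meromorphic continuation. -/

namespace Pool.Agent.W427.SMC

open Filter Topology Polynomial

section

variable (p : ℕ) [Fact p.Prime]

/-- `p ^ (-s)` -/
noncomputable def pw (s : ℂ) : ℂ := Complex.exp (-(s * (Real.log p : ℝ)))

lemma pw_real (s : ℝ) : pw p s = (tr' p s : ℂ) := by
  have hp : (0 : ℝ) < p := by exact_mod_cast (Fact.out : p.Prime).pos
  unfold pw tr'
  rw [Real.rpow_def_of_pos hp, Complex.ofReal_exp]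
  congr 1
  push_cast
  ring

lemma pw_analytic (s : ℂ) : AnalyticAt ℂ (pw p) s := by
  unfold pw
  fun_prop

lemma log_p_pos : 0 < Real.log p := Real.log_pos (by exact_mod_cast (Fact.out : p.Prime).one_lt)

lemma pw_deriv (s : ℂ) : deriv (pw p) s ≠ 0 := by
  have h : HasDerivAt (pw p) (Complex.exp (-(s * (Real.log p : ℝ))) * -(Real.log p : ℝ)) s := by
    have h1 : HasDerivAt (fun s : ℂ => -(s * (Real.log p : ℝ))) (-(Real.log p : ℝ)) s := by
      have h2 : HasDerivAt (fun s : ℂ => s * ((Real.log p : ℝ) : ℂ)) ((Real.log p : ℝ) : ℂ) s := by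
        have := (hasDerivAt_id s).mul_const ((Real.log p : ℝ) : ℂ)
        rw [one_mul] at this
        exact this
      exact h2.neg
    exact h1.cexp
  rw [h.deriv]
  have := (log_p_pos p).ne'
  refine mul_ne_zero (Complex.exp_ne_zero _) (neg_ne_zero.2 (by exact_mod_cast this))

lemma pw_norm (s : ℂ) : -Real.log ‖pw p s‖ / Real.log p = s.re := by
  unfold pw
  rw [Complex.norm_exp, Real.log_exp]
  simp only [Complex.neg_re, Complex.mul_re, Complex.ofReal_re, Complex.ofReal_im, mul_zero,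
    sub_zero, neg_neg]
  exact mul_div_cancel_right₀ _ (log_p_pos p).ne'

lemma pw_ne_zero (s : ℂ) : pw p s ≠ 0 := Complex.exp_ne_zero _

lemma order_poly (R : ℂ[X]) (hR : R ≠ 0) (x : ℂ) :
    meromorphicOrderAt (fun z => R.eval z) x = (R.rootMultiplicity x : ℤ) := by
  obtain ⟨R1, hR1, hnd⟩ := exists_eq_pow_rootMultiplicity_mul_and_not_dvd R hR x
  have h1 : (fun z => R.eval z) = (fun z => R1.eval z) * (fun z => (z - x) ^ R.rootMultiplicity x) := by
    funext z
    conv_lhs => rw [hR1]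
    simp only [Pi.mul_apply, eval_mul, eval_pow, eval_sub, eval_X, eval_C]
    ring
  rw [h1, meromorphicOrderAt_mul_of_ne_zero]
  · exact_mod_cast (fun_meromorphicOrderAt_pow_id_sub_const (x := x) (n := R.rootMultiplicity x))
  · exact (R1.differentiable.analyticAt x)
  · intro h
    exact hnd (dvd_iff_isRoot.2 h)

theorem mero_bound (R P : ℂ[X]) (hR : R ≠ 0) (g : ℂ → ℂ) (hg : MeromorphicOn g Set.univ)
    (h : ∀ s : ℝ, 0 < s → R.eval (pw p s) * g s = P.eval (pw p s)) (s0 : ℂ) :
    ((-(R.rootMultiplicity (pw p s0) : ℤ) : ℤ) : WithTop ℤ) ≤ meromorphicOrderAt g s0 := by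
  set F1 : ℂ → ℂ := (fun s => R.eval (pw p s)) * g with hF1
  set F2 : ℂ → ℂ := fun s => P.eval (pw p s) with hF2
  have hRa : ∀ s, AnalyticAt ℂ (fun s => R.eval (pw p s)) s := fun s =>
    (R.differentiable.analyticAt (pw p s)).comp (pw_analytic p s)
  have hPa : ∀ s, AnalyticAt ℂ F2 s := fun s =>
    (P.differentiable.analyticAt (pw p s)).comp (pw_analytic p s)
  have hm : MeromorphicOn (F1 - F2) Set.univ := fun s hs =>
    ((hRa s).meromorphicAt.mul (hg s hs)).sub (hPa s).meromorphicAt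
  have h1 : meromorphicOrderAt (F1 - F2) 1 = ⊤ := by
    by_contra hne
    have h2 := (meromorphicOrderAt_ne_top_iff_eventually_ne_zero (hm 1 (Set.mem_univ _))).1 hne
    rw [eventually_nhdsWithin_iff, Metric.eventually_nhds_iff] at h2
    obtain ⟨ε, hε, h3⟩ := h2
    have h4 := h3 (y := ((1 + ε / 2 : ℝ) : ℂ)) (by
      rw [dist_eq_norm]
      have : ((1 + ε / 2 : ℝ) : ℂ) - 1 = ((ε / 2 : ℝ) : ℂ) := by push_cast; ring
      rw [this, Complex.norm_real, Real.norm_of_nonneg (by positivity)]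
      linarith) (by
      intro h5
      have h6 : ((1 + ε / 2 : ℝ) : ℂ) = ((1 : ℝ) : ℂ) := by simpa using h5
      have h7 := Complex.ofReal_injective h6
      linarith)
    apply h4
    simp only [Pi.sub_apply, hF1, hF2, Pi.mul_apply]
    rw [h (1 + ε / 2) (by positivity), sub_self]
  have h2 : meromorphicOrderAt (F1 - F2) s0 = ⊤ := by
    by_contra hne
    exact hm.meromorphicOrderAt_ne_top_of_isPreconnected isPreconnected_univ (Set.mem_univ s0)
      (Set.mem_univ 1) hne h1
  have h3 : F1 =ᶠ[𝓝[≠] s0] F2 := by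
    rw [meromorphicOrderAt_eq_top_iff] at h2
    filter_upwards [h2] with z hz
    exact sub_eq_zero.1 hz
  have h4 : meromorphicOrderAt F1 s0 = meromorphicOrderAt F2 s0 := meromorphicOrderAt_congr h3
  have h5 : 0 ≤ meromorphicOrderAt F1 s0 := by
    rw [h4]
    exact (hPa s0).meromorphicOrderAt_nonneg
  rw [hF1, meromorphicOrderAt_mul (hRa s0).meromorphicAt (hg s0 (Set.mem_univ _))] at h5
  have h6 : meromorphicOrderAt (fun s => R.eval (pw p s)) s0 =
      (R.rootMultiplicity (pw p s0) : ℤ) := by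
    have := meromorphicOrderAt_comp_of_deriv_ne_zero (f := fun z => R.eval z) (pw_analytic p s0)
      (pw_deriv p s0)
    rw [order_poly R hR] at this
    exact this
  rw [h6] at h5
  rcases hgo : meromorphicOrderAt g s0 with _ | n
  · exact le_top
  · rw [hgo] at h5
    change (0 : WithTop ℤ) ≤ ((R.rootMultiplicity (pw p s0) : ℤ) : WithTop ℤ) + ((n : ℤ) : WithTop ℤ) at h5
    change ((-(R.rootMultiplicity (pw p s0) : ℤ) : ℤ) : WithTop ℤ) ≤ ((n : ℤ) : WithTop ℤ)
    rw [← WithTop.coe_add, ← WithTop.coe_zero, WithTop.coe_le_coe] at h5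
    rw [WithTop.coe_le_coe]
    omega

end

end Pool.Agent.W427.SMC
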