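import Pool.Agent.W427.SMC.Fin1

set_option autoImplicit false
set_option linter.unusedSectionVars false

/-! Comparison of the multiplicities. -/

namespace Pool.Agent.W427.SMC

open Polynomial

lemma rm_prod {α : Type} (s : Finset α) (f : α → ℂ[X]) (hf : ∀ i ∈ s, f i ≠ 0) (x : ℂ) :
    (∏ i ∈ s, f i).rootMultiplicity x = ∑ i ∈ s, (f i).rootMultiplicity x := by
  classical
  induction s using Finset.induction_on with
  | empty => simp
  | insert i s hi ih =>
    have h1 : ∏ i ∈ s, f i ≠ 0 :=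
      Finset.prod_ne_zero_iff.2 fun j hj => hf j (Finset.mem_insert_of_mem hj)
    rw [Finset.prod_insert hi, Finset.sum_insert hi,
      rootMultiplicity_mul (mul_ne_zero (hf i (Finset.mem_insert_self _ _)) h1),
      ih fun j hj => hf j (Finset.mem_insert_of_mem hj)]

lemma cyc_ne (p N : ℕ) (hp : p ≠ 0) (hN : 0 < N) : (C (p : ℂ) - X ^ N : ℂ[X]) ≠ 0 := by
  intro h
  have := congrArg (fun P : ℂ[X] => P.eval 0) h
  simp [hN.ne'] at this
  exact hp this

lemma cyc_rm (p N : ℕ) (hp : p ≠ 0) (hN : 0 < N) (x : ℂ) :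
    (C (p : ℂ) - X ^ N : ℂ[X]).rootMultiplicity x ≤ if x ^ N = p then 1 else 0 := by
  have h0 := cyc_ne p N hp hN
  split_ifs with h
  · by_contra hlt
    push Not at hlt
    have h1 := (one_lt_rootMultiplicity_iff_isRoot h0).1 hlt
    have h2 := h1.2
    rw [IsRoot.def] at h2
    simp only [derivative_sub, derivative_C, derivative_X_pow, zero_sub, eval_neg, eval_mul,
      eval_pow, eval_X, neg_eq_zero, eval_C] at h2
    rcases mul_eq_zero.1 h2 with h3 | h3
    · exact hN.ne' (by exact_mod_cast h3)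
    · have h4 : x = 0 := by
        by_contra h4
        exact pow_ne_zero _ h4 h3
      rw [h4, zero_pow hN.ne'] at h
      exact hp (by exact_mod_cast h.symm)
  · rw [rootMultiplicity_eq_zero]
    intro h1
    rw [IsRoot.def] at h1
    simp only [eval_sub, eval_C, eval_pow, eval_X] at h1
    exact h (sub_eq_zero.1 h1).symm

variable {κ : Type} [Fintype κ] [DecidableEq κ] (Nk : κ → ℕ)

lemma Cpoly_ne : Cpoly Nk ≠ 0 := by
  refine Finset.prod_ne_zero_iff.2 fun k _ => Finset.prod_ne_zero_iff.2 fun u _ => ?_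
  intro h
  have := congrArg (fun P : Polynomial ℂ => P.eval 0) h
  simp at this
  exact absurd this (by exact_mod_cast Nat.succ_ne_zero u)

lemma Cpoly_rm (hN : ∀ k, 0 < Nk k) (t : ℂ) :
    (∑ k, if (Nk k : ℂ) * t + 1 = 0 then 1 else 0) ≤ (Cpoly Nk).rootMultiplicity t := by
  have h0 := Cpoly_ne Nk
  unfold Cpoly at h0 ⊢
  have hk := Finset.prod_ne_zero_iff.1 h0
  rw [rm_prod _ _ hk]
  refine Finset.sum_le_sum fun k _ => ?_
  split_ifs with h
  · rw [Nat.one_le_iff_ne_zero, ← Nat.pos_iff_ne_zero, rootMultiplicity_pos (hk k (Finset.mem_univ _)),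
      IsRoot.def, eval_prod]
    refine Finset.prod_eq_zero (i := 0) (Finset.mem_range.2 (hN k)) ?_
    simpa using h
  · exact Nat.zero_le _

lemma pow_eq_p (p : ℕ) (hp : 1 < p) (x : ℂ) (N : ℕ) (h : x ^ N = p) :
    (N : ℂ) * ((-Real.log ‖x‖ / Real.log p : ℝ) : ℂ) + 1 = 0 := by
  have h1 := congrArg (fun z : ℂ => Real.log ‖z‖) h
  simp only [norm_pow, Real.log_pow, Complex.norm_natCast] at h1
  have h2 : Real.log p ≠ 0 := (Real.log_pos (by exact_mod_cast hp)).ne'
  have h3 : (N : ℝ) * (-Real.log ‖x‖ / Real.log p) + 1 = 0 := by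
    field_simp
    linarith
  exact_mod_cast h3

/-- the denominator -/
noncomputable def Den (p e : ℕ) (β : ℂ[X]) : ℂ[X] := X ^ e * β * ∏ k, (C (p : ℂ) - X ^ Nk k)

lemma Den_ne (p e : ℕ) (hp : 1 < p) (hN : ∀ k, 0 < Nk k) (β : ℂ[X]) (hβ : β ≠ 0) :
    Den Nk p e β ≠ 0 :=
  mul_ne_zero (mul_ne_zero (pow_ne_zero _ X_ne_zero) hβ)
    (Finset.prod_ne_zero_iff.2 fun k _ => cyc_ne p (Nk k) (by omega) (hN k))

lemma Den_rm (p e : ℕ) (hp : 1 < p) (hN : ∀ k, 0 < Nk k) (β b' : ℂ[X]) (hβ : β ≠ 0)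
    (hb' : b' ≠ 0) (hm : ∀ v, β.rootMultiplicity v ≤ mul p b' v) (x : ℂ) (hx : x ≠ 0) :
    (Den Nk p e β).rootMultiplicity x ≤
      (Cpoly Nk * b').rootMultiplicity ((-Real.log ‖x‖ / Real.log p : ℝ) : ℂ) := by
  have h0 := Den_ne Nk p e hp hN β hβ
  unfold Den at h0 ⊢
  rw [rootMultiplicity_mul h0, rootMultiplicity_mul (left_ne_zero_of_mul h0),
    rootMultiplicity_mul (mul_ne_zero (Cpoly_ne Nk) hb'),
    rm_prod _ _ (fun k _ => cyc_ne p (Nk k) (by omega) (hN k))]
  have h1 : (X ^ e : ℂ[X]).rootMultiplicity x = 0 := by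
    rw [rootMultiplicity_eq_zero]
    intro h
    rw [IsRoot.def, eval_pow, eval_X] at h
    exact pow_ne_zero _ hx h
  have h2 := hm x
  unfold mul at h2
  have h3 : ∑ k, (C (p : ℂ) - X ^ Nk k : ℂ[X]).rootMultiplicity x ≤
      (Cpoly Nk).rootMultiplicity ((-Real.log ‖x‖ / Real.log p : ℝ) : ℂ) := by
    refine le_trans (Finset.sum_le_sum fun k _ => ?_) (Cpoly_rm Nk hN _)
    refine (cyc_rm p (Nk k) (by omega) (hN k) x).trans ?_
    split_ifs with h4 h5 h5
    · exact le_rfl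
    · exact absurd (pow_eq_p p hp x (Nk k) h4) h5
    · exact Nat.zero_le _
    · exact le_rfl
  omega

end Pool.Agent.W427.SMC
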