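import Pool.Agent.W427.SMC.Fin2

set_option autoImplicit false
set_option linter.unusedSectionVars false

/-! The core theorem and the link with the `p`-adic integral. -/

namespace Pool.Agent.W427.SMC

open Polynomial MeasureTheory
open Pool.Agent.H628R4.TP

variable {ι κ : Type} [Fintype ι] [DecidableEq ι] [Fintype κ] [DecidableEq κ] {Jk : κ → Type}
  [∀ k, Fintype (Jk k)] [∀ k, DecidableEq (Jk k)]
  (a : ι → ℕ) (Nk : κ → ℕ) (c : (k : κ) → Jk k → ℤ) (m : (k : κ) → Jk k → ℕ)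
  (v : (k : κ) → Jk k → ι → ℕ) (p : ℕ) [Fact p.Prime]

theorem core (hc : ∀ k j, c k j ≠ 0) (hm : ∀ k j, 0 < m k j) (hN : ∀ k, 0 < Nk k)
    (hne : ∀ k, Nonempty (Jk k)) (b : ℂ[X]) (hb0 : b ≠ 0)
    (hb : IsBFunction (pol a Nk (fun k j => ((c k j : ℤ) : ℂ)) m v) b) :
    ∃ D P : ℂ[X], D ≠ 0 ∧ (∀ x : ℂ, x ≠ 0 → D.rootMultiplicity x ≤
      b.rootMultiplicity ((-Real.log ‖x‖ / Real.log p : ℝ) : ℂ)) ∧
      ∀ s : ℝ, 0 ≤ s → D.eval (tr' p s : ℂ) * ((Zi a Nk c m v p s).toReal : ℂ) =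
        P.eval (tr' p s : ℂ) := by
  have hp1 : 1 < p := (Fact.out : p.Prime).one_lt
  obtain ⟨b', S, hbb', hS, hrel⟩ := rel_ok a Nk (fun k j => ((c k j : ℤ) : ℂ)) m v hm
    (fun k j => by exact_mod_cast hc k j) hN (fun k => (hne k).some) b hb
  have hb'0 : b' ≠ 0 := by
    rintro rfl
    rw [mul_zero] at hbb'
    exact hb0 hbb'
  obtain ⟨β, hβ0, hβ, hβm⟩ := transfer (fun q : Σ k, Jk k => q.1) Nk (EE m v) (aa a) p hp1 b' hb'0
    S hrel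
  obtain ⟨P, e, hP⟩ := Z_laur a Nk c m v p hc hm hne S hS β hβ
  refine ⟨Den Nk p e β, P, Den_ne Nk p e hp1 hN β hβ0, fun x hx => ?_, fun s hs => ?_⟩
  · rw [hbb']
    exact Den_rm Nk p e hp1 hN β b' hβ0 hb'0 hβm x hx
  · rw [← hP s hs, Den, eval_mul, eval_mul, eval_pow, eval_X, eval_prod]
    simp only [eval_sub, eval_C, eval_pow, eval_X]
    ring

/-- **The meromorphic form.** -/
theorem main_mero (hc : ∀ k j, c k j ≠ 0) (hm : ∀ k j, 0 < m k j) (hN : ∀ k, 0 < Nk k)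
    (hne : ∀ k, Nonempty (Jk k)) (b : ℂ[X]) (hb0 : b ≠ 0)
    (hb : IsBFunction (pol a Nk (fun k j => ((c k j : ℤ) : ℂ)) m v) b)
    (g : ℂ → ℂ) (hg : MeromorphicOn g Set.univ)
    (h : ∀ s : ℝ, 0 < s → g s = ((Zi a Nk c m v p s).toReal : ℂ)) (s0 : ℂ) :
    ((-(b.rootMultiplicity ((s0.re : ℝ) : ℂ) : ℤ) : ℤ) : WithTop ℤ) ≤ meromorphicOrderAt g s0 := by
  obtain ⟨D, P, hD0, hDm, hDP⟩ := core a Nk c m v p hc hm hN hne b hb0 hb
  refine le_trans ?_ (mero_bound p D P hD0 g hg (fun s hs => ?_) s0)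
  · rw [WithTop.coe_le_coe]
    have h1 := hDm (pw p s0) (pw_ne_zero p s0)
    rw [pw_norm] at h1
    omega
  · rw [pw_real, h s hs, hDP s hs.le]

end Pool.Agent.W427.SMC
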