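import Pool.Agent.W427.SMC.Om

set_option autoImplicit false
set_option linter.unusedSectionVars false

/-! The discrete functional. -/

namespace Pool.Agent.W427.SMC

open MvPolynomial Finset

variable {I J κ : Type} [Fintype I] [Fintype J] [Fintype κ] (π : J → κ) (N : κ → ℕ)
  (E : J → I → ℕ) (a : I → ℕ)

/-- the value of the linear form of the variable `i` on the shift `e` -/
def Lz (e : J → ℤ) (i : I) : ℤ := ∑ j, (E j i : ℤ) * e j + a i

noncomputable def Ecol (i : I) : J →₀ ℕ := Finsupp.equivFunOnFinite.symm fun j => E j i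

noncomputable def Yv (n : I → ℕ) : J →₀ ℕ :=
  Finsupp.equivFunOnFinite.symm fun j => ∑ i, E j i * n i

/-- the basic functions -/
noncomputable def Gf (C : ℕ) (f : (J → ℕ) → ℂ) (T : ℂ) (y : J → ℕ) : ℂ :=
  T ^ (∑ k, N k * om π k y) * f (tr π C y)

/-- the functional attached to a function -/
noncomputable def Wl (G : (J → ℕ) → ℂ) : MvPolynomial J ℂ →ₗ[ℂ] ℂ :=
  (basisMonomials J ℂ).constr ℂ (fun μ => G μ)

lemma Wl_monomial (G : (J → ℕ) → ℂ) (μ : J →₀ ℕ) (c : ℂ) :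
    Wl G (monomial μ c) = c * G μ := by
  have h : (monomial μ c : MvPolynomial J ℂ) = c • (basisMonomials J ℂ μ) := by
    simp [coe_basisMonomials, smul_monomial]
  rw [h, map_smul, Wl, Module.Basis.constr_basis, smul_eq_mul]

lemma Wl_mul (G : (J → ℕ) → ℂ) (y : J →₀ ℕ) (R : MvPolynomial J ℂ) :
    Wl G (monomial y 1 * R) = ∑ μ ∈ R.support, coeff μ R * G ⇑(y + μ) := by
  conv_lhs => rw [← support_sum_monomial_coeff R]
  rw [Finset.mul_sum, map_sum]
  refine Finset.sum_congr rfl fun μ _ => ?_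
  rw [monomial_mul, one_mul, Wl_monomial]

/-- the summand -/
noncomputable def gg (q : ℝ) (T : ℂ) (G : (J → ℕ) → ℂ) (R : MvPolynomial J ℂ) (n : I → ℕ) : ℂ :=
  (q : ℂ) ^ (∑ i, n i) * T ^ (∑ i, a i * n i) * Wl G (monomial (Yv E n) 1 * R)

lemma gg_add (q : ℝ) (T : ℂ) (G : (J → ℕ) → ℂ) (R R' : MvPolynomial J ℂ) (n : I → ℕ) :
    gg E a q T G (R + R') n = gg E a q T G R n + gg E a q T G R' n := by
  unfold gg
  rw [mul_add, map_add, mul_add]

lemma gg_C_mul (q : ℝ) (T : ℂ) (G : (J → ℕ) → ℂ) (c : ℂ) (R : MvPolynomial J ℂ) (n : I → ℕ) :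
    gg E a q T G (C c * R) n = c * gg E a q T G R n := by
  unfold gg
  rw [mul_left_comm, C_mul', map_smul, smul_eq_mul]
  ring

lemma Yv_add_single [DecidableEq I] (n : I → ℕ) (i : I) :
    Yv E (n + Pi.single i 1) = Yv E n + Ecol E i := by
  ext j
  simp only [Yv, Ecol, Finsupp.equivFunOnFinite_symm_apply_apply, Finsupp.add_apply, Pi.add_apply,
    mul_add, Finset.sum_add_distrib]
  congr 1
  rw [Finset.sum_eq_single i]
  · simp
  · intro b _ hb; simp [Pi.single_eq_of_ne hb]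
  · simp

lemma gg_tel [DecidableEq I] (q : ℝ) (T : ℂ) (G : (J → ℕ) → ℂ) (R : MvPolynomial J ℂ)
    (n : I → ℕ) (i : I) :
    gg E a q T G ((1 - C ((q : ℂ) * T ^ a i) * monomial (Ecol E i) 1) * R) n =
      gg E a q T G R n - gg E a q T G R (n + Pi.single i 1) := by
  have h1 : (1 - C ((q : ℂ) * T ^ a i) * monomial (Ecol E i) 1) * R =
      R + C (-((q : ℂ) * T ^ a i)) * (monomial (Ecol E i) 1 * R) := by
    rw [map_neg]; ring
  rw [h1, gg_add, gg_C_mul]
  unfold gg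
  rw [Yv_add_single, ← mul_assoc (monomial (Yv E n) (1:ℂ)), monomial_mul, one_mul]
  have h2 : ∑ i', (n + Pi.single i 1 : I → ℕ) i' = ∑ i', n i' + 1 := by
    simp only [Pi.add_apply, Finset.sum_add_distrib]
    congr 1
    rw [Finset.sum_eq_single i]
    · simp
    · intro b _ hb; simp [Pi.single_eq_of_ne hb]
    · simp
  have h3 : ∑ i', a i' * (n + Pi.single i 1 : I → ℕ) i' = ∑ i', a i' * n i' + a i := by
    simp only [Pi.add_apply, mul_add, Finset.sum_add_distrib]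
    congr 1
    rw [Finset.sum_eq_single i]
    · simp
    · intro b _ hb; simp [Pi.single_eq_of_ne hb]
    · simp
  rw [h2, h3, pow_succ, pow_add]
  ring

lemma summable_geom (q : ℝ) (hq0 : 0 ≤ q) (hq1 : q < 1) :
    Summable fun n : I → ℕ => q ^ (∑ i, n i) := by
  classical
  refine summable_of_sum_le (c := (∑' m : ℕ, q ^ m) ^ (Fintype.card I)) (fun n => by positivity)
    fun u => ?_
  obtain ⟨M, hM⟩ : ∃ M : ℕ, ∀ n ∈ u, ∀ i, n i < M := by
    refine ⟨∑ n ∈ u, ∑ i, n i + 1, fun n hn i => ?_⟩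
    have h1 : n i ≤ ∑ i, n i := Finset.single_le_sum (fun _ _ => Nat.zero_le _) (Finset.mem_univ i)
    have h2 : ∑ i, n i ≤ ∑ n ∈ u, ∑ i, n i :=
      Finset.single_le_sum (f := fun n : I → ℕ => ∑ i, n i) (fun _ _ => Nat.zero_le _) hn
    omega
  have h1 : u ⊆ Fintype.piFinset fun _ : I => Finset.range M := by
    intro n hn
    rw [Fintype.mem_piFinset]
    exact fun i => Finset.mem_range.2 (hM n hn i)
  calc ∑ n ∈ u, q ^ (∑ i, n i) ≤ ∑ n ∈ Fintype.piFinset fun _ : I => Finset.range M,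
        q ^ (∑ i, n i) := Finset.sum_le_sum_of_subset_of_nonneg h1 fun _ _ _ => by positivity
    _ = ∏ _i : I, ∑ m ∈ Finset.range M, q ^ m := by
        rw [Finset.prod_univ_sum]
        exact Finset.sum_congr rfl fun n _ => (Finset.prod_pow_eq_pow_sum _ _ _).symm
    _ = (∑ m ∈ Finset.range M, q ^ m) ^ (Fintype.card I) := by
        rw [Finset.prod_const, Finset.card_univ]
    _ ≤ _ := by
        refine pow_le_pow_left₀ (Finset.sum_nonneg fun _ _ => by positivity) ?_ _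
        exact (summable_geometric_of_lt_one hq0 hq1).sum_le_tsum _ fun _ _ => by positivity

lemma Gf_norm_le (C : ℕ) (f : (J → ℕ) → ℂ) (K : ℝ) (hf : ∀ x, ‖f x‖ ≤ K) (T : ℂ) (hT : ‖T‖ ≤ 1)
    (y : J → ℕ) : ‖Gf π N C f T y‖ ≤ K := by
  unfold Gf
  rw [norm_mul, norm_pow]
  calc ‖T‖ ^ _ * ‖f (tr π C y)‖ ≤ 1 * K :=
        mul_le_mul (pow_le_one₀ (norm_nonneg _) hT) (hf _) (norm_nonneg _) zero_le_one
    _ = K := one_mul K

lemma gg_norm_le (q : ℝ) (hq0 : 0 ≤ q) (T : ℂ) (hT : ‖T‖ ≤ 1) (G : (J → ℕ) → ℂ) (K : ℝ)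
    (hG : ∀ y, ‖G y‖ ≤ K) (R : MvPolynomial J ℂ) (n : I → ℕ) :
    ‖gg E a q T G R n‖ ≤ q ^ (∑ i, n i) * ∑ μ ∈ R.support, ‖coeff μ R‖ * K := by
  unfold gg
  rw [Wl_mul, norm_mul, norm_mul, norm_pow, norm_pow, Complex.norm_real, Real.norm_of_nonneg hq0]
  have h1 : ‖∑ μ ∈ R.support, coeff μ R * G ⇑(Yv E n + μ)‖ ≤
      ∑ μ ∈ R.support, ‖coeff μ R‖ * K := by
    refine (norm_sum_le _ _).trans (Finset.sum_le_sum fun μ _ => ?_)
    rw [norm_mul]
    exact mul_le_mul_of_nonneg_left (hG _) (norm_nonneg _)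
  have h2 : q ^ (∑ i, n i) * ‖T‖ ^ (∑ i, a i * n i) ≤ q ^ (∑ i, n i) :=
    mul_le_of_le_one_right (by positivity) (pow_le_one₀ (norm_nonneg _) hT)
  exact mul_le_mul h2 h1 (norm_nonneg _) (by positivity)

lemma gg_summable (q : ℝ) (hq0 : 0 ≤ q) (hq1 : q < 1) (T : ℂ) (hT : ‖T‖ ≤ 1)
    (G : (J → ℕ) → ℂ) (K : ℝ) (hG : ∀ y, ‖G y‖ ≤ K) (R : MvPolynomial J ℂ) :
    Summable (gg E a q T G R) :=
  Summable.of_norm_bounded ((summable_geom q hq0 hq1).mul_right _)
    (gg_norm_le E a q hq0 T hT G K hG R)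

/-- the sum over `n` with `n i = 0` for `i ∈ B` -/
noncomputable def FB [DecidableEq I] (q : ℝ) (T : ℂ) (G : (J → ℕ) → ℂ) (B : Finset I)
    (R : MvPolynomial J ℂ) : ℂ :=
  ∑' n : I → ℕ, if ∀ i ∈ B, n i = 0 then gg E a q T G R n else 0

lemma summable_ite [DecidableEq I] (g : (I → ℕ) → ℂ) (hg : Summable g) (P : (I → ℕ) → Prop)
    [DecidablePred P] : Summable fun n => if P n then g n else 0 := by
  refine Summable.of_norm_bounded hg.norm fun n => ?_
  split_ifs
  · exact le_rfl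
  · simp

lemma tsum_tel [DecidableEq I] (g : (I → ℕ) → ℂ) (hg : Summable g) (B : Finset I) (i : I)
    (hi : i ∉ B) :
    (∑' n : I → ℕ, if ∀ i' ∈ B, n i' = 0 then g n - g (n + Pi.single i 1) else 0) =
      ∑' n : I → ℕ, if ∀ i' ∈ insert i B, n i' = 0 then g n else 0 := by
  have hinj : Function.Injective fun n : I → ℕ => n + Pi.single i 1 := add_left_injective _
  have hg1 := summable_ite g hg (fun n => ∀ i' ∈ B, n i' = 0)
  have hg2 : Summable fun n : I → ℕ => if ∀ i' ∈ B, n i' = 0 then g (n + Pi.single i 1) else 0 :=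
    summable_ite _ (hg.comp_injective hinj) _
  have hg3 := summable_ite g hg (fun n => ∀ i' ∈ insert i B, n i' = 0)
  have h1 : (fun n : I → ℕ => if ∀ i' ∈ B, n i' = 0 then g n - g (n + Pi.single i 1) else 0) =
      fun n => (if ∀ i' ∈ B, n i' = 0 then g n else 0) -
        (if ∀ i' ∈ B, n i' = 0 then g (n + Pi.single i 1) else 0) := by
    funext n
    split_ifs <;> simp
  rw [h1, hg1.tsum_sub hg2, sub_eq_iff_eq_add]
  have h2 : (∑' n : I → ℕ, if ∀ i' ∈ B, n i' = 0 then g (n + Pi.single i 1) else 0) =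
      ∑' n : I → ℕ, if (∀ i' ∈ B, n i' = 0) ∧ n i ≠ 0 then g n else 0 := by
    rw [← hinj.tsum_eq (f := fun n : I → ℕ => if (∀ i' ∈ B, n i' = 0) ∧ n i ≠ 0 then g n else 0)]
    · refine tsum_congr fun n => ?_
      have h3 : (∀ i' ∈ B, n i' = 0) ↔ (∀ i' ∈ B, (n + Pi.single i 1 : I → ℕ) i' = 0) ∧
          (n + Pi.single i 1 : I → ℕ) i ≠ 0 := by
        constructor
        · intro h
          refine ⟨fun i' hi' => ?_, by simp⟩
          have : i' ≠ i := by rintro rfl; exact hi hi'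
          simp [Pi.single_eq_of_ne this, h i' hi']
        · intro h i' hi'
          have h4 := h.1 i' hi'
          simp only [Pi.add_apply] at h4
          omega
      by_cases h : ∀ i' ∈ B, n i' = 0
      · rw [if_pos h, if_pos (h3.1 h)]
      · rw [if_neg h, if_neg (fun h' => h (h3.2 h'))]
    · intro n hn
      have hn' : (∀ i' ∈ B, n i' = 0) ∧ n i ≠ 0 := by
        by_contra h
        exact hn (if_neg h)
      refine ⟨n - Pi.single i 1, ?_⟩
      funext i'
      simp only [Pi.add_apply, Pi.sub_apply]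
      by_cases h : i' = i
      · subst h
        simp only [Pi.single_eq_same]
        have := hn'.2
        omega
      · simp [Pi.single_eq_of_ne h]
  rw [h2]
  have hg4 : Summable fun n : I → ℕ => if (∀ i' ∈ B, n i' = 0) ∧ n i ≠ 0 then g n else 0 :=
    summable_ite g hg _
  rw [← hg3.tsum_add hg4]
  refine tsum_congr fun n => ?_
  by_cases h : ∀ i' ∈ B, n i' = 0
  · by_cases h' : n i = 0
    · have : ∀ i' ∈ insert i B, n i' = 0 := by
        intro i' hi'
        rcases Finset.mem_insert.1 hi' with rfl | hi'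
        · exact h'
        · exact h i' hi'
      rw [if_pos h, if_pos this, if_neg (by tauto)]; simp
    · have : ¬ ∀ i' ∈ insert i B, n i' = 0 := fun h'' => h' (h'' i (Finset.mem_insert_self _ _))
      rw [if_pos h, if_neg this, if_pos ⟨h, h'⟩]; simp
  · have : ¬ ∀ i' ∈ insert i B, n i' = 0 :=
      fun h'' => h fun i' hi' => h'' i' (Finset.mem_insert_of_mem hi')
    rw [if_neg h, if_neg this, if_neg (by tauto)]; simp

lemma FB_tel [DecidableEq I] (q : ℝ) (hq0 : 0 ≤ q) (hq1 : q < 1) (T : ℂ) (hT : ‖T‖ ≤ 1)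
    (G : (J → ℕ) → ℂ) (K : ℝ) (hG : ∀ y, ‖G y‖ ≤ K) (B : Finset I) (i : I) (hi : i ∉ B)
    (R : MvPolynomial J ℂ) :
    FB E a q T G B ((1 - C ((q : ℂ) * T ^ a i) * monomial (Ecol E i) 1) * R) =
      FB E a q T G (insert i B) R := by
  unfold FB
  simp only [gg_tel]
  exact tsum_tel _ (gg_summable E a q hq0 hq1 T hT G K hG R) B i hi

lemma FB_prod [DecidableEq I] (q : ℝ) (hq0 : 0 ≤ q) (hq1 : q < 1) (T : ℂ) (hT : ‖T‖ ≤ 1)
    (G : (J → ℕ) → ℂ) (K : ℝ) (hG : ∀ y, ‖G y‖ ≤ K) (B : Finset I)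
    (R : MvPolynomial J ℂ) :
    FB E a q T G ∅ ((∏ i ∈ B, (1 - C ((q : ℂ) * T ^ a i) * monomial (Ecol E i) 1)) * R) =
      FB E a q T G B R := by
  suffices h : ∀ B : Finset I, ∀ B' : Finset I, Disjoint B B' → ∀ R : MvPolynomial J ℂ,
      FB E a q T G B' ((∏ i ∈ B, (1 - C ((q : ℂ) * T ^ a i) * monomial (Ecol E i) 1)) * R) =
      FB E a q T G (B ∪ B') R by
    rw [h B ∅ (Finset.disjoint_empty_right _), Finset.union_empty]
  intro B
  induction B using Finset.induction_on with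
  | empty => intro B' _ R; simp
  | insert i B hi ih =>
    intro B' hd R
    rw [Finset.disjoint_insert_left] at hd
    rw [Finset.prod_insert hi, mul_assoc, FB_tel E a q hq0 hq1 T hT G K hG B' i hd.1,
      ih (insert i B') (Finset.disjoint_insert_right.2 ⟨hi, hd.2⟩)]
    congr 1
    rw [Finset.union_insert, Finset.insert_union]

end Pool.Agent.W427.SMC
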