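import Pool.Agent.W427.SMC.Fin3
import Pool.Agent.W427.SMC.Defs

set_option autoImplicit false
set_option linter.unusedSectionVars false

/-! The Igusa zeta function of an integral polynomial. -/

namespace Pool.Agent.W427.SMC

open MeasureTheory MvPolynomial
open scoped ENNReal

attribute [local instance] msZ bsZ

lemma igusaZeta_eq (p : ℕ) [Fact p.Prime] {V : Type} [Fintype V] (f : MvPolynomial V ℤ)
    (s : ℝ) : igusaZeta p f (s : ℂ) =
      ((∫⁻ z, tau p s (aeval z f) ∂(Measure.pi fun _ : V => mu p)).toReal : ℂ) := by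
  unfold igusaZeta
  have hms : (borel (V → ℤ_[p])) = MeasurableSpace.pi := (Pi.borelSpace).measurable_eq.symm
  have key : ∀ (ms : MeasurableSpace (V → ℤ_[p])) (_ : ms = MeasurableSpace.pi)
      (hb : @BorelSpace _ _ ms),
      (@integral _ _ _ _ ms (@Measure.addHaarMeasure _ _ _ _ ms hb
        (⊤ : TopologicalSpace.PositiveCompacts (V → ℤ_[p])))
        (fun x => ((‖aeval x f‖ : ℝ) : ℂ) ^ (s : ℂ))) =
      ((∫⁻ z, tau p s (aeval z f) ∂(Measure.pi fun _ : V => mu p)).toReal : ℂ) := by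
    intro ms h hb
    subst h
    have h1 : (Measure.pi fun _ : V => mu p) =
        Measure.addHaarMeasure (⊤ : TopologicalSpace.PositiveCompacts (V → ℤ_[p])) := by
      have h2 := Measure.addHaarMeasure_unique (Measure.pi fun _ : V => mu p)
        (⊤ : TopologicalSpace.PositiveCompacts (V → ℤ_[p]))
      rw [h2]
      have : (Measure.pi fun _ : V => mu p)
          ((⊤ : TopologicalSpace.PositiveCompacts (V → ℤ_[p])) : Set (V → ℤ_[p])) = 1 :=
        measure_univ
      rw [this, one_smul]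
    rw [← h1]
    have h3 : ∀ x : V → ℤ_[p], ((‖aeval x f‖ : ℝ) : ℂ) ^ (s : ℂ) = ((‖aeval x f‖ ^ s : ℝ) : ℂ) :=
      fun x => (Complex.ofReal_cpow (norm_nonneg _) s).symm
    simp only [h3]
    rw [integral_complex_ofReal]
    congr 1
    have hcont : Continuous (fun x : V → ℤ_[p] => aeval x f) := by
      have : (fun x : V → ℤ_[p] => aeval x f) =
          fun x => eval x (map (Int.castRingHom ℤ_[p]) f) := by
        funext x
        rw [aeval_def, eval_map]
        rfl
      rw [this]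
      exact MvPolynomial.continuous_eval _
    rw [integral_eq_lintegral_of_nonneg_ae]
    · rfl
    · exact Filter.Eventually.of_forall fun x => Real.rpow_nonneg (norm_nonneg _) _
    · exact ((continuous_norm.comp hcont).measurable.pow_const s).aestronglyMeasurable
  exact key (borel _) hms (@BorelSpace.mk _ _ (borel _) rfl)

variable {ι κ : Type} [Fintype ι] [DecidableEq ι] [Fintype κ] [DecidableEq κ] {Jk : κ → Type}
  [∀ k, Fintype (Jk k)] [∀ k, DecidableEq (Jk k)]
  (a : ι → ℕ) (Nk : κ → ℕ) (c : (k : κ) → Jk k → ℤ) (m : (k : κ) → Jk k → ℕ)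
  (v : (k : κ) → Jk k → ι → ℕ) (p : ℕ) [Fact p.Prime]

lemma aeval_sparseProd (z : ι ⊕ (Σ k, Jk k) → ℤ_[p]) :
    aeval z (sparseProd a Nk c m v) = fval a Nk c m v p z := by
  simp [sparseProd, fval, fac, mon]

lemma map_sparseProd : map (Int.castRingHom ℂ) (sparseProd a Nk c m v) =
    pol a Nk (fun k j => ((c k j : ℤ) : ℂ)) m v := by
  simp [sparseProd, pol]

theorem main_igusa (hc : ∀ k j, c k j ≠ 0) (hm : ∀ k j, 0 < m k j) (hN : ∀ k, 0 < Nk k)
    (hne : ∀ k, Nonempty (Jk k)) (b : Polynomial ℂ) (hb0 : b ≠ 0)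
    (hb : Pool.Agent.H628R4.TP.IsBFunction (map (Int.castRingHom ℂ) (sparseProd a Nk c m v)) b)
    (g : ℂ → ℂ) (hg : MeromorphicOn g Set.univ)
    (h : ∀ s : ℂ, 0 < s.re → g s = igusaZeta p (sparseProd a Nk c m v) s) (s0 : ℂ) :
    ((-(b.rootMultiplicity ((s0.re : ℝ) : ℂ) : ℤ) : ℤ) : WithTop ℤ) ≤ meromorphicOrderAt g s0 := by
  rw [map_sparseProd] at hb
  refine main_mero a Nk c m v p hc hm hN hne b hb0 hb g hg (fun s hs => ?_) s0
  rw [h s (by simpa using hs), igusaZeta_eq]
  simp only [aeval_sparseProd]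
  rfl

end Pool.Agent.W427.SMC
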