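import Pool.Agent.W427.SMC.Func

set_option autoImplicit false
set_option linter.unusedSectionVars false

/-! Boundedness of the exponents on the support. -/

namespace Pool.Agent.W427.SMC

open MvPolynomial Finset

variable {I J κ : Type} [Fintype I] [Fintype J] [Fintype κ] [DecidableEq J] [DecidableEq I]
  [DecidableEq κ] (π : J → κ) (N : κ → ℕ)
  (E : J → I → ℕ) (a : I → ℕ)

/-- iterated differences -/
noncomputable def Dd (G : (J → ℕ) → ℂ) (D : Finset J) (y : J →₀ ℕ) : ℂ :=
  Wl G (monomial y 1 * ∏ j ∈ D, (1 - X j))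

lemma Dd_empty (G : (J → ℕ) → ℂ) (y : J →₀ ℕ) : Dd G ∅ y = G y := by
  unfold Dd
  rw [Finset.prod_empty, mul_one, Wl_monomial, one_mul]

lemma Dd_insert (G : (J → ℕ) → ℂ) (D : Finset J) (j : J) (hj : j ∉ D) (y : J →₀ ℕ) :
    Dd G (insert j D) y = Dd G D y - Dd G D (y + Finsupp.single j 1) := by
  unfold Dd
  rw [Finset.prod_insert hj, ← map_sub]
  congr 1
  have h : (monomial (y + Finsupp.single j 1) 1 : MvPolynomial J ℂ) = monomial y 1 * X j := by
    rw [X, monomial_mul, one_mul]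
  rw [h]
  ring

lemma Dd_shift_sub (G : (J → ℕ) → ℂ) (D : Finset J) (j : J) (y : J →₀ ℕ) :
    Dd G D y - Dd G D (y + Finsupp.single j 1) =
      Dd (fun z => G z - G (fun l => z l + if l = j then 1 else 0)) D y := by
  unfold Dd
  rw [Wl_mul, Wl_mul, Wl_mul, ← Finset.sum_sub_distrib]
  refine Finset.sum_congr rfl fun μ _ => ?_
  rw [← mul_sub]
  congr 3
  funext l
  simp only [Finsupp.add_apply, Finsupp.single_apply]
  by_cases h : j = l
  · subst h; simp; ring
  · rw [if_neg h, if_neg (fun h' => h h'.symm)]; ring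

lemma Dd_eq_zero (G : (J → ℕ) → ℂ) (D : Finset J) (y : J →₀ ℕ)
    (h : ∀ z : J →₀ ℕ, (∀ j, y j ≤ z j ∧ z j ≤ y j + 1) → (∀ j, j ∉ D → z j = y j) → G z = 0) :
    Dd G D y = 0 := by
  induction D using Finset.induction_on generalizing y with
  | empty => rw [Dd_empty]; exact h y (fun j => by omega) fun j _ => rfl
  | insert j D hj ih =>
    rw [Dd_insert _ _ _ hj, ih y, ih (y + Finsupp.single j 1), sub_zero]
    · intro z hz hz'
      refine h z (fun l => ?_) fun l hl => ?_
      · by_cases hl : l ∈ D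
        · have := hz l
          have hne : l ≠ j := by rintro rfl; exact hj hl
          rw [Finsupp.add_apply, Finsupp.single_eq_of_ne hne] at this
          omega
        · have := hz' l hl
          rw [Finsupp.add_apply] at this
          by_cases hl' : l = j
          · subst hl'
            rw [Finsupp.single_eq_same] at this
            omega
          · rw [Finsupp.single_eq_of_ne hl'] at this
            omega
      · rw [Finset.mem_insert, not_or] at hl
        have := hz' l hl.2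
        rw [Finsupp.add_apply, Finsupp.single_eq_of_ne hl.1] at this
        omega
    · intro z hz hz'
      refine h z hz fun l hl => hz' l fun hl' => hl (Finset.mem_insert_of_mem hl')

lemma Dd_insens (hπ : Function.Surjective π) (C : ℕ) (hC : 1 ≤ C) (f : (J → ℕ) → ℂ) (T : ℂ)
    (D : Finset J) (j0 : J) (hj0 : j0 ∈ D) (y : J →₀ ℕ)
    (h : om π (π j0) y + C + 1 ≤ y j0) : Dd (Gf π N C f T) D y = 0 := by
  rw [← Finset.insert_erase hj0, Dd_insert _ _ _ (Finset.notMem_erase _ _), Dd_shift_sub]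
  refine Dd_eq_zero _ _ _ fun z hz hz' => ?_
  have h1 : z j0 = y j0 := hz' j0 (Finset.notMem_erase _ _)
  have h2 : om π (π j0) z ≤ om π (π j0) y + 1 := by
    obtain ⟨j, hj, hj2⟩ := om_mem π hπ (π j0) y
    have := om_le π z j
    rw [hj] at this
    have := (hz j).2
    omega
  have h3 : om π (π j0) z + C ≤ z j0 := by omega
  unfold Gf
  rw [tr_single π hπ C hC z j0 h3]
  simp only [om_single π hπ z j0 (by omega)]
  ring

lemma sum_ge (C : ℕ) (e : J → ℤ)
    (he : ∀ k, ∑ j ∈ univ.filter (fun j => π j = k), e j = N k) (y : J → ℕ)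
    (h : ∀ j, e j < 0 → y j ≤ om π (π j) y + C) :
    (∑ k, (N k : ℤ) * om π k y) - ∑ j, (e j).natAbs * (C : ℤ) ≤ ∑ j, e j * y j := by
  have h1 : ∑ k, (N k : ℤ) * om π k y = ∑ j, e j * om π (π j) y := by
    rw [← Finset.sum_fiberwise (s := Finset.univ) (g := π) (f := fun j => e j * om π (π j) y)]
    refine Finset.sum_congr rfl fun k _ => ?_
    rw [← he k, Finset.sum_mul]
    refine Finset.sum_congr rfl fun j hj => ?_
    rw [(Finset.mem_filter.1 hj).2]
  rw [h1, ← Finset.sum_sub_distrib]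
  refine Finset.sum_le_sum fun j _ => ?_
  rcases lt_or_ge (e j) 0 with hj | hj
  · have h2 := h j hj
    have h3 : ((e j).natAbs : ℤ) = - e j := by omega
    rw [h3]
    have h4 : (y j : ℤ) ≤ om π (π j) y + C := by exact_mod_cast h2
    nlinarith
  · have h3 : (om π (π j) y : ℤ) ≤ y j := by exact_mod_cast om_le π y j
    have h4 : (0:ℤ) ≤ (e j).natAbs * (C : ℤ) := by positivity
    nlinarith

/-- On the support, the exponents are bounded. -/
lemma kill (hπ : Function.Surjective π) (C : ℕ) (hC : 1 ≤ C) (f : (J → ℕ) → ℂ) (T : ℂ)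
    (e : J → ℤ) (he : ∀ k, ∑ j ∈ univ.filter (fun j => π j = k), e j = N k) (μ : J →₀ ℕ)
    (n : I → ℕ) (hn : ∀ i, 0 < Lz E a e i → n i = 0)
    (h : Dd (Gf π N C f T) (univ.filter (fun j => e j < 0)) (Yv E n + μ) ≠ 0) :
    ∑ k, N k * om π k ⇑(Yv E n + μ) + ∑ i, a i * n i ≤ ∑ j, (e j).natAbs * (C + μ j) := by
  have h1 : ∀ j, e j < 0 → (Yv E n + μ) j ≤ om π (π j) ⇑(Yv E n + μ) + C := by
    intro j hj
    by_contra hlt
    push Not at hlt
    exact h (Dd_insens π N hπ C hC f T _ j (by simp [hj]) _ (by omega))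
  have h2 := sum_ge π N C e he _ h1
  have h3 : ∑ j, e j * ((Yv E n + μ) j : ℕ) = ∑ i, (Lz E a e i - a i) * n i + ∑ j, e j * μ j := by
    simp only [Finsupp.add_apply, Yv, Finsupp.equivFunOnFinite_symm_apply_apply]
    push_cast
    simp only [mul_add, Finset.sum_add_distrib, Lz, add_sub_cancel_right]
    congr 1
    simp only [Finset.mul_sum, Finset.sum_mul]
    rw [Finset.sum_comm]
    exact Finset.sum_congr rfl fun i _ => Finset.sum_congr rfl fun j _ => by ring
  have h4 : ∑ i, (Lz E a e i - a i) * (n i : ℤ) ≤ - ∑ i, (a i : ℤ) * n i := by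
    rw [← Finset.sum_neg_distrib]
    refine Finset.sum_le_sum fun i _ => ?_
    rcases lt_or_ge 0 (Lz E a e i) with hi | hi
    · rw [hn i hi]; simp
    · have : (0:ℤ) ≤ n i := by positivity
      nlinarith
  have h5 : ∑ j, e j * (μ j : ℤ) ≤ ∑ j, (e j).natAbs * (μ j : ℤ) := by
    refine Finset.sum_le_sum fun j _ => ?_
    have : e j ≤ (e j).natAbs := Int.le_natAbs
    have h6 : (0:ℤ) ≤ μ j := by positivity
    nlinarith
  have h7 : (∑ k, (N k : ℤ) * om π k ⇑(Yv E n + μ)) + ∑ i, (a i : ℤ) * n i ≤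
      ∑ j, (e j).natAbs * ((C : ℤ) + μ j) := by
    simp only [mul_add, Finset.sum_add_distrib]
    rw [h3] at h2
    linarith
  exact_mod_cast h7

lemma om_single_le (hπ : Function.Surjective π) (y : J → ℕ) (j0 : J) (k : κ) :
    om π k (fun j => y j + if j = j0 then 1 else 0) ≤ om π k y + 1 := by
  obtain ⟨j, hj, h2⟩ := om_mem π hπ k y
  have := om_le π (fun j => y j + if j = j0 then 1 else 0) j
  rw [hj] at this
  split_ifs at this <;> omega

lemma Dd_poly (hπ : Function.Surjective π) (C : ℕ) (f : (J → ℕ) → ℂ) (K : ℝ)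
    (hf : ∀ x, ‖f x‖ ≤ K) (D : Finset J) : ∀ (y : J →₀ ℕ) (c M : ℕ),
    ∑ k, N k * om π k y + c ≤ M → ∃ H : Polynomial ℂ, H.natDegree ≤ M + D.card * ∑ k, N k ∧
      (∀ i, ‖H.coeff i‖ ≤ 2 ^ D.card * K) ∧
      ∀ T : ℂ, T ^ c * Dd (Gf π N C f T) D y = H.eval T := by
  induction D using Finset.induction_on with
  | empty =>
    intro y c M h
    have hK : 0 ≤ K := (norm_nonneg _).trans (hf 0)
    refine ⟨Polynomial.monomial (c + ∑ k, N k * om π k y) (f (tr π C y)), ?_, fun i => ?_,
      fun T => ?_⟩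
    · refine (Polynomial.natDegree_monomial_le _).trans ?_
      simp only [Finset.card_empty, zero_mul, add_zero]
      omega
    · rw [Polynomial.coeff_monomial, Finset.card_empty, pow_zero, one_mul]
      split_ifs
      · exact hf _
      · simpa using hK
    · rw [Dd_empty, Gf, Polynomial.eval_monomial, pow_add]
      ring
  | insert j D hj ih =>
    intro y c M h
    obtain ⟨H1, hd1, hc1, he1⟩ := ih y c M h
    have hle : ∑ k, N k * om π k ⇑(y + Finsupp.single j 1 : J →₀ ℕ) + c ≤ M + ∑ k, N k := by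
      have h1 : ∑ k, N k * om π k ⇑(y + Finsupp.single j 1 : J →₀ ℕ) ≤ ∑ k, N k * om π k y + ∑ k, N k := by
        rw [← Finset.sum_add_distrib]
        refine Finset.sum_le_sum fun k _ => ?_
        have h2 := om_single_le π hπ y j k
        have h3 : (⇑(y + Finsupp.single j 1 : J →₀ ℕ) : J → ℕ) = fun l => y l + if l = j then 1 else 0 := by
          funext l
          rw [Finsupp.add_apply, Finsupp.single_apply]
          by_cases h : j = l
          · rw [if_pos h, if_pos h.symm]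
          · rw [if_neg h, if_neg (fun h' => h h'.symm)]
        rw [h3]
        nlinarith
      omega
    obtain ⟨H2, hd2, hc2, he2⟩ := ih (y + Finsupp.single j 1) c (M + ∑ k, N k) hle
    refine ⟨H1 - H2, ?_, fun i => ?_, fun T => ?_⟩
    · refine (Polynomial.natDegree_sub_le _ _).trans ?_
      rw [Finset.card_insert_of_notMem hj]
      have : (D.card + 1) * ∑ k, N k = D.card * ∑ k, N k + ∑ k, N k := by ring
      rw [this]
      omega
    · rw [Polynomial.coeff_sub, Finset.card_insert_of_notMem hj, pow_succ]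
      refine (norm_sub_le _ _).trans ?_
      have := hc1 i
      have := hc2 i
      linarith
    · rw [Dd_insert _ _ _ hj, mul_sub, he1, he2, Polynomial.eval_sub]

lemma poly_tsum (q : ℝ) (hq0 : 0 ≤ q) (hq1 : q < 1) (H : (I → ℕ) → Polynomial ℂ) (M : ℕ) (K : ℝ)
    (hM : ∀ n, (H n).natDegree ≤ M) (hK : ∀ n i, ‖(H n).coeff i‖ ≤ K) :
    ∃ P : Polynomial ℂ, ∀ T : ℂ, ∑' n : I → ℕ, (q : ℂ) ^ (∑ i, n i) * (H n).eval T = P.eval T := by
  have hs : ∀ i, Summable fun n : I → ℕ => (q : ℂ) ^ (∑ i, n i) * (H n).coeff i := by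
    intro i
    refine Summable.of_norm_bounded ((summable_geom (I := I) q hq0 hq1).mul_right K) fun n => ?_
    rw [norm_mul, norm_pow, Complex.norm_real, Real.norm_of_nonneg hq0]
    exact mul_le_mul_of_nonneg_left (hK n i) (by positivity)
  refine ⟨∑ i ∈ Finset.range (M + 1), Polynomial.monomial i
    (∑' n : I → ℕ, (q : ℂ) ^ (∑ i, n i) * (H n).coeff i), fun T => ?_⟩
  rw [Polynomial.eval_finsetSum]
  simp only [Polynomial.eval_monomial]
  have h1 : ∀ n : I → ℕ, (q : ℂ) ^ (∑ i, n i) * (H n).eval T =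
      ∑ i ∈ Finset.range (M + 1), (q : ℂ) ^ (∑ i, n i) * (H n).coeff i * T ^ i := by
    intro n
    rw [Polynomial.eval_eq_sum_range' (Nat.lt_succ_of_le (hM n)), Finset.mul_sum]
    exact Finset.sum_congr rfl fun i _ => by ring
  simp only [h1]
  rw [Summable.tsum_finsetSum fun i _ => (hs i).mul_right _]
  refine Finset.sum_congr rfl fun i _ => ?_
  rw [tsum_mul_right]

/-- the generator attached to a shift -/
noncomputable def Gen (q : ℝ) (e : J → ℤ) (T : ℂ) : MvPolynomial J ℂ :=
  (∏ i ∈ univ.filter (fun i => 0 < Lz E a e i), (1 - C ((q : ℂ) * T ^ a i) * monomial (Ecol E i) 1)) *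
    ∏ j ∈ univ.filter (fun j => e j < 0), (1 - X j)

theorem gen_poly (hπ : Function.Surjective π) (q : ℝ) (hq0 : 0 ≤ q) (hq1 : q < 1) (C : ℕ)
    (hC : 1 ≤ C) (f : (J → ℕ) → ℂ) (K : ℝ) (hf : ∀ x, ‖f x‖ ≤ K)
    (e : J → ℤ) (he : ∀ k, ∑ j ∈ univ.filter (fun j => π j = k), e j = N k) (μ : J →₀ ℕ) :
    ∃ P : Polynomial ℂ, ∀ T : ℂ, ‖T‖ ≤ 1 →
      FB E a q T (Gf π N C f T) ∅ (Gen E a q e T * monomial μ 1) = P.eval T := by
  classical
  set D := univ.filter (fun j : J => e j < 0) with hD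
  set M := ∑ j, (e j).natAbs * (C + μ j) with hM
  have hex : ∀ n : I → ℕ, ∃ H : Polynomial ℂ, H.natDegree ≤ M + D.card * ∑ k, N k ∧
      (∀ i, ‖H.coeff i‖ ≤ 2 ^ D.card * K) ∧
      ∀ T : ℂ, (if ∀ i ∈ univ.filter (fun i => 0 < Lz E a e i), n i = 0 then
        T ^ (∑ i, a i * n i) * Dd (Gf π N C f T) D (Yv E n + μ) else 0) = H.eval T := by
    intro n
    have hK : 0 ≤ K := (norm_nonneg _).trans (hf 0)
    by_cases hn : ∀ i ∈ univ.filter (fun i => 0 < Lz E a e i), n i = 0
    · simp only [if_pos hn]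
      have hn' : ∀ i, 0 < Lz E a e i → n i = 0 := fun i hi => hn i (by simp [hi])
      by_cases hb : ∑ k, N k * om π k ⇑(Yv E n + μ) + ∑ i, a i * n i ≤ M
      · exact Dd_poly π N hπ C f K hf D _ _ _ hb
      · refine ⟨0, by simp, fun i => by simp; positivity, fun T => ?_⟩
        by_cases hz : Dd (Gf π N C f T) D (Yv E n + μ) = 0
        · rw [hz]; simp
        · exact absurd (kill π N E a hπ C hC f T e he μ n hn' hz) hb
    · simp only [if_neg hn]
      exact ⟨0, by simp, fun i => by simp; positivity, fun T => by simp⟩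
  choose H hHd hHc hHe using hex
  obtain ⟨P, hP⟩ := poly_tsum q hq0 hq1 H _ _ hHd hHc
  refine ⟨P, fun T hT => ?_⟩
  rw [← hP T, Gen, mul_assoc, FB_prod E a q hq0 hq1 T hT _ K (Gf_norm_le π N C f K hf T hT), FB]
  refine tsum_congr fun n => ?_
  rw [← hHe n T]
  split_ifs with h
  · unfold gg Dd
    rw [mul_comm (∏ j ∈ D, (1 - X j)) (monomial μ 1), ← mul_assoc (monomial (Yv E n) (1:ℂ)),
      monomial_mul, one_mul]
    ring
  · simp

end Pool.Agent.W427.SMC
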