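import Pool.Agent.W427.SMC.Kill

set_option autoImplicit false
set_option linter.unusedSectionVars false

/-! The ideal of difference operators and the functional. -/

namespace Pool.Agent.W427.SMC

open MvPolynomial Finset

variable {I J κ : Type} [Fintype I] [Fintype J] [Fintype κ] [DecidableEq J] [DecidableEq I]
  [DecidableEq κ] (π : J → κ) (N : κ → ℕ)
  (E : J → I → ℕ) (a : I → ℕ)

/-- generator attached to a shift -/
noncomputable def gE (q : ℝ) (e : J → ℤ) : MvPolynomial (J ⊕ Bool) ℂ :=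
  (∏ i ∈ univ.filter (fun i => 0 < Lz E a e i),
    (1 - C (q : ℂ) * X (Sum.inr true) ^ a i * ∏ j, X (Sum.inl j) ^ E j i)) *
    ∏ j ∈ univ.filter (fun j => e j < 0), (1 - X (Sum.inl j))

noncomputable def gK (k : κ) : MvPolynomial (J ⊕ Bool) ℂ :=
  ∏ j ∈ univ.filter (fun j => π j = k), X (Sum.inl j) - X (Sum.inr true) ^ N k

noncomputable def gT : MvPolynomial (J ⊕ Bool) ℂ :=
  X (Sum.inr true) * X (Sum.inr false) - 1

/-- the ideal -/
noncomputable def gI (q : ℝ) (S : Finset (J → ℤ)) : Ideal (MvPolynomial (J ⊕ Bool) ℂ) :=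
  Ideal.span ({gT} ∪ (Set.range (gK π N) ∪ gE E a q '' (S : Set (J → ℤ))))

noncomputable def evT (T : ℂ) : MvPolynomial (J ⊕ Bool) ℂ →ₐ[ℂ] MvPolynomial J ℂ :=
  aeval (Sum.elim X (fun b => if b then C T else C T⁻¹))

lemma monomial_Ecol (i : I) : (monomial (Ecol E i) 1 : MvPolynomial J ℂ) = ∏ j, X j ^ E j i := by
  rw [monomial_eq, C_1, one_mul, Finsupp.prod_fintype _ _ (by simp)]
  simp [Ecol]

lemma evT_gE (q : ℝ) (e : J → ℤ) (T : ℂ) : evT T (gE E a q e) = Gen E a q e T := by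
  unfold evT gE Gen
  simp only [map_mul, map_prod, map_sub, map_one, map_pow, aeval_X, Sum.elim_inl, Sum.elim_inr,
    if_true, monomial_Ecol, algHom_C, algebraMap_eq]

lemma evT_gT (T : ℂ) (hT : T ≠ 0) : evT T (gT : MvPolynomial (J ⊕ Bool) ℂ) = 0 := by
  unfold evT gT
  simp only [map_sub, map_mul, aeval_X, Sum.elim_inr, if_true, Bool.false_eq_true, if_false,
    map_one]
  rw [← C_mul, mul_inv_cancel₀ hT, C_1, sub_self]

lemma Wl_gK (hπ : Function.Surjective π) (C' : ℕ) (f : (J → ℕ) → ℂ) (T : ℂ) (k : κ)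
    (R : MvPolynomial J ℂ) : Wl (Gf π N C' f T) (evT T (gK π N k) * R) = 0 := by
  have h1 : evT T (gK π N k) =
      monomial (Finsupp.equivFunOnFinite.symm (fib π k)) 1 - C (T ^ N k) := by
    unfold evT gK
    simp only [map_sub, map_prod, map_pow, aeval_X, Sum.elim_inl, Sum.elim_inr, if_true]
    congr 1
    rw [monomial_eq, C_1, one_mul, Finsupp.prod_fintype _ _ (by simp), Finset.prod_filter]
    refine Finset.prod_congr rfl fun j _ => ?_
    simp only [Finsupp.equivFunOnFinite_symm_apply_apply, fib]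
    split_ifs <;> simp
  rw [h1, sub_mul, map_sub, Wl_mul, C_mul', map_smul, smul_eq_mul]
  have h2 : Wl (Gf π N C' f T) R = ∑ μ ∈ R.support, coeff μ R * Gf π N C' f T μ := by
    have := Wl_mul (Gf π N C' f T) 0 R
    simpa using this
  rw [h2, Finset.mul_sum, ← Finset.sum_sub_distrib]
  refine Finset.sum_eq_zero fun μ _ => ?_
  have h3 : (⇑(Finsupp.equivFunOnFinite.symm (fib π k) + μ) : J → ℕ) =
      fun j => μ j + fib π k j := by
    funext j
    rw [Finsupp.add_apply, Finsupp.equivFunOnFinite_symm_apply_apply, add_comm]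
  rw [h3, Gf, Gf, tr_fib π hπ]
  simp only [om_fib π hπ, mul_add, Finset.sum_add_distrib]
  have h4 : ∑ k', N k' * (if k' = k then 1 else 0) = N k := by
    simp
  rw [h4, pow_add]
  ring

/-- Laurent polynomials -/
def IsLaur (F : ℂ → ℂ) : Prop :=
  ∃ (P : Polynomial ℂ) (c : ℕ), ∀ T : ℂ, T ≠ 0 → ‖T‖ ≤ 1 → T ^ c * F T = P.eval T

lemma IsLaur.add {F G : ℂ → ℂ} (hF : IsLaur F) (hG : IsLaur G) : IsLaur (fun T => F T + G T) := by
  obtain ⟨P, c, hP⟩ := hF
  obtain ⟨Q, d, hQ⟩ := hG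
  refine ⟨Polynomial.X ^ d * P + Polynomial.X ^ c * Q, c + d, fun T h0 h1 => ?_⟩
  rw [Polynomial.eval_add, Polynomial.eval_mul, Polynomial.eval_mul, Polynomial.eval_pow,
    Polynomial.eval_pow, Polynomial.eval_X, ← hP T h0 h1, ← hQ T h0 h1, pow_add]
  ring

lemma IsLaur.zero : IsLaur (fun _ => 0) := ⟨0, 0, fun T _ _ => by simp⟩

lemma IsLaur.mul {F G : ℂ → ℂ} (hF : IsLaur F) (hG : IsLaur G) : IsLaur (fun T => F T * G T) := by
  obtain ⟨P, c, hP⟩ := hF
  obtain ⟨Q, d, hQ⟩ := hG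
  refine ⟨P * Q, c + d, fun T h0 h1 => ?_⟩
  rw [Polynomial.eval_mul, ← hP T h0 h1, ← hQ T h0 h1, pow_add]
  ring

lemma IsLaur.poly (P : Polynomial ℂ) : IsLaur (fun T => P.eval T) :=
  ⟨P, 0, fun T _ _ => by simp⟩

lemma IsLaur.inv_pow (c : ℕ) : IsLaur (fun T => T⁻¹ ^ c) :=
  ⟨1, c, fun T h0 _ => by rw [← mul_pow, mul_inv_cancel₀ h0]; simp⟩

lemma IsLaur.congr {F G : ℂ → ℂ} (hF : IsLaur F) (h : ∀ T : ℂ, T ≠ 0 → ‖T‖ ≤ 1 → G T = F T) :
    IsLaur G := by
  obtain ⟨P, c, hP⟩ := hF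
  exact ⟨P, c, fun T h0 h1 => by rw [h T h0 h1, hP T h0 h1]⟩

lemma IsLaur.sum {α : Type} (s : Finset α) (F : α → ℂ → ℂ) (h : ∀ i ∈ s, IsLaur (F i)) :
    IsLaur (fun T => ∑ i ∈ s, F i T) := by
  classical
  induction s using Finset.induction_on with
  | empty => simpa using IsLaur.zero
  | insert i s hi ih =>
    refine ((h i (Finset.mem_insert_self _ _)).add
      (ih fun j hj => h j (Finset.mem_insert_of_mem hj))).congr fun T _ _ => ?_
    rw [Finset.sum_insert hi]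

lemma FB_add (q : ℝ) (hq0 : 0 ≤ q) (hq1 : q < 1) (T : ℂ) (hT : ‖T‖ ≤ 1)
    (G : (J → ℕ) → ℂ) (K : ℝ) (hG : ∀ y, ‖G y‖ ≤ K) (R R' : MvPolynomial J ℂ) :
    FB E a q T G ∅ (R + R') = FB E a q T G ∅ R + FB E a q T G ∅ R' := by
  unfold FB
  simp only [Finset.notMem_empty, false_imp_iff, implies_true, if_true, gg_add]
  exact (gg_summable E a q hq0 hq1 T hT G K hG R).tsum_add
    (gg_summable E a q hq0 hq1 T hT G K hG R')

lemma FB_C_mul (q : ℝ) (T : ℂ) (G : (J → ℕ) → ℂ) (c : ℂ) (R : MvPolynomial J ℂ) :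
    FB E a q T G ∅ (C c * R) = c * FB E a q T G ∅ R := by
  unfold FB
  simp only [Finset.notMem_empty, false_imp_iff, implies_true, if_true, gg_C_mul]
  exact tsum_mul_left

lemma FB_zero (q : ℝ) (T : ℂ) (G : (J → ℕ) → ℂ) : FB E a q T G ∅ 0 = 0 := by
  unfold FB gg
  simp

lemma evT_monomial (T : ℂ) (ν : J ⊕ Bool →₀ ℕ) (c : ℂ) :
    evT T (monomial ν c) = C (c * (T ^ ν (Sum.inr true) * T⁻¹ ^ ν (Sum.inr false))) *
      monomial (Finsupp.equivFunOnFinite.symm fun j => ν (Sum.inl j)) 1 := by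
  rw [evT, aeval_monomial, Finsupp.prod_fintype _ _ (by simp), Fintype.prod_sum_type,
    Fintype.prod_bool, monomial_eq (s := Finsupp.equivFunOnFinite.symm fun j => ν (Sum.inl j)),
    Finsupp.prod_fintype _ _ (by simp)]
  simp only [Sum.elim_inl, Sum.elim_inr, if_true, Bool.false_eq_true, if_false, algebraMap_eq,
    Finsupp.equivFunOnFinite_symm_apply_apply, C_1, one_mul, C_mul, C_pow]
  ring

theorem laur_of_mem (hπ : Function.Surjective π) (q : ℝ) (hq0 : 0 ≤ q) (hq1 : q < 1) (C' : ℕ)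
    (hC : 1 ≤ C') (f : (J → ℕ) → ℂ) (K : ℝ) (hf : ∀ x, ‖f x‖ ≤ K) (S : Finset (J → ℤ))
    (hS : ∀ e ∈ S, ∀ k, ∑ j ∈ univ.filter (fun j => π j = k), e j = N k)
    (x : MvPolynomial (J ⊕ Bool) ℂ) (hx : x ∈ gI π N E a q S) :
    ∀ P : MvPolynomial (J ⊕ Bool) ℂ,
      IsLaur (fun T => FB E a q T (Gf π N C' f T) ∅ (evT T (P * x))) := by
  have hadd : ∀ (x y : MvPolynomial (J ⊕ Bool) ℂ),
      IsLaur (fun T => FB E a q T (Gf π N C' f T) ∅ (evT T x)) →
      IsLaur (fun T => FB E a q T (Gf π N C' f T) ∅ (evT T y)) →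
      IsLaur (fun T => FB E a q T (Gf π N C' f T) ∅ (evT T (x + y))) := by
    intro x y hx hy
    refine (hx.add hy).congr fun T _ h1 => ?_
    rw [map_add, FB_add E a q hq0 hq1 T h1 _ K (Gf_norm_le π N C' f K hf T h1)]
  unfold gI at hx
  induction hx using Submodule.span_induction with
  | mem x hx =>
    intro P
    rcases hx with hx | ⟨k, rfl⟩ | ⟨e, he, rfl⟩
    · rw [Set.mem_singleton_iff] at hx
      subst hx
      refine IsLaur.zero.congr fun T h0 _ => ?_
      rw [map_mul, evT_gT T h0, mul_zero, FB_zero]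
    · refine IsLaur.zero.congr fun T _ _ => ?_
      unfold FB
      rw [tsum_congr, tsum_zero]
      intro n
      rw [ite_eq_right_iff]
      intro _
      unfold gg
      rw [map_mul (evT T), mul_comm (evT T P), mul_left_comm (monomial (Yv E n) (1:ℂ)),
        Wl_gK π N hπ, mul_zero]
    · induction P using MvPolynomial.induction_on' with
      | monomial ν c =>
        obtain ⟨P, hP⟩ := gen_poly π N E a hπ q hq0 hq1 C' hC f K hf e (hS e he)
          (Finsupp.equivFunOnFinite.symm fun j => ν (Sum.inl j))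
        refine (((IsLaur.poly (Polynomial.monomial (ν (Sum.inr true)) c)).mul
          (IsLaur.inv_pow (ν (Sum.inr false)))).mul (IsLaur.poly P)).congr fun T _ h1 => ?_
        rw [map_mul, evT_monomial, evT_gE, mul_assoc, FB_C_mul, mul_comm (monomial _ _), hP T h1,
          Polynomial.eval_monomial]
        ring
      | add p p' hp hp' =>
        rw [add_mul]
        exact hadd _ _ hp hp'
  | zero =>
    intro P
    refine IsLaur.zero.congr fun T _ _ => ?_
    rw [mul_zero, map_zero, FB_zero]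
  | add x y _ _ hx hy =>
    intro P
    rw [mul_add]
    exact hadd _ _ (hx P) (hy P)
  | smul b x _ hx =>
    intro P
    rw [smul_eq_mul, ← mul_assoc]
    exact hx _

/-- The conclusion for a polynomial in `T` which belongs to the ideal. -/
theorem laur_beta (hπ : Function.Surjective π) (q : ℝ) (hq0 : 0 ≤ q) (hq1 : q < 1) (C' : ℕ)
    (hC : 1 ≤ C') (f : (J → ℕ) → ℂ) (K : ℝ) (hf : ∀ x, ‖f x‖ ≤ K) (S : Finset (J → ℤ))
    (hS : ∀ e ∈ S, ∀ k, ∑ j ∈ univ.filter (fun j => π j = k), e j = N k)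
    (β : Polynomial ℂ)
    (hβ : Polynomial.aeval (X (Sum.inr true) : MvPolynomial (J ⊕ Bool) ℂ) β ∈ gI π N E a q S)
    (γ : J → ℕ) :
    IsLaur (fun T => β.eval T * ∑' n : I → ℕ, (q : ℂ) ^ (∑ i, n i) * T ^ (∑ i, a i * n i) *
      Gf π N C' f T (fun j => ∑ i, E j i * n i + γ j)) := by
  refine (laur_of_mem π N E a hπ q hq0 hq1 C' hC f K hf S hS _ hβ
    (monomial (Finsupp.equivFunOnFinite.symm (Sum.elim γ fun _ => 0)) 1)).congr
    fun T _ _ => ?_
  have h1 : evT T (monomial (Finsupp.equivFunOnFinite.symm (Sum.elim γ fun _ => 0)) 1 *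
      Polynomial.aeval (X (Sum.inr true) : MvPolynomial (J ⊕ Bool) ℂ) β) =
      C (β.eval T) * monomial (Finsupp.equivFunOnFinite.symm γ) 1 := by
    rw [map_mul, evT_monomial, ← Polynomial.aeval_algHom_apply]
    have h2 : evT T (X (Sum.inr true) : MvPolynomial (J ⊕ Bool) ℂ) = algebraMap ℂ _ T := by
      unfold evT
      simp [algebraMap_eq]
    rw [h2, Polynomial.aeval_algebraMap_apply, Polynomial.coe_aeval_eq_eval, algebraMap_eq]
    simp only [Finsupp.equivFunOnFinite_symm_apply_apply, Sum.elim_inl, Sum.elim_inr, pow_zero,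
      mul_one, C_1, one_mul]
    rw [mul_comm]
  rw [h1, FB_C_mul]
  congr 1
  unfold FB
  refine tsum_congr fun n => ?_
  simp only [Finset.notMem_empty, false_imp_iff, implies_true, if_true]
  unfold gg
  rw [monomial_mul, one_mul, Wl_monomial, one_mul]
  rfl

end Pool.Agent.W427.SMC
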