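import Pool.Agent.W427.SMC.Exp
import Pool.Agent.W427.SMC.Ring

set_option autoImplicit false
set_option linter.unusedSectionVars false

/-! Evaluation of the relation at a nilpotent neighbourhood of a point of the torus. -/

namespace Pool.Agent.W427.SMC

open Finset IsNilpotent

lemma exp_inj2 {Q : Type} [CommRing Q] [Module ℚ Q] (x y : Q) (hx : IsNilpotent x)
    (hy : IsNilpotent y) (h : exp x = exp y) : x = y := by
  have h1 : exp (x - y) * exp y = exp x := by
    rw [← exp_add_of_commute (Commute.all _ _) (Commute.isNilpotent_sub (Commute.all _ _) hx hy) hy,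
      sub_add_cancel]
  rw [h] at h1
  have h2 : exp (x - y) = 1 := by
    have h3 : exp (x - y) * exp y = 1 * exp y := by rw [h1, one_mul]
    exact (isUnit_exp hy).mul_right_cancel h3
  exact sub_eq_zero.1 (exp_inj _ (Commute.isNilpotent_sub (Commute.all _ _) hx hy) h2)

lemma unit_add_nil {Q : Type} [CommRing Q] [Algebra ℂ Q] (c : ℂ) (hc : c ≠ 0) (y : Q)
    (hy : IsNilpotent y) : IsUnit (algebraMap ℂ Q c + y) := by
  have h1 : algebraMap ℂ Q c + y = algebraMap ℂ Q c * (1 + algebraMap ℂ Q c⁻¹ * y) := by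
    rw [mul_add, ← mul_assoc, ← map_mul, mul_inv_cancel₀ hc, map_one]; ring
  rw [h1]
  exact ((isUnit_iff_ne_zero.2 hc).map (algebraMap ℂ Q)).mul
    (Commute.isNilpotent_mul_left (Commute.all _ _) hy).isUnit_one_add

lemma exists_exp {Q : Type} [CommRing Q] [Algebra ℂ Q] [Module ℚ Q] (c : ℂ) (hc : c ≠ 0) (x : Q)
    (hx : IsNilpotent (x - algebraMap ℂ Q c)) :
    ∃ m, IsNilpotent m ∧ x = algebraMap ℂ Q c * exp m := by
  obtain ⟨m, hm, h⟩ := exp_surj (algebraMap ℂ Q c⁻¹ * (x - algebraMap ℂ Q c))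
    (Commute.isNilpotent_mul_left (Commute.all _ _) hx)
  refine ⟨m, hm, ?_⟩
  rw [h, mul_add, ← mul_assoc, ← map_mul, mul_inv_cancel₀ hc, map_one]
  ring

variable {I J κ : Type} [Fintype I] [Fintype J] [Fintype κ] [DecidableEq J] [DecidableEq I]
  [DecidableEq κ] (π : J → κ) (N : κ → ℕ)
  (E : J → I → ℕ) (a : I → ℕ)

/-- the relation satisfied by the polynomial `b` -/
def RelOK (b : Polynomial ℂ) (S : Finset (J → ℤ)) : Prop :=
  ∃ q : (J → ℤ) → MvPolynomial (Option J) ℂ,
    ∀ (R : Type) [CommRing R] [Algebra ℂ R] (α : J → R) (s : R),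
    (∀ k, ∑ j ∈ univ.filter (fun j => π j = k), α j = (N k : R) * s) →
    Polynomial.aeval s b = ∑ e ∈ S, MvPolynomial.aeval (fun o => Option.elim o s α) (q e) *
      ((∏ i ∈ univ.filter (fun i => 0 < Lz E a e i),
        (∑ j, (E j i : R) * α j + (a i : R) * s + 1)) *
        ∏ j ∈ univ.filter (fun j => e j < 0), α j)

theorem local_eval (p : ℕ) (hp : 1 < p) (b : Polynomial ℂ) (hb : b ≠ 0) (S : Finset (J → ℤ))
    (hrel : RelOK π N E a b S) (Q : Type) [CommRing Q] [Algebra ℂ Q] (x : J ⊕ Bool → Q)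
    (P : J ⊕ Bool → ℂ) (hnil : ∀ i, IsNilpotent (x i - algebraMap ℂ Q (P i)))
    (hP1 : P (Sum.inr true) * P (Sum.inr false) = 1)
    (hP2 : ∀ k, ∏ j ∈ univ.filter (fun j => π j = k), P (Sum.inl j) = P (Sum.inr true) ^ N k)
    (hx2 : ∀ k, ∏ j ∈ univ.filter (fun j => π j = k), x (Sum.inl j) = x (Sum.inr true) ^ N k)
    (hx3 : ∀ e ∈ S, (∏ i ∈ univ.filter (fun i => 0 < Lz E a e i),
      (1 - algebraMap ℂ Q (((p : ℝ)⁻¹ : ℝ) : ℂ) * x (Sum.inr true) ^ a i *
        ∏ j, x (Sum.inl j) ^ E j i)) *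
      ∏ j ∈ univ.filter (fun j => e j < 0), (1 - x (Sum.inl j)) = 0) :
    (x (Sum.inr true) - algebraMap ℂ Q (P (Sum.inr true))) ^
      (b.rootMultiplicity ((-Real.log ‖P (Sum.inr true)‖ / Real.log p : ℝ) : ℂ)) = 0 := by
  let _ : Module ℚ Q := Module.compHom Q (algebraMap ℚ ℂ)
  set L := Real.log p with hL
  have hL0 : L ≠ 0 := (Real.log_pos (by exact_mod_cast hp)).ne'
  set Pt := P (Sum.inr true) with hPt
  have hPt0 : Pt ≠ 0 := left_ne_zero_of_mul_eq_one hP1
  have hPj0 : ∀ j, P (Sum.inl j) ≠ 0 := by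
    intro j
    have h1 : ∏ j' ∈ univ.filter (fun j' => π j' = π j), P (Sum.inl j') ≠ 0 := by
      rw [hP2]; exact pow_ne_zero _ hPt0
    exact Finset.prod_ne_zero_iff.1 h1 j (by simp)
  choose n hn hxn using fun j => exists_exp (P (Sum.inl j)) (hPj0 j) _ (hnil (Sum.inl j))
  obtain ⟨n0, hn0, hxn0⟩ := exists_exp Pt hPt0 _ (hnil (Sum.inr true))
  set as : J → ℝ := fun j => -Real.log ‖P (Sum.inl j)‖ / L with has
  set ss : ℝ := -Real.log ‖Pt‖ / L with hss
  set cL : Q := algebraMap ℂ Q ((L⁻¹ : ℝ) : ℂ) with hcL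
  -- sum relations
  have hsumn : ∀ k, ∑ j ∈ univ.filter (fun j => π j = k), n j = (N k : Q) * n0 := by
    intro k
    have h1 := exp_sum (univ.filter (fun j => π j = k)) n (fun j _ => hn j)
    have h2 := exp_nsmul n0 hn0 (N k)
    refine exp_inj2 _ _ h1.1 h2.1 ?_
    rw [h1.2, h2.2]
    have h3 := hx2 k
    simp only [hxn, Finset.prod_mul_distrib] at h3
    rw [hxn0, mul_pow, ← map_prod, hP2, map_pow] at h3
    exact (((isUnit_iff_ne_zero.2 hPt0).map (algebraMap ℂ Q)).pow (N k)).mul_left_cancel h3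
  have hsumas : ∀ k, ∑ j ∈ univ.filter (fun j => π j = k), as j = (N k : ℝ) * ss := by
    intro k
    have h1 := congrArg norm (hP2 k)
    rw [norm_prod, norm_pow] at h1
    have h2 := congrArg Real.log h1
    rw [Real.log_prod (fun j _ => norm_ne_zero_iff.2 (hPj0 j)), Real.log_pow] at h2
    simp only [has, hss]
    rw [← Finset.sum_div, Finset.sum_neg_distrib, h2]
    ring
  set α : J → Q := fun j => algebraMap ℂ Q ((as j : ℝ) : ℂ) - cL * n j with hα
  set s : Q := algebraMap ℂ Q ((ss : ℝ) : ℂ) - cL * n0 with hs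
  have hcon : ∀ k, ∑ j ∈ univ.filter (fun j => π j = k), α j = (N k : Q) * s := by
    intro k
    simp only [hα, hs]
    rw [Finset.sum_sub_distrib, ← map_sum, ← Finset.mul_sum, hsumn, ← Complex.ofReal_sum, hsumas]
    simp only [Complex.ofReal_mul, Complex.ofReal_natCast, map_mul, map_natCast]
    ring
  -- divisibilities
  have hD1 : ∀ j, (1 - x (Sum.inl j)) ∣ α j := by
    intro j
    by_cases h : P (Sum.inl j) = 1
    · obtain ⟨u, hu, h1⟩ := exp_unit (n j) (hn j)
      obtain ⟨v, hv⟩ := hu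
      have h2 : as j = 0 := by simp [has, h]
      have h3 : x (Sum.inl j) = 1 + n j * u := by rw [hxn, h, map_one, one_mul, h1]
      refine ⟨cL * ((v⁻¹ : Qˣ) : Q), ?_⟩
      rw [h3]
      simp only [hα, h2]
      rw [← hv]
      have h4 : (v : Q) * ((v⁻¹ : Qˣ) : Q) = 1 := Units.mul_inv v
      simp only [Complex.ofReal_zero, map_zero]
      linear_combination (n j * cL) * h4
    · refine IsUnit.dvd ?_
      have h1 : 1 - x (Sum.inl j) = algebraMap ℂ Q (1 - P (Sum.inl j)) +
          -(x (Sum.inl j) - algebraMap ℂ Q (P (Sum.inl j))) := by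
        rw [map_sub, map_one]; ring
      rw [h1]
      exact unit_add_nil _ (sub_ne_zero.2 (Ne.symm h)) _ (hnil _).neg
  have hD2 : ∀ i, (1 - algebraMap ℂ Q (((p : ℝ)⁻¹ : ℝ) : ℂ) * x (Sum.inr true) ^ a i *
        ∏ j, x (Sum.inl j) ^ E j i) ∣ (∑ j, (E j i : Q) * α j + (a i : Q) * s + 1) := by
    intro i
    set c : ℂ := (((p : ℝ)⁻¹ : ℝ) : ℂ) * Pt ^ a i * ∏ j, P (Sum.inl j) ^ E j i with hc
    set l : Q := ∑ j, (E j i : Q) * n j + (a i : Q) * n0 with hl
    have h1 := exp_sum univ (fun j => (E j i : Q) * n j)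
      (fun j _ => (exp_nsmul (n j) (hn j) (E j i)).1)
    have h2 := exp_nsmul n0 hn0 (a i)
    have hlnil : IsNilpotent l := Commute.isNilpotent_add (Commute.all _ _) h1.1 h2.1
    have hexpl : exp l = (∏ j, exp (n j) ^ E j i) * exp n0 ^ a i := by
      rw [hl, exp_add_of_commute (Commute.all _ _) h1.1 h2.1, h1.2, h2.2]
      congr 1
      exact Finset.prod_congr rfl fun j _ => (exp_nsmul (n j) (hn j) (E j i)).2
    have h3 : algebraMap ℂ Q (((p : ℝ)⁻¹ : ℝ) : ℂ) * x (Sum.inr true) ^ a i *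
        ∏ j, x (Sum.inl j) ^ E j i = algebraMap ℂ Q c * exp l := by
      rw [hexpl, hc, hxn0]
      simp only [hxn, mul_pow, Finset.prod_mul_distrib, map_mul, map_pow, map_prod]
      ring
    have h4 : ∑ j, (E j i : Q) * α j + (a i : Q) * s + 1 =
        algebraMap ℂ Q (((∑ j, (E j i : ℝ) * as j + a i * ss + 1 : ℝ) : ℝ) : ℂ) - cL * l := by
      simp only [hα, hs, hl, Complex.ofReal_add, Complex.ofReal_sum, Complex.ofReal_mul,
        Complex.ofReal_natCast, Complex.ofReal_one]
      simp only [map_add, map_sum, map_mul, map_natCast, map_one, mul_sub, Finset.sum_sub_distrib,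
        Finset.mul_sum, mul_add]
      have : ∀ j, (E j i : Q) * (cL * n j) = cL * ((E j i : Q) * n j) := fun j => by ring
      simp only [this]
      ring
    rw [h3, h4]
    by_cases h : c = 1
    · obtain ⟨u, hu, h5⟩ := exp_unit l hlnil
      obtain ⟨v, hv⟩ := hu
      have h6 : ∑ j, (E j i : ℝ) * as j + a i * ss + 1 = 0 := by
        have h7 := congrArg (fun z : ℂ => Real.log ‖z‖) h
        simp only [hc, norm_mul, norm_pow, norm_prod, Complex.norm_real, norm_one,
          Real.log_one] at h7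
        have hp0 : (p : ℝ) ≠ 0 := by positivity
        rw [Real.norm_of_nonneg (by positivity), Real.log_mul, Real.log_mul, Real.log_inv,
          Real.log_pow, Real.log_prod] at h7
        · simp only [Real.log_pow] at h7
          rw [← hL] at h7
          simp only [has, hss]
          have h8 : ∑ j, (E j i : ℝ) * (-Real.log ‖P (Sum.inl j)‖ / L) =
              -(∑ j, (E j i : ℝ) * Real.log ‖P (Sum.inl j)‖) / L := by
            rw [← Finset.sum_neg_distrib, Finset.sum_div]
            exact Finset.sum_congr rfl fun j _ => by ring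
          rw [h8]
          field_simp
          linarith
        · intro j _
          exact pow_ne_zero _ (norm_ne_zero_iff.2 (hPj0 j))
        · positivity
        · exact pow_ne_zero _ (norm_ne_zero_iff.2 hPt0)
        · exact mul_ne_zero (by positivity) (pow_ne_zero _ (norm_ne_zero_iff.2 hPt0))
        · exact Finset.prod_ne_zero_iff.2 fun j _ =>
            pow_ne_zero _ (norm_ne_zero_iff.2 (hPj0 j))
      refine ⟨cL * ((v⁻¹ : Qˣ) : Q), ?_⟩
      rw [h6, h, h5, ← hv]
      have h9 : (v : Q) * ((v⁻¹ : Qˣ) : Q) = 1 := Units.mul_inv v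
      simp only [Complex.ofReal_zero, map_zero, map_one]
      linear_combination (l * cL) * h9
    · refine IsUnit.dvd ?_
      obtain ⟨u, hu, h5⟩ := exp_unit l hlnil
      have h6 : 1 - algebraMap ℂ Q c * exp l = algebraMap ℂ Q (1 - c) +
          l * (-(algebraMap ℂ Q c * u)) := by
        rw [map_sub, map_one, h5]; ring
      rw [h6]
      exact unit_add_nil _ (sub_ne_zero.2 (Ne.symm h)) _
        (Commute.isNilpotent_mul_right (Commute.all _ _) hlnil)
  -- the relation
  obtain ⟨q, hq⟩ := hrel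
  have h0 : Polynomial.aeval s b = 0 := by
    rw [hq Q α s hcon]
    refine Finset.sum_eq_zero fun e he => ?_
    have h1 := mul_dvd_mul
      (Finset.prod_dvd_prod_of_dvd (s := univ.filter (fun i => 0 < Lz E a e i)) _ _
        (fun i _ => hD2 i))
      (Finset.prod_dvd_prod_of_dvd (s := univ.filter (fun j => e j < 0)) _ _ (fun j _ => hD1 j))
    rw [hx3 e he] at h1
    rw [zero_dvd_iff.1 h1, mul_zero]
  -- root multiplicity
  set M := b.rootMultiplicity ((ss : ℝ) : ℂ) with hM
  obtain ⟨h, hbh, hnd⟩ := Polynomial.exists_eq_pow_rootMultiplicity_mul_and_not_dvd b hb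
    ((ss : ℝ) : ℂ)
  have hν : IsNilpotent (cL * n0) := Commute.isNilpotent_mul_left (Commute.all _ _) hn0
  have h1 : Polynomial.aeval s b = (-(cL * n0)) ^ M * Polynomial.aeval s h := by
    conv_lhs => rw [hbh]
    rw [map_mul, map_pow, map_sub, Polynomial.aeval_X, Polynomial.aeval_C]
    congr 2
    rw [hs]; ring
  have hunit : IsUnit (Polynomial.aeval s h) := by
    have hne : h.eval ((ss : ℝ) : ℂ) ≠ 0 := fun h' => hnd (Polynomial.dvd_iff_isRoot.2 h')
    obtain ⟨h', hh'⟩ := Polynomial.X_sub_C_dvd_sub_C_eval (p := h) (a := ((ss : ℝ) : ℂ))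
    have h2 : Polynomial.aeval s h = algebraMap ℂ Q (h.eval ((ss : ℝ) : ℂ)) +
        (-(cL * n0)) * Polynomial.aeval s h' := by
      have h3 := congrArg (Polynomial.aeval s) hh'
      rw [map_sub, Polynomial.aeval_C, map_mul, map_sub, Polynomial.aeval_X,
        Polynomial.aeval_C] at h3
      have h4 : s - algebraMap ℂ Q ((ss : ℝ) : ℂ) = -(cL * n0) := by rw [hs]; ring
      rw [h4] at h3
      linear_combination h3
    rw [h2]
    exact unit_add_nil _ hne _ (Commute.isNilpotent_mul_right (Commute.all _ _) hν.neg)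
  rw [h0] at h1
  have h2 : (-(cL * n0)) ^ M = 0 := (hunit.mul_left_eq_zero).1 h1.symm
  have hcLu : IsUnit cL := (isUnit_iff_ne_zero.2 (by
    exact_mod_cast inv_ne_zero hL0)).map (algebraMap ℂ Q)
  have h3 : n0 ^ M = 0 := by
    rw [neg_pow, mul_pow] at h2
    have h4 : IsUnit ((-1 : Q) ^ M * cL ^ M) := (isUnit_one.neg.pow M).mul (hcLu.pow M)
    rw [← mul_assoc] at h2
    exact (h4.mul_right_eq_zero).1 h2
  obtain ⟨u, hu, h5⟩ := exp_unit n0 hn0
  have h6 : x (Sum.inr true) - algebraMap ℂ Q Pt = n0 * (algebraMap ℂ Q Pt * u) := by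
    rw [hxn0, h5]; ring
  rw [h6, mul_pow, h3, zero_mul]

end Pool.Agent.W427.SMC
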