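import Pool.Agent.H628R4.TP.Weyl

set_option autoImplicit false
set_option linter.unusedSectionVars false

/-! The numerical relation: coefficients of the powers of the polynomial. -/

namespace Pool.Agent.W427.SMC

open MvPolynomial Pool.Agent.H628R4.TP

variable {ι κ : Type} [Fintype ι] [DecidableEq ι] [Fintype κ] [DecidableEq κ] {Jk : κ → Type}
  [∀ k, Fintype (Jk k)] [∀ k, DecidableEq (Jk k)]
  (a : ι → ℕ) (Nk : κ → ℕ) (c : (k : κ) → Jk k → ℂ) (m : (k : κ) → Jk k → ℕ)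
  (v : (k : κ) → Jk k → ι → ℕ)

/-- The polynomial `x ^ a * ∏_k (∑_j c_{k,j} y_{k,j} ^ m_{k,j} x ^ v_{k,j}) ^ N_k`. -/
noncomputable def pol : MvPolynomial (ι ⊕ (Σ k, Jk k)) ℂ :=
  (∏ i, X (Sum.inl i) ^ a i) * ∏ k, (∑ j, C (c k j) * X (Sum.inr ⟨k, j⟩) ^ m k j *
    ∏ i, X (Sum.inl i) ^ v k j i) ^ Nk k

/-- exponent vector -/
noncomputable def Ex (n : ℕ) (α : (k : κ) → Jk k → ℕ) : (ι ⊕ (Σ k, Jk k)) →₀ ℕ :=
  Finsupp.equivFunOnFinite.symm
    (Sum.elim (fun i => ∑ k, ∑ j, α k j * v k j i + a i * n) (fun p => m p.1 p.2 * α p.1 p.2))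

/-- shift vector -/
def Sh (e : (k : κ) → Jk k → ℤ) : (ι ⊕ (Σ k, Jk k)) → ℤ :=
  Sum.elim (fun i => ∑ k, ∑ j, e k j * (v k j i : ℤ) + a i) (fun p => m p.1 p.2 * e p.1 p.2)

lemma Ex_inj (hm : ∀ k j, 0 < m k j) (n : ℕ) : Function.Injective (Ex a m v n) := by
  intro α β h
  funext k j
  have := DFunLike.congr_fun h (Sum.inr ⟨k, j⟩)
  simp only [Ex, Finsupp.equivFunOnFinite_symm_apply_apply, Sum.elim_inr] at this
  exact Nat.eq_of_mul_eq_mul_left (hm k j) this

lemma Sh_inj (hm : ∀ k j, 0 < m k j) : Function.Injective (Sh a m v) := by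
  intro α β h
  funext k j
  have := congrFun h (Sum.inr ⟨k, j⟩)
  simp only [Sh, Sum.elim_inr] at this
  have hm' : (m k j : ℤ) ≠ 0 := by exact_mod_cast (hm k j).ne'
  exact mul_left_cancel₀ hm' this

def Sn (n : ℕ) : Finset ((k : κ) → Jk k → ℕ) :=
  Fintype.piFinset fun k => Finset.piAntidiag Finset.univ (Nk k * n)

lemma mem_Sn {n : ℕ} {α : (k : κ) → Jk k → ℕ} : α ∈ Sn Nk n ↔ ∀ k, ∑ j, α k j = Nk k * n := by
  simp [Sn]

/-- the coefficient -/
noncomputable def cf (α : (k : κ) → Jk k → ℕ) : ℂ :=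
  ((∏ k, Nat.multinomial Finset.univ (α k) : ℕ) : ℂ) * ∏ k, ∏ j, c k j ^ α k j

lemma term_monomial (n : ℕ) (α : (k : κ) → Jk k → ℕ) :
    (∏ i, (X (Sum.inl i) : MvPolynomial (ι ⊕ (Σ k, Jk k)) ℂ) ^ a i) ^ n *
    ∏ k, ∏ j, (C (c k j) * X (Sum.inr ⟨k, j⟩) ^ m k j * ∏ i, X (Sum.inl i) ^ v k j i :
      MvPolynomial (ι ⊕ (Σ k, Jk k)) ℂ) ^ α k j =
      monomial (Ex a m v n α) (∏ k, ∏ j, c k j ^ α k j) := by
  rw [monomial_eq, Finsupp.prod_fintype _ _ (by simp), Fintype.prod_sum_type,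
    Fintype.prod_sigma]
  simp only [Ex, Finsupp.equivFunOnFinite_symm_apply_apply, Sum.elim_inl, Sum.elim_inr, mul_pow,
    Finset.prod_mul_distrib, map_prod, map_pow, pow_add, ← pow_mul, ← Finset.prod_pow]
  have h1 : ∀ k, ∏ j, ∏ i, (X (Sum.inl i) : MvPolynomial (ι ⊕ (Σ k, Jk k)) ℂ) ^
      (v k j i * α k j) = ∏ i, ∏ j, X (Sum.inl i) ^ (v k j i * α k j) := fun k => Finset.prod_comm
  simp only [h1]
  rw [Finset.prod_comm (s := (Finset.univ : Finset κ)) (t := (Finset.univ : Finset ι))]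
  have h2 : ∏ i, ∏ k, ∏ j, (X (Sum.inl i) : MvPolynomial (ι ⊕ (Σ k, Jk k)) ℂ) ^
      (v k j i * α k j) = ∏ i, X (Sum.inl i) ^ (∑ k, ∑ j, α k j * v k j i) := by
    refine Finset.prod_congr rfl fun i _ => ?_
    simp only [Finset.prod_pow_eq_pow_sum]
    congr 1
    exact Finset.sum_congr rfl fun k _ => Finset.sum_congr rfl fun j _ => mul_comm _ _
  rw [h2]
  ring

lemma pow_expand (n : ℕ) :
    pol a Nk c m v ^ n = ∑ α ∈ Sn Nk n, monomial (Ex a m v n α) (cf c α) := by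
  have h0 : ∀ G : κ → MvPolynomial (ι ⊕ (Σ k, Jk k)) ℂ,
      (∏ k, G k ^ Nk k) ^ n = ∏ k, G k ^ (Nk k * n) := by
    intro G
    rw [← Finset.prod_pow]
    exact Finset.prod_congr rfl fun k _ => (pow_mul _ _ _).symm
  unfold pol Sn
  rw [mul_pow, h0]
  simp only [Finset.sum_pow_eq_sum_piAntidiag]
  rw [Finset.prod_univ_sum, Finset.mul_sum]
  refine Finset.sum_congr rfl fun α _ => ?_
  rw [Finset.prod_mul_distrib, mul_left_comm, term_monomial, ← Nat.cast_prod]
  rw [show ((∏ k, Nat.multinomial Finset.univ (α k) : ℕ) :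
    MvPolynomial (ι ⊕ (Σ k, Jk k)) ℂ) =
    C ((∏ k, Nat.multinomial Finset.univ (α k) : ℕ) : ℂ) from (map_natCast C _).symm,
    C_mul_monomial, cf]

lemma coeff_pow (hm : ∀ k j, 0 < m k j) (n : ℕ) (α : (k : κ) → Jk k → ℕ) (hα : α ∈ Sn Nk n) :
    coeff (Ex a m v n α) (pol a Nk c m v ^ n) = cf c α := by
  rw [pow_expand, coeff_sum, Finset.sum_eq_single α]
  · rw [coeff_monomial, if_pos rfl]
  · intro β _ hβ
    rw [coeff_monomial, if_neg fun h => hβ (Ex_inj a m v hm n h)]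
  · exact fun h => absurd hα h

/-- the polynomial `α ! / (α + e) ! * desc (m (α + e), m e)` -/
noncomputable def Ap (m : ℕ) (e : ℤ) : Polynomial ℂ :=
  if e < 0 then descPochhammer ℂ (-e).toNat
  else Polynomial.C ((m : ℂ) ^ e.toNat) *
    ∏ u ∈ (Finset.range (m * e.toNat)).filter (fun u => ¬ m ∣ u + 1),
      (Polynomial.C (m : ℂ) * Polynomial.X + Polynomial.C ((u : ℂ) + 1))

lemma prod_dvd_range (m t : ℕ) (hm : 0 < m) (f : ℕ → ℂ) :
    ∏ u ∈ (Finset.range (m * t)).filter (fun u => m ∣ u + 1), f (u + 1) =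
      ∏ w ∈ Finset.range t, f (m * (w + 1)) := by
  symm
  refine Finset.prod_bij (fun w _ => m * (w + 1) - 1) ?_ ?_ ?_ ?_
  · intro w hw
    rw [Finset.mem_range] at hw
    have h1 : 0 < m * (w + 1) := Nat.mul_pos hm (by omega)
    have h2 : m * (w + 1) ≤ m * t := Nat.mul_le_mul_left m (by omega)
    rw [Finset.mem_filter, Finset.mem_range]
    refine ⟨by omega, ?_⟩
    rw [Nat.sub_add_cancel h1]
    exact dvd_mul_right _ _
  · intro w _ w' _ h
    have h1 : 0 < m * (w + 1) := Nat.mul_pos hm (by omega)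
    have h2 : 0 < m * (w' + 1) := Nat.mul_pos hm (by omega)
    have h3 : m * (w + 1) = m * (w' + 1) := by omega
    have := Nat.eq_of_mul_eq_mul_left hm h3
    omega
  · intro u hu
    rw [Finset.mem_filter, Finset.mem_range] at hu
    obtain ⟨w, hw⟩ := hu.2
    have hw0 : 0 < w := by
      rcases Nat.eq_zero_or_pos w with rfl | h
      · simp at hw
      · exact h
    have hwt : w ≤ t := by
      by_contra h
      push Not at h
      have : m * (t + 1) ≤ m * w := Nat.mul_le_mul_left m h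
      have h2 := hu.1
      nlinarith
    refine ⟨w - 1, Finset.mem_range.2 (by omega), ?_⟩
    rw [Nat.sub_add_cancel hw0, ← hw]
    rfl
  · intro w _
    have h1 : 0 < m * (w + 1) := Nat.mul_pos hm (by omega)
    rw [Nat.sub_add_cancel h1]

lemma fact_id (m : ℕ) (hm : 0 < m) (a : ℕ) (e : ℤ) (h : 0 ≤ (a : ℤ) + e) :
    (a.factorial : ℂ) * ((m * ((a : ℤ) + e).toNat).descFactorial ((m : ℤ) * e).toNat : ℂ) =
      ((((a : ℤ) + e).toNat).factorial : ℂ) * (Ap m e).eval (a : ℂ) := by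
  unfold Ap
  split_ifs with he
  · obtain ⟨k, hk⟩ := Int.eq_ofNat_of_zero_le (show 0 ≤ -e by omega)
    have h1 : ((a : ℤ) + e).toNat = a - k := by omega
    have h2 : (-e).toNat = k := by omega
    have h3 : ((m : ℤ) * e).toNat = 0 := by
      have : (m : ℤ) * e ≤ 0 := by nlinarith [(show (0:ℤ) < m by exact_mod_cast hm)]
      omega
    rw [h1, h2, h3, Nat.descFactorial_zero, Nat.cast_one, mul_one,
      descPochhammer_eval_eq_descFactorial]
    have := Nat.factorial_mul_descFactorial (show k ≤ a by omega)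
    exact_mod_cast this.symm
  · push Not at he
    obtain ⟨k, rfl⟩ := Int.eq_ofNat_of_zero_le he
    have h1 : ((a : ℤ) + (k : ℤ)).toNat = a + k := by omega
    have h3 : ((m : ℤ) * (k : ℤ)).toNat = m * k := by
      rw [← Int.natCast_mul]; exact Int.toNat_natCast _
    have h4 : ((k : ℤ)).toNat = k := Int.toNat_natCast _
    rw [h1, h3, h4]
    have h5 : (((m * (a + k)).descFactorial (m * k) : ℕ) : ℂ) =
        ∏ u ∈ Finset.range (m * k), ((m : ℂ) * a + ((u + 1 : ℕ) : ℂ)) := by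
      have : m * (a + k) = m * a + m * k := by ring
      rw [this, Nat.add_descFactorial_eq_ascFactorial, Nat.ascFactorial_eq_prod_range]
      push_cast
      refine Finset.prod_congr rfl fun u _ => ?_
      ring
    rw [h5, ← Finset.prod_filter_mul_prod_filter_not (Finset.range (m * k)) (fun u => m ∣ u + 1),
      prod_dvd_range m k hm (fun u => (m : ℂ) * a + (u : ℂ))]
    have h6 : ∏ w ∈ Finset.range k, ((m : ℂ) * a + ((m * (w + 1) : ℕ) : ℂ)) =
        (m : ℂ) ^ k * ∏ w ∈ Finset.range k, ((a : ℂ) + (w + 1)) := by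
      rw [← Finset.card_range k, ← Finset.prod_const, Finset.card_range,
        ← Finset.prod_mul_distrib]
      refine Finset.prod_congr rfl fun w _ => ?_
      push_cast
      ring
    have h7 : (a.factorial : ℂ) * ∏ w ∈ Finset.range k, ((a : ℂ) + (w + 1)) =
        ((a + k).factorial : ℂ) := by
      rw [← Nat.factorial_mul_ascFactorial, Nat.ascFactorial_eq_prod_range]
      push_cast
      congr 1
      exact Finset.prod_congr rfl fun w _ => by ring
    rw [h6, Polynomial.eval_mul, Polynomial.eval_C, Polynomial.eval_prod]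
    simp only [Polynomial.eval_add, Polynomial.eval_mul, Polynomial.eval_C, Polynomial.eval_X]
    rw [← h7]
    push_cast
    ring

end Pool.Agent.W427.SMC
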