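import Pool.Agent.W427.SMC.Num

set_option autoImplicit false
set_option linter.unusedSectionVars false

namespace Pool.Agent.W427.SMC

open MvPolynomial Pool.Agent.H628R4.TP

variable {ι κ : Type} [Fintype ι] [DecidableEq ι] [Fintype κ] [DecidableEq κ] {Jk : κ → Type}
  [∀ k, Fintype (Jk k)] [∀ k, DecidableEq (Jk k)]
  (a : ι → ℕ) (Nk : κ → ℕ) (c : (k : κ) → Jk k → ℂ) (m : (k : κ) → Jk k → ℕ)
  (v : (k : κ) → Jk k → ι → ℕ)

lemma fact_mult (n : ℕ) (α : (k : κ) → Jk k → ℕ) (hα : α ∈ Sn Nk n) :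
    (∏ k, ∏ j, ((α k j).factorial : ℂ)) * ((∏ k, Nat.multinomial Finset.univ (α k) : ℕ) : ℂ) =
      ∏ k, ((Nk k * n).factorial : ℂ) := by
  rw [Nat.cast_prod, ← Finset.prod_mul_distrib]
  refine Finset.prod_congr rfl fun k _ => ?_
  have := Nat.multinomial_spec (Finset.univ) (α k)
  rw [(mem_Sn Nk).1 hα k] at this
  exact_mod_cast this

lemma fact_succ (n : ℕ) : ∏ k, ((Nk k * (n + 1)).factorial : ℂ) =
    (∏ k, ((Nk k * n).factorial : ℂ)) *
      ∏ k, ∏ u ∈ Finset.range (Nk k), ((Nk k : ℂ) * n + u + 1) := by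
  rw [← Finset.prod_mul_distrib]
  refine Finset.prod_congr rfl fun k _ => ?_
  have h : Nk k * (n + 1) = Nk k * n + Nk k := by ring
  rw [h, ← Nat.factorial_mul_ascFactorial, Nat.ascFactorial_eq_prod_range]
  push_cast
  congr 1
  exact Finset.prod_congr rfl fun w _ => by ring

/-- The numerical relation. -/
theorem num_rel (hm : ∀ k j, 0 < m k j) (hc : ∀ k j, c k j ≠ 0) (b : Polynomial ℂ)
    (hb : IsBFunction (pol a Nk c m v) b) :
    ∃ (S : Finset ((k : κ) → Jk k → ℤ)) (M : Finset ℕ)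
      (q : ℕ → ((k : κ) → Jk k → ℤ) → MvPolynomial (ι ⊕ (Σ k, Jk k)) ℂ),
      (∀ e ∈ S, ∀ k, ∑ j, e k j = (Nk k : ℤ)) ∧
      ∀ (n : ℕ) (α : (k : κ) → Jk k → ℕ), α ∈ Sn Nk n →
        b.eval (n : ℂ) = (∏ k, ∏ u ∈ Finset.range (Nk k), ((Nk k : ℂ) * n + u + 1)) * ∑ e ∈ S,
          if ∀ k j, 0 ≤ (α k j : ℤ) + e k j then
          (∏ k, ∏ j, c k j ^ e k j) * (∏ k, ∏ j, (Ap (m k j) (e k j)).eval (α k j : ℂ)) *
          (∏ i, (((Ex a m v n α (Sum.inl i) : ℕ) + Sh a m v e (Sum.inl i)).toNat.descFactorial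
            (Sh a m v e (Sum.inl i)).toNat : ℂ)) *
          ∑ mm ∈ M, (n : ℂ) ^ mm *
            eval (fun x => ((Ex a m v n α x : ℕ) : ℂ) + ((Sh a m v e x : ℤ) : ℂ)) (q mm e)
          else 0 := by
  classical
  obtain ⟨P, hP⟩ := hb
  choose Q hQf hQ using fun (T : weylS (ι ⊕ (Σ k, Jk k))) =>
    act_weyl (T : Module.End ℂ (MvPolynomial (ι ⊕ (Σ k, Jk k)) ℂ)) T.2
  have hfin : ({e : (k : κ) → Jk k → ℤ | (∀ k, ∑ j, e k j = (Nk k : ℤ)) ∧
      ∃ mm ∈ P.support, Q (P mm) (Sh a m v e) ≠ 0} : Set _).Finite := by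
    have h1 : ((⋃ mm ∈ P.support, (Sh a m v) ⁻¹' Function.support (Q (P mm))) : Set _).Finite :=
      Set.Finite.biUnion P.support.finite_toSet fun mm _ =>
        (hQf (P mm)).preimage (Sh_inj a m v hm).injOn
    refine h1.subset fun e he => ?_
    obtain ⟨_, mm, hmm, hq⟩ := he
    simp only [Set.mem_iUnion]
    exact ⟨mm, hmm, hq⟩
  refine ⟨hfin.toFinset, P.support, fun mm e => Q (P mm) (Sh a m v e), fun e he => ?_,
    fun n α hα => ?_⟩
  · exact ((Set.Finite.mem_toFinset hfin).1 he).1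
  have h1 := congrArg (coeff (Ex a m v n α)) (hP n)
  rw [coeff_C_mul, coeff_pow a Nk c m v hm n α hα, Finsupp.sum, coeff_sum] at h1
  -- the coefficient for the shift
  set F : ((k : κ) → Jk k → ℕ) → ℂ := fun γ =>
    cf c γ * ∑ mm ∈ P.support, (n : ℂ) ^ mm *
      (eval (fun x => ((Ex a m v (n+1) γ x : ℕ) : ℂ))
        (Q (P mm) (Sh a m v fun k j => (γ k j : ℤ) - α k j)) *
      ∏ x, ((Ex a m v (n+1) γ x).descFactorial
        (Sh a m v (fun k j => (γ k j : ℤ) - α k j) x).toNat : ℂ)) with hF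
  have hsh : ∀ γ : (k : κ) → Jk k → ℕ, ∀ x, ((Ex a m v (n+1) γ x : ℕ) : ℤ) =
      (Ex a m v n α x : ℕ) + Sh a m v (fun k j => (γ k j : ℤ) - α k j) x := by
    intro γ x
    rcases x with i | ⟨k, j⟩
    · simp only [Ex, Sh, Finsupp.equivFunOnFinite_symm_apply_apply, Sum.elim_inl]
      have h3 : ∑ k, ∑ j, ((γ k j : ℤ) - α k j) * (v k j i : ℤ) =
          ∑ k, ∑ j, (γ k j : ℤ) * (v k j i : ℤ) - ∑ k, ∑ j, (α k j : ℤ) * (v k j i : ℤ) := by
        rw [← Finset.sum_sub_distrib]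
        refine Finset.sum_congr rfl fun k _ => ?_
        rw [← Finset.sum_sub_distrib]
        exact Finset.sum_congr rfl fun j _ => by ring
      rw [h3]
      push_cast
      ring
    · simp only [Ex, Sh, Finsupp.equivFunOnFinite_symm_apply_apply, Sum.elim_inr]
      push_cast
      ring
  have h2 : b.eval (n : ℂ) * cf c α = ∑ γ ∈ Sn Nk (n+1), F γ := by
    rw [h1]
    have h3 : ∀ mm ∈ P.support, coeff (Ex a m v n α) (((n : ℂ) ^ mm) •
        ((P mm : weylS (ι ⊕ (Σ k, Jk k))) : Module.End ℂ _) (pol a Nk c m v ^ (n+1))) =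
        ∑ γ ∈ Sn Nk (n+1), (n : ℂ) ^ mm * (cf c γ *
        (eval (fun x => ((Ex a m v (n+1) γ x : ℕ) : ℂ))
          (Q (P mm) (Sh a m v fun k j => (γ k j : ℤ) - α k j)) *
        ∏ x, ((Ex a m v (n+1) γ x).descFactorial
          (Sh a m v (fun k j => (γ k j : ℤ) - α k j) x).toNat : ℂ))) := by
      intro mm _
      rw [coeff_smul, smul_eq_mul, pow_expand, map_sum, coeff_sum, Finset.mul_sum]
      refine Finset.sum_congr rfl fun γ _ => ?_
      congr 1
      have h4 : (monomial (Ex a m v (n+1) γ) (cf c γ) : MvPolynomial (ι ⊕ (Σ k, Jk k)) ℂ) =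
          cf c γ • monomial (Ex a m v (n+1) γ) 1 := by
        rw [smul_monomial, smul_eq_mul, mul_one]
      rw [h4, map_smul, coeff_smul, smul_eq_mul, hQ (P mm) _ _ _ (hsh γ)]
    rw [Finset.sum_congr rfl h3, Finset.sum_comm]
    refine Finset.sum_congr rfl fun γ _ => ?_
    rw [hF]
    simp only [Finset.mul_sum]
    exact Finset.sum_congr rfl fun mm _ => by ring
  -- reindexing
  have h5 : ∑ γ ∈ Sn Nk (n+1), F γ = ∑ e ∈ hfin.toFinset,
      if ∀ k j, 0 ≤ (α k j : ℤ) + e k j then F (fun k j => ((α k j : ℤ) + e k j).toNat) else 0 := by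
    rw [← Finset.sum_filter]
    have h6 : ∑ γ ∈ Sn Nk (n+1), F γ =
        ∑ γ ∈ (Sn Nk (n+1)).filter (fun γ => (fun k j => (γ k j : ℤ) - α k j) ∈ hfin.toFinset),
          F γ := by
      rw [Finset.sum_filter_of_ne]
      intro γ hγ hne
      rw [Set.Finite.mem_toFinset]
      refine ⟨fun k => ?_, ?_⟩
      · rw [Finset.sum_sub_distrib]
        have h7 := (mem_Sn Nk).1 hγ k
        have h8 := (mem_Sn Nk).1 hα k
        rw [← Nat.cast_sum, ← Nat.cast_sum, h7, h8]
        push_cast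
        ring
      · by_contra hno
        push Not at hno
        apply hne
        rw [hF]
        simp only
        rw [Finset.sum_eq_zero, mul_zero]
        intro mm hmm
        rw [hno mm hmm]
        simp
    rw [h6]
    refine Finset.sum_bij' (fun γ _ => fun k j => (γ k j : ℤ) - α k j)
      (fun e _ => fun k j => ((α k j : ℤ) + e k j).toNat) ?_ ?_ ?_ ?_ ?_
    · intro γ hγ
      rw [Finset.mem_filter] at hγ ⊢
      refine ⟨hγ.2, fun k j => ?_⟩
      show 0 ≤ (α k j : ℤ) + ((γ k j : ℤ) - α k j)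
      omega
    · intro e hc
      rw [Finset.mem_filter] at hc ⊢
      have h9 := ((Set.Finite.mem_toFinset hfin).1 hc.1).1
      have h10 : ∀ k j, ((((α k j : ℤ) + e k j).toNat : ℕ) : ℤ) = (α k j : ℤ) + e k j :=
        fun k j => Int.toNat_of_nonneg (hc.2 k j)
      refine ⟨(mem_Sn Nk).2 fun k => ?_, ?_⟩
      · have h8 := (mem_Sn Nk).1 hα k
        have : ((∑ j, ((α k j : ℤ) + e k j).toNat : ℕ) : ℤ) = ((Nk k * (n + 1) : ℕ) : ℤ) := by
          rw [Nat.cast_sum, Finset.sum_congr rfl fun j _ => h10 k j, Finset.sum_add_distrib,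
            h9 k, ← Nat.cast_sum, h8]
          push_cast
          ring
        exact_mod_cast this
      · have : (fun k j => ((((α k j : ℤ) + e k j).toNat : ℕ) : ℤ) - α k j) = e := by
          funext k j
          rw [h10]
          ring
        rw [this]
        exact hc.1
    · intro γ _
      funext k j
      simp
    · intro e hc
      rw [Finset.mem_filter] at hc
      funext k j
      have := Int.toNat_of_nonneg (hc.2 k j)
      simp only
      omega
    · intro γ _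
      congr 1
      funext k j
      simp
  have hfac : (∏ k, ∏ j, ((α k j).factorial : ℂ)) ≠ 0 :=
    Finset.prod_ne_zero_iff.2 fun k _ => Finset.prod_ne_zero_iff.2 fun j _ => by
      exact_mod_cast Nat.factorial_ne_zero _
  have hn : (∏ k, ((Nk k * n).factorial : ℂ)) ≠ 0 :=
    Finset.prod_ne_zero_iff.2 fun k _ => by exact_mod_cast Nat.factorial_ne_zero _
  have hcα : (∏ k, ∏ j, c k j ^ α k j) ≠ 0 :=
    Finset.prod_ne_zero_iff.2 fun k _ => Finset.prod_ne_zero_iff.2 fun j _ => pow_ne_zero _ (hc k j)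
  have h11 : b.eval (n : ℂ) * (∏ k, ((Nk k * n).factorial : ℂ)) * (∏ k, ∏ j, c k j ^ α k j) =
      (∏ k, ∏ j, ((α k j).factorial : ℂ)) * ∑ e ∈ hfin.toFinset,
      if ∀ k j, 0 ≤ (α k j : ℤ) + e k j then F (fun k j => ((α k j : ℤ) + e k j).toNat) else 0 := by
    rw [← h5, ← h2, ← fact_mult Nk n α hα, cf]
    ring
  refine mul_right_cancel₀ hn (mul_right_cancel₀ hcα ?_)
  have h12 : ∀ A X N Y : ℂ, A * X * N * Y = N * A * X * Y := fun A X N Y => by ring
  rw [h11, h12, ← fact_succ, Finset.mul_sum, Finset.mul_sum, Finset.sum_mul]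
  refine Finset.sum_congr rfl fun e he => ?_
  split_ifs with hpos
  swap
  · simp
  have h9 := ((Set.Finite.mem_toFinset hfin).1 he).1
  have h10 : ∀ k j, ((((α k j : ℤ) + e k j).toNat : ℕ) : ℤ) = (α k j : ℤ) + e k j :=
    fun k j => Int.toNat_of_nonneg (hpos k j)
  set γ : (k : κ) → Jk k → ℕ := fun k j => ((α k j : ℤ) + e k j).toNat with hγ
  have hc' : (fun k j => (γ k j : ℤ) - α k j) = e := by
    funext k j
    rw [hγ]
    simp only
    rw [h10]
    ring
  have hγS : γ ∈ Sn Nk (n+1) := by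
    refine (mem_Sn Nk).2 fun k => ?_
    have h8 := (mem_Sn Nk).1 hα k
    have : ((∑ j, γ k j : ℕ) : ℤ) = ((Nk k * (n + 1) : ℕ) : ℤ) := by
      rw [Nat.cast_sum, Finset.sum_congr rfl fun j _ => h10 k j, Finset.sum_add_distrib,
        h9 k, ← Nat.cast_sum, h8]
      push_cast
      ring
    exact_mod_cast this
  have hshc := hsh γ
  rw [hc'] at hshc
  rw [hF]
  simp only
  rw [hc']
  have h13 : ∀ x, ((Ex a m v (n+1) γ x : ℕ) : ℂ) =
      ((Ex a m v n α x : ℕ) : ℂ) + ((Sh a m v e x : ℤ) : ℂ) := by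
    intro x
    exact_mod_cast hshc x
  simp only [h13]
  have h14 : ∏ x, ((Ex a m v (n+1) γ x).descFactorial (Sh a m v e x).toNat : ℂ) =
      (∏ i, (((Ex a m v n α (Sum.inl i) : ℕ) + Sh a m v e (Sum.inl i)).toNat.descFactorial
            (Sh a m v e (Sum.inl i)).toNat : ℂ)) *
      ∏ k, ∏ j, ((m k j * γ k j).descFactorial ((m k j : ℤ) * e k j).toNat : ℂ) := by
    rw [Fintype.prod_sum_type, Fintype.prod_sigma]
    congr 1
    refine Finset.prod_congr rfl fun i _ => ?_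
    have h15 : Ex a m v (n+1) γ (Sum.inl i) =
        ((Ex a m v n α (Sum.inl i) : ℕ) + Sh a m v e (Sum.inl i)).toNat := by
      have h16 := hshc (Sum.inl i)
      omega
    rw [h15]
  have h18 : (∏ k, ∏ j, ((α k j).factorial : ℂ)) *
      ∏ k, ∏ j, ((m k j * γ k j).descFactorial ((m k j : ℤ) * e k j).toNat : ℂ) =
      (∏ k, ∏ j, ((γ k j).factorial : ℂ)) *
      ∏ k, ∏ j, (Ap (m k j) (e k j)).eval (α k j : ℂ) := by
    simp only [← Finset.prod_mul_distrib]
    exact Finset.prod_congr rfl fun k _ => Finset.prod_congr rfl fun j _ =>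
      fact_id (m k j) (hm k j) (α k j) (e k j) (hpos k j)
  have h19 := fact_mult Nk (n+1) γ hγS
  have h20 : ∏ k, ∏ j, c k j ^ γ k j = (∏ k, ∏ j, c k j ^ e k j) * ∏ k, ∏ j, c k j ^ α k j := by
    simp only [← Finset.prod_mul_distrib]
    refine Finset.prod_congr rfl fun k _ => Finset.prod_congr rfl fun j _ => ?_
    rw [← zpow_natCast, ← zpow_natCast (c k j) (α k j), ← zpow_add₀ (hc k j), h10, add_comm]
  rw [h14, ← h19, cf, h20]
  simp only [← mul_assoc, ← Finset.sum_mul]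
  linear_combination (((∏ k, Nat.multinomial Finset.univ (γ k) : ℕ) : ℂ) *
    (∑ mm ∈ P.support, (n : ℂ) ^ mm *
      eval (fun x => ((Ex a m v n α x : ℕ) : ℂ) + ((Sh a m v e x : ℤ) : ℂ))
      (Q (P mm) (Sh a m v e))) *
    (∏ i, (((Ex a m v n α (Sum.inl i) : ℕ) + Sh a m v e (Sum.inl i)).toNat.descFactorial
            (Sh a m v e (Sum.inl i)).toNat : ℂ)) * (∏ k, ∏ j, c k j ^ e k j) *
    ∏ k, ∏ j, c k j ^ α k j) * h18

end Pool.Agent.W427.SMC
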