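import Mathlib

set_option autoImplicit false

/-! Minima over the fibres and truncated patterns. -/

namespace Pool.Agent.W427.SMC

section Basic

variable {J κ : Type} (π : J → κ)

/-- minimum over the fibre -/
noncomputable def om (k : κ) (y : J → ℕ) : ℕ := sInf {t | ∃ j, π j = k ∧ y j = t}

lemma om_le (y : J → ℕ) (j : J) : om π (π j) y ≤ y j := Nat.sInf_le ⟨j, rfl, rfl⟩

lemma om_mem (hπ : Function.Surjective π) (k : κ) (y : J → ℕ) :
    ∃ j, π j = k ∧ y j = om π k y := by
  obtain ⟨j0, hj0⟩ := hπ k
  exact Nat.sInf_mem (s := {t | ∃ j, π j = k ∧ y j = t}) ⟨y j0, j0, hj0, rfl⟩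

lemma le_om (hπ : Function.Surjective π) (k : κ) (y : J → ℕ) (t : ℕ)
    (h : ∀ j, π j = k → t ≤ y j) : t ≤ om π k y := by
  obtain ⟨j, hj, h2⟩ := om_mem π hπ k y
  rw [← h2]; exact h j hj

/-- truncated pattern -/
noncomputable def tr (C : ℕ) (y : J → ℕ) (j : J) : ℕ := min (y j - om π (π j) y) C

lemma tr_le (C : ℕ) (y : J → ℕ) (j : J) : tr π C y j ≤ C := min_le_right _ _

/-- the indicator of the fibre -/
def fib [DecidableEq κ] (k : κ) (j : J) : ℕ := if π j = k then 1 else 0

lemma om_fib [DecidableEq κ] (hπ : Function.Surjective π) (k k' : κ) (y : J → ℕ) :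
    om π k' (fun j => y j + fib π k j) = om π k' y + if k' = k then 1 else 0 := by
  obtain ⟨j, hj, h2⟩ := om_mem π hπ k' y
  apply le_antisymm
  · have := om_le π (fun j => y j + fib π k j) j
    rw [hj] at this
    simp only [fib, hj] at this
    rw [h2] at this
    exact this
  · refine le_om π hπ _ _ _ fun j' hj' => ?_
    have := om_le π y j'
    rw [hj'] at this
    simp only [fib, hj']
    omega

lemma tr_fib [DecidableEq κ] (hπ : Function.Surjective π) (C : ℕ) (k : κ) (y : J → ℕ) :
    tr π C (fun j => y j + fib π k j) = tr π C y := by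
  funext j
  unfold tr
  rw [om_fib π hπ]
  simp only [fib]
  congr 1
  omega

lemma om_single [DecidableEq J] (hπ : Function.Surjective π) (y : J → ℕ) (j0 : J)
    (h : om π (π j0) y < y j0) (k : κ) :
    om π k (fun j => y j + if j = j0 then 1 else 0) = om π k y := by
  obtain ⟨j, hj, h2⟩ := om_mem π hπ k y
  apply le_antisymm
  · have := om_le π (fun j => y j + if j = j0 then 1 else 0) j
    rw [hj] at this
    have hne : j ≠ j0 := by
      rintro rfl
      rw [hj] at h
      omega
    simp only [if_neg hne] at this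
    omega
  · refine le_om π hπ _ _ _ fun j' hj' => ?_
    have := om_le π y j'
    rw [hj'] at this
    split_ifs <;> omega

lemma tr_single [DecidableEq J] (hπ : Function.Surjective π) (C : ℕ) (hC : 1 ≤ C) (y : J → ℕ)
    (j0 : J) (h : om π (π j0) y + C ≤ y j0) :
    tr π C (fun j => y j + if j = j0 then 1 else 0) = tr π C y := by
  funext j
  unfold tr
  rw [om_single π hπ y j0 (by omega)]
  by_cases hj : j = j0
  · subst hj
    simp only [if_true]
    omega
  · simp only [if_neg hj, add_zero]

end Basic

end Pool.Agent.W427.SMC
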