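import Mathlib

set_option autoImplicit false
set_option linter.unusedSectionVars false

/-! Haar measure on `ℤ_[p]` and its self-similarity. -/

namespace Pool.Agent.W427.SMC

open MeasureTheory Set
open scoped ENNReal

variable (p : ℕ) [Fact p.Prime]

/-- The Borel `σ`-algebra on `ℤ_[p]`. -/
@[reducible] noncomputable def msZ : MeasurableSpace ℤ_[p] := borel _

attribute [local instance] msZ

lemma bsZ : BorelSpace ℤ_[p] := ⟨rfl⟩

attribute [local instance] bsZ

/-- The Haar probability measure on `ℤ_[p]`. -/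
noncomputable def mu : Measure ℤ_[p] := Measure.addHaarMeasure ⊤

instance : IsProbabilityMeasure (mu p) := ⟨Measure.addHaarMeasure_self⟩

instance : (mu p).IsAddLeftInvariant := by unfold mu; infer_instance

instance : (mu p).IsAddHaarMeasure := by unfold mu; infer_instance

lemma mu_unique (ν : Measure ℤ_[p]) [IsProbabilityMeasure ν] [ν.IsAddLeftInvariant] :
    ν = mu p := by
  have h := Measure.addHaarMeasure_unique ν (⊤ : TopologicalSpace.PositiveCompacts ℤ_[p])
  rw [h]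
  have : ν ((⊤ : TopologicalSpace.PositiveCompacts ℤ_[p]) : Set ℤ_[p]) = 1 := measure_univ
  rw [this, one_smul]
  rfl

/-- residue classes -/
noncomputable def sm (l : ℕ) (g : ℤ_[p] → ℝ≥0∞) : ℝ≥0∞ :=
  ∑ w : ZMod (p ^ l), ((p : ℝ≥0∞)⁻¹) ^ l * ∫⁻ z, g ((w.val : ℤ_[p]) + (p : ℤ_[p]) ^ l * z) ∂(mu p)

lemma sm_trans (l : ℕ) (g : ℤ_[p] → ℝ≥0∞) (t : ℤ_[p]) :
    sm p l (fun z => g (t + z)) = sm p l g := by
  have hp : NeZero (p ^ l) := ⟨pow_ne_zero _ (Fact.out : p.Prime).ne_zero⟩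
  unfold sm
  refine Fintype.sum_equiv (Equiv.addLeft (PadicInt.toZModPow l t)) _ _ fun w => ?_
  congr 1
  rw [Equiv.coe_addLeft]
  set w' : ZMod (p ^ l) := PadicInt.toZModPow l t + w with hw'
  have h1 : t + (w.val : ℤ_[p]) - (w'.val : ℤ_[p]) ∈
      RingHom.ker (PadicInt.toZModPow l : ℤ_[p] →+* ZMod (p ^ l)) := by
    rw [RingHom.mem_ker, map_sub, map_add, map_natCast, map_natCast, ZMod.natCast_zmod_val,
      ZMod.natCast_zmod_val, hw', sub_self]
  rw [PadicInt.ker_toZModPow, Ideal.mem_span_singleton] at h1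
  obtain ⟨c, hc⟩ := h1
  rw [← lintegral_add_left_eq_self (μ := mu p)
    (fun z => g ((w'.val : ℤ_[p]) + (p : ℤ_[p]) ^ l * z)) c]
  refine lintegral_congr fun z => ?_
  show g _ = g _
  congr 1
  linear_combination hc

lemma meas_aff (l : ℕ) (w : ℤ_[p]) :
    Measurable (fun z : ℤ_[p] => w + (p : ℤ_[p]) ^ l * z) := by
  refine Continuous.measurable ?_
  exact continuous_const.add (continuous_const.mul continuous_id)

/-- **Self-similarity** of the Haar measure. -/
theorem lintegral_sm (l : ℕ) (g : ℤ_[p] → ℝ≥0∞) (hg : Measurable g) :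
    ∫⁻ z, g z ∂(mu p) = sm p l g := by
  have hp : NeZero (p ^ l) := ⟨pow_ne_zero _ (Fact.out : p.Prime).ne_zero⟩
  set ν : Measure ℤ_[p] := ((p : ℝ≥0∞)⁻¹) ^ l • ∑ w : ZMod (p ^ l),
    (mu p).map (fun z => (w.val : ℤ_[p]) + (p : ℤ_[p]) ^ l * z) with hν
  have h1 : ∀ g : ℤ_[p] → ℝ≥0∞, Measurable g → ∫⁻ z, g z ∂ν = sm p l g := by
    intro g hg
    rw [hν, lintegral_smul_measure, lintegral_finsetSum_measure, smul_eq_mul, Finset.mul_sum]
    refine Finset.sum_congr rfl fun w _ => ?_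
    rw [lintegral_map hg (meas_aff p l _)]
  have hpr : IsProbabilityMeasure ν := by
    refine ⟨?_⟩
    have := h1 1 measurable_one
    simp only [Pi.one_apply, lintegral_one] at this
    rw [this, sm]
    simp only [Pi.one_apply, lintegral_one, measure_univ, mul_one, Finset.sum_const,
      Finset.card_univ, ZMod.card, nsmul_eq_mul]
    rw [Nat.cast_pow, ← mul_pow, ENNReal.mul_inv_cancel, one_pow]
    · exact_mod_cast (Fact.out : p.Prime).ne_zero
    · exact ENNReal.natCast_ne_top p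
  have hinv : ν.IsAddLeftInvariant := by
    refine ⟨fun t => ?_⟩
    refine Measure.ext_of_lintegral _ fun g hg => ?_
    rw [lintegral_map hg (measurable_const_add t), h1 g hg]
    exact (h1 _ (hg.comp (measurable_const_add t))).trans (sm_trans p l g t)
  rw [← h1 g hg, mu_unique p ν]

lemma sum_val (l : ℕ) (h : ℕ → ℝ≥0∞) :
    ∑ w : ZMod (p ^ l), h w.val = ∑ w ∈ Finset.range (p ^ l), h w := by
  have hp : NeZero (p ^ l) := ⟨pow_ne_zero _ (Fact.out : p.Prime).ne_zero⟩
  refine Finset.sum_nbij' (fun w => w.val) (fun n => (n : ZMod (p ^ l))) ?_ ?_ ?_ ?_ ?_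
  · intro w _
    exact Finset.mem_range.2 (ZMod.val_lt w)
  · intro w _
    exact Finset.mem_univ _
  · intro w _
    exact ZMod.natCast_zmod_val w
  · intro w hw
    exact ZMod.val_cast_of_lt (Finset.mem_range.1 hw)
  · intro w _
    rfl

/-- the weights -/
noncomputable def wt (l : ℕ) (d : ℕ × ℕ) : ℝ≥0∞ :=
  if d.2 < p ^ l ∧ ¬ p ∣ d.2 then ((p : ℝ≥0∞)⁻¹) ^ (d.1 + l) else 0

/-- the chart -/
noncomputable def ph (l : ℕ) (d : ℕ × ℕ) (z : ℤ_[p]) : ℤ_[p] :=
  (p : ℤ_[p]) ^ d.1 * ((d.2 : ℤ_[p]) + (p : ℤ_[p]) ^ l * z)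

lemma p_dvd_natCast (w : ℕ) : (p : ℤ_[p]) ∣ (w : ℤ_[p]) ↔ p ∣ w := by
  rw [← PadicInt.norm_lt_one_iff_dvd, ← Int.cast_natCast, PadicInt.norm_int_lt_one_iff_dvd]
  exact Int.natCast_dvd_natCast

lemma one_step (l : ℕ) (hl : 1 ≤ l) (g : ℤ_[p] → ℝ≥0∞) (hg : Measurable g) :
    ∫⁻ z, g z ∂(mu p) = ∑' w : ℕ, wt p l (0, w) * ∫⁻ z, g (ph p l (0, w) z) ∂(mu p) +
      (p : ℝ≥0∞)⁻¹ * ∫⁻ z, g ((p : ℤ_[p]) * z) ∂(mu p) := by
  classical
  set A : Set ℤ_[p] := {z | (p : ℤ_[p]) ∣ z} with hA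
  have hAm : MeasurableSet A := by
    have : A = {z : ℤ_[p] | ‖z‖ < 1} := by
      ext z; exact PadicInt.norm_lt_one_iff_dvd z |>.symm
    rw [this]
    exact (isOpen_lt continuous_norm continuous_const).measurableSet
  rw [← lintegral_add_compl g hAm, add_comm]
  congr 1
  · -- units
    rw [← lintegral_indicator hAm.compl, lintegral_sm p l _ (hg.indicator hAm.compl), sm]
    have h1 : ∀ w : ℕ, ∫⁻ z, Aᶜ.indicator g ((w : ℤ_[p]) + (p : ℤ_[p]) ^ l * z) ∂(mu p) =
        if ¬ p ∣ w then ∫⁻ z, g ((w : ℤ_[p]) + (p : ℤ_[p]) ^ l * z) ∂(mu p) else 0 := by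
      intro w
      have h2 : ∀ z : ℤ_[p], ((w : ℤ_[p]) + (p : ℤ_[p]) ^ l * z) ∈ Aᶜ ↔ ¬ p ∣ w := by
        intro z
        rw [hA, Set.mem_compl_iff, Set.mem_ofPred_eq, ← p_dvd_natCast p w]
        rw [← (Nat.sub_add_cancel hl), pow_succ]
        refine not_congr (dvd_add_left ⟨(p : ℤ_[p]) ^ (l - 1) * z, by ring⟩)
      by_cases h : p ∣ w
      · rw [if_neg (not_not.2 h), lintegral_congr (g := fun _ => 0), lintegral_zero]
        intro z
        exact Set.indicator_of_notMem (fun h' => (h2 z).1 h' h) g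
      · rw [if_pos h]
        refine lintegral_congr fun z => ?_
        exact Set.indicator_of_mem ((h2 z).2 h) g
    simp only [h1]
    rw [sum_val p l (fun w => ((p : ℝ≥0∞)⁻¹) ^ l *
      if ¬ p ∣ w then ∫⁻ z, g ((w : ℤ_[p]) + (p : ℤ_[p]) ^ l * z) ∂(mu p) else 0)]
    symm
    rw [tsum_eq_sum (s := Finset.range (p ^ l))]
    · refine Finset.sum_congr rfl fun w hw => ?_
      simp only [wt, ph, pow_zero, one_mul, zero_add, Finset.mem_range.1 hw, true_and]
      split_ifs <;> simp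
    · intro w hw
      rw [wt, if_neg, zero_mul]
      rintro ⟨h, _⟩
      exact hw (Finset.mem_range.2 h)
  · rw [← lintegral_indicator hAm, lintegral_sm p 1 _ (hg.indicator hAm), sm]
    have h1 : ∀ w : ℕ, ∫⁻ z, A.indicator g ((w : ℤ_[p]) + (p : ℤ_[p]) ^ 1 * z) ∂(mu p) =
        if p ∣ w then ∫⁻ z, g ((w : ℤ_[p]) + (p : ℤ_[p]) ^ 1 * z) ∂(mu p) else 0 := by
      intro w
      have h2 : ∀ z : ℤ_[p], ((w : ℤ_[p]) + (p : ℤ_[p]) ^ 1 * z) ∈ A ↔ p ∣ w := by
        intro z
        rw [hA, Set.mem_ofPred_eq, ← p_dvd_natCast p w, pow_one]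
        exact dvd_add_left ⟨z, by ring⟩
      split_ifs with h
      · refine lintegral_congr fun z => ?_
        exact Set.indicator_of_mem ((h2 z).2 h) g
      · rw [lintegral_congr (g := fun _ => 0), lintegral_zero]
        intro z
        exact Set.indicator_of_notMem (fun h' => h ((h2 z).1 h')) g
    simp only [h1]
    rw [sum_val p 1 (fun w => ((p : ℝ≥0∞)⁻¹) ^ 1 *
      if p ∣ w then ∫⁻ z, g ((w : ℤ_[p]) + (p : ℤ_[p]) ^ 1 * z) ∂(mu p) else 0)]
    rw [Finset.sum_eq_single 0]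
    · simp
    · intro w hw hw0
      rw [if_neg, mul_zero]
      intro h
      rw [pow_one, Finset.mem_range] at hw
      exact absurd (Nat.le_of_dvd (by omega) h) (by omega)
    · intro h
      exact absurd (Finset.mem_range.2 (pow_pos (Fact.out : p.Prime).pos _)) h

lemma meas_ph (l : ℕ) (d : ℕ × ℕ) : Measurable (ph p l d) := by
  refine Continuous.measurable ?_
  exact continuous_const.mul (continuous_const.add (continuous_const.mul continuous_id))

/-- **Decomposition** of the integral over `ℤ_[p]`. -/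
theorem lintegral_dec (l : ℕ) (hl : 1 ≤ l) (g : ℤ_[p] → ℝ≥0∞) (hg : Measurable g)
    (hg1 : ∀ z, g z ≤ 1) :
    ∫⁻ z, g z ∂(mu p) = ∑' d : ℕ × ℕ, wt p l d * ∫⁻ z, g (ph p l d z) ∂(mu p) := by
  have hp2 : 2 ≤ p := (Fact.out : p.Prime).two_le
  rw [ENNReal.tsum_prod (f := fun n w => wt p l (n, w) * ∫⁻ z, g (ph p l (n, w) z) ∂(mu p))]
  set b : ℕ → ℝ≥0∞ := fun n => ∑' w : ℕ, wt p l (n, w) * ∫⁻ z, g (ph p l (n, w) z) ∂(mu p) with hb
  set r : ℕ → ℝ≥0∞ := fun n => ((p : ℝ≥0∞)⁻¹) ^ n * ∫⁻ z, g ((p : ℤ_[p]) ^ n * z) ∂(mu p) with hr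
  have hstep : ∀ n, r n = b n + r (n + 1) := by
    intro n
    have h1 := one_step p l hl (fun z => g ((p : ℤ_[p]) ^ n * z))
      (hg.comp (continuous_const.mul continuous_id).measurable)
    simp only [hr, hb]
    rw [h1, mul_add, ← ENNReal.tsum_mul_left]
    congr 1
    · refine tsum_congr fun w => ?_
      rw [← mul_assoc]
      congr 1
      · simp only [wt, zero_add]
        split_ifs
        · rw [pow_add]
        · simp
      · refine lintegral_congr fun z => ?_
        congr 1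
        simp only [ph]
        ring
    · rw [← mul_assoc, ← pow_succ]
      congr 1
      refine lintegral_congr fun z => ?_
      congr 1
      ring
  have hsum : ∀ n, r 0 = ∑ k ∈ Finset.range n, b k + r n := by
    intro n
    induction n with
    | zero => simp
    | succ n ih => rw [ih, hstep n, Finset.sum_range_succ, add_assoc]
  have hr0 : r 0 = ∫⁻ z, g z ∂(mu p) := by simp [hr]
  have hlim : Filter.Tendsto r Filter.atTop (nhds 0) := by
    refine tendsto_of_tendsto_of_tendsto_of_le_of_le tendsto_const_nhds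
      (ENNReal.tendsto_pow_atTop_nhds_zero_of_lt_one (r := (p : ℝ≥0∞)⁻¹) ?_) (fun _ => zero_le)
      fun n => ?_
    · rw [ENNReal.inv_lt_one]
      exact_mod_cast (Fact.out : p.Prime).one_lt
    · simp only [hr]
      refine mul_le_of_le_one_right' ?_
      calc ∫⁻ z, g ((p : ℤ_[p]) ^ n * z) ∂(mu p) ≤ ∫⁻ _, 1 ∂(mu p) :=
            lintegral_mono fun z => hg1 _
        _ = 1 := by simp
  have hlim2 : Filter.Tendsto (fun n => ∑ k ∈ Finset.range n, b k + r n) Filter.atTop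
      (nhds (∑' n, b n + 0)) := (ENNReal.tendsto_nat_tsum b).add hlim
  rw [add_zero] at hlim2
  have hconst : Filter.Tendsto (fun n => ∑ k ∈ Finset.range n, b k + r n) Filter.atTop
      (nhds (r 0)) := by
    have : (fun n => ∑ k ∈ Finset.range n, b k + r n) = fun _ => r 0 := by
      funext n; exact (hsum n).symm
    rw [this]
    exact tendsto_const_nhds
  rw [← hr0]
  exact tendsto_nhds_unique hconst hlim2

end Pool.Agent.W427.SMC
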