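import Pool.Agent.W427.SMC.Pa1

set_option autoImplicit false
set_option linter.unusedSectionVars false

/-! Decomposition of the integral over `ℤ_[p] ^ V`. -/

namespace Pool.Agent.W427.SMC

open MeasureTheory Set
open scoped ENNReal

variable (p : ℕ) [Fact p.Prime]

attribute [local instance] msZ bsZ

noncomputable def nu (l : ℕ) : Measure (ℕ × ℕ) := Measure.sum fun d => wt p l d • Measure.dirac d

lemma lintegral_nu (l : ℕ) (h : ℕ × ℕ → ℝ≥0∞) :
    ∫⁻ d, h d ∂(nu p l) = ∑' d, wt p l d * h d := by
  rw [nu, lintegral_sum_measure]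
  refine tsum_congr fun d => ?_
  rw [lintegral_smul_measure, lintegral_dirac, smul_eq_mul]

lemma nu_prob (l : ℕ) (hl : 1 ≤ l) : IsProbabilityMeasure (nu p l) := by
  refine ⟨?_⟩
  have h1 := lintegral_nu p l (fun _ => 1)
  have h2 := lintegral_dec p l hl (fun _ => 1) measurable_const (fun _ => le_rfl)
  simp only [lintegral_one, measure_univ] at h1 h2
  rw [h1, ← h2]

lemma nu_singleton (l : ℕ) (d : ℕ × ℕ) : nu p l {d} = wt p l d := by
  have h1 := lintegral_nu p l (({d} : Set (ℕ × ℕ)).indicator 1)
  rw [lintegral_indicator_one (measurableSet_singleton d)] at h1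
  rw [h1, tsum_eq_single d]
  · simp
  · intro d' hd'
    rw [Set.indicator_of_notMem (by simpa using hd')]
    simp

open Classical in
/-- the chart of a coordinate -/
noncomputable def ch (dec : Prop) (l : ℕ) (d : ℕ × ℕ) (z : ℤ_[p]) : ℤ_[p] :=
  if dec then ph p l d z else z

lemma ch_cont (dec : Prop) (l : ℕ) (d : ℕ × ℕ) : Continuous (ch p dec l d) := by
  unfold ch
  split_ifs
  · exact continuous_const.mul (continuous_const.add (continuous_const.mul continuous_id))
  · exact continuous_id

lemma ch_mp (dec : Prop) (l : ℕ) (hl : 1 ≤ l) :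
    MeasurePreserving (fun x : (ℕ × ℕ) × ℤ_[p] => ch p dec l x.1 x.2) ((nu p l).prod (mu p))
      (mu p) := by
  have := nu_prob p l hl
  by_cases hd : dec
  · have hm : Measurable (fun x : (ℕ × ℕ) × ℤ_[p] => ch p dec l x.1 x.2) :=
      measurable_from_prod_countable_right fun d => (ch_cont p dec l d).measurable
    refine ⟨hm, ?_⟩
    refine Measure.ext fun A hA => ?_
    rw [Measure.map_apply hm hA, ← lintegral_indicator_one hA,
      lintegral_dec p l hl _ (measurable_one.indicator hA), ← lintegral_indicator_one (hm hA),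
      lintegral_prod _ ((measurable_one.indicator (hm hA)).aemeasurable), lintegral_nu]
    · refine tsum_congr fun d => ?_
      congr 1
      refine lintegral_congr fun z => ?_
      simp only [ch, if_pos hd]
      rfl
    · intro z
      exact Set.indicator_le_self' (by simp) z |>.trans (by simp)
  · have h1 : (fun x : (ℕ × ℕ) × ℤ_[p] => ch p dec l x.1 x.2) = Prod.snd := by
      funext x; simp [ch, hd]
    rw [h1]
    exact measurePreserving_snd

variable {V : Type} [Fintype V]

/-- **Decomposition** of the integral over `ℤ_[p] ^ V`. -/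
theorem lintegral_decV (lev : V → ℕ) (hlev : ∀ i, 1 ≤ lev i) (dec : V → Prop)
    (G : (V → ℤ_[p]) → ℝ≥0∞) (hG : Measurable G) :
    ∫⁻ z, G z ∂(Measure.pi fun _ : V => mu p) = ∑' d : V → ℕ × ℕ, (∏ i, wt p (lev i) (d i)) *
      ∫⁻ u, G (fun i => ch p (dec i) (lev i) (d i) (u i)) ∂(Measure.pi fun _ : V => mu p) := by
  have := fun i => nu_prob p (lev i) (hlev i)
  have h1 := measurePreserving_pi (fun i : V => (nu p (lev i)).prod (mu p)) (fun _ => mu p)
    (fun i => ch_mp p (dec i) (lev i) (hlev i))
  have h2 := (measurePreserving_arrowProdEquivProdArrow (ℕ × ℕ) ℤ_[p] V (fun i => nu p (lev i))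
    (fun _ => mu p)).symm
  have h3 := h2.lintegral_comp (hG.comp h1.measurable)
  have h4 := h1.lintegral_comp hG
  rw [← h4]
  refine h3.symm.trans ?_
  refine (lintegral_prod _ ((hG.comp h1.measurable).comp h2.measurable).aemeasurable).trans ?_
  rw [lintegral_countable']
  refine tsum_congr fun d => ?_
  rw [Measure.pi_singleton, mul_comm]
  simp only [nu_singleton]
  rfl

/-- averaging over one coordinate -/
lemma lintegral_avg [DecidableEq V] (G : (V → ℤ_[p]) → ℝ≥0∞) (hG : Measurable G) (i : V) :
    ∫⁻ z, G z ∂(Measure.pi fun _ : V => mu p) =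
      ∫⁻ z, ∫⁻ t, G (Function.update z i t) ∂(mu p) ∂(Measure.pi fun _ : V => mu p) := by
  have h1 : Measurable (fun z => ∫⁻ t, G (Function.update z i t) ∂(mu p)) := by
    have := hG.lmarginal (fun _ : V => mu p) (s := {i})
    rwa [lmarginal_singleton] at this
  refine lintegral_eq_of_lmarginal_eq (μ := fun _ : V => mu p) {i} hG h1 ?_
  rw [lmarginal_singleton, lmarginal_singleton]
  funext z
  simp only [Function.update_idem]
  simp

lemma lintegral_prod_avg [DecidableEq V] {κ : Type} [DecidableEq κ] (js : κ → V)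
    (H : κ → (V → ℤ_[p]) → ℝ≥0∞) (hH : ∀ k, Measurable (H k)) (h : κ → ℝ≥0∞)
    (h1 : ∀ k k', k' ≠ k → ∀ z t, H k (Function.update z (js k') t) = H k z)
    (h2 : ∀ k z, ∫⁻ t, H k (Function.update z (js k) t) ∂(mu p) = h k) (K : Finset κ) :
    ∫⁻ z, ∏ k ∈ K, H k z ∂(Measure.pi fun _ : V => mu p) = ∏ k ∈ K, h k := by
  induction K using Finset.induction_on with
  | empty => simp
  | insert k0 K hk0 ih =>
    rw [lintegral_avg p _ (Finset.measurable_prod _ fun k _ => hH k) (js k0),
      Finset.prod_insert hk0, ← ih, ← lintegral_const_mul _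
        (Finset.measurable_prod _ fun k _ => hH k)]
    refine lintegral_congr fun z => ?_
    rw [← h2 k0 z]
    have h3 : ∀ t, ∏ k ∈ insert k0 K, H k (Function.update z (js k0) t) =
        H k0 (Function.update z (js k0) t) * ∏ k ∈ K, H k z := by
      intro t
      rw [Finset.prod_insert hk0]
      congr 1
      refine Finset.prod_congr rfl fun k hk => ?_
      exact h1 k k0 (fun h => hk0 (h ▸ hk)) z t
    simp only [h3]
    exact lintegral_mul_const _ ((hH k0).comp (measurable_update z))

end Pool.Agent.W427.SMC
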