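import Pool.Agent.W427.SMC.Pa2

set_option autoImplicit false
set_option linter.unusedSectionVars false

/-! Integrals of norms of isometries of `ℤ_[p]`. -/

namespace Pool.Agent.W427.SMC

open MeasureTheory Set
open scoped ENNReal

lemma isom_surj {K : Type} [MetricSpace K] [CompactSpace K] (ψ : K → K) (hψ : Isometry ψ) :
    Function.Surjective ψ := by
  intro y
  by_contra hy
  have hcl : IsClosed (Set.range ψ) := (isCompact_range hψ.continuous).isClosed
  obtain ⟨ε, hε, hb⟩ := Metric.isOpen_iff.1 hcl.isOpen_compl y hy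
  have h1 : ∀ x, ε ≤ dist (ψ x) y := by
    intro x
    by_contra h
    push Not at h
    exact hb (Metric.mem_ball.2 h) ⟨x, rfl⟩
  have hit : ∀ n : ℕ, Isometry (ψ^[n]) := by
    intro n
    induction n with
    | zero => exact isometry_id
    | succ n ih => rw [Function.iterate_succ]; exact ih.comp hψ
  have h2 : ∀ n k : ℕ, ε ≤ dist (ψ^[n + (k + 1)] y) (ψ^[n] y) := by
    intro n k
    rw [Function.iterate_add_apply, (hit n).dist_eq, Function.iterate_succ_apply']
    exact h1 _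
  obtain ⟨a, φ, hφ, hlim⟩ := CompactSpace.tendsto_subseq (fun n => ψ^[n] y)
  have hc := hlim.cauchySeq
  rw [Metric.cauchySeq_iff'] at hc
  obtain ⟨N, hN⟩ := hc ε hε
  have h3 := hN (N + 1) (by omega)
  have h4 : φ N < φ (N + 1) := hφ (by omega)
  obtain ⟨k, hk⟩ : ∃ k, φ (N + 1) = φ N + (k + 1) := ⟨φ (N+1) - φ N - 1, by omega⟩
  have h5 := h2 (φ N) k
  simp only [Function.comp_apply] at h3
  rw [hk] at h3
  linarith

variable (p : ℕ) [Fact p.Prime]

attribute [local instance] msZ bsZ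

/-- `|z| ^ s` -/
noncomputable def tau (s : ℝ) (z : ℤ_[p]) : ℝ≥0∞ := ENNReal.ofReal (‖z‖ ^ s)

/-- `p ^ (-s)` -/
noncomputable def Tt (s : ℝ) : ℝ≥0∞ := ENNReal.ofReal ((p : ℝ) ^ (-s))

lemma tau_mul (s : ℝ) (x y : ℤ_[p]) : tau p s (x * y) = tau p s x * tau p s y := by
  unfold tau
  rw [norm_mul, Real.mul_rpow (norm_nonneg _) (norm_nonneg _), ENNReal.ofReal_mul]
  exact Real.rpow_nonneg (norm_nonneg _) _

lemma tau_one (s : ℝ) : tau p s 1 = 1 := by
  unfold tau
  rw [norm_one, Real.one_rpow, ENNReal.ofReal_one]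

lemma tau_pow (s : ℝ) (x : ℤ_[p]) (n : ℕ) : tau p s (x ^ n) = tau p s x ^ n := by
  induction n with
  | zero => simp [tau_one]
  | succ n ih => rw [pow_succ, pow_succ, tau_mul, ih]

lemma tau_prod (s : ℝ) {ι : Type} (S : Finset ι) (x : ι → ℤ_[p]) :
    tau p s (∏ i ∈ S, x i) = ∏ i ∈ S, tau p s (x i) := by
  classical
  induction S using Finset.induction_on with
  | empty => simp [tau_one]
  | insert a S ha ih => rw [Finset.prod_insert ha, Finset.prod_insert ha, tau_mul, ih]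

lemma tau_p (s : ℝ) : tau p s (p : ℤ_[p]) = Tt p s := by
  unfold tau Tt
  rw [PadicInt.norm_p, Real.inv_rpow (Nat.cast_nonneg _), Real.rpow_neg (Nat.cast_nonneg _)]

lemma tau_norm (s : ℝ) (x y : ℤ_[p]) (h : ‖x‖ = ‖y‖) : tau p s x = tau p s y := by
  unfold tau; rw [h]

lemma tau_unit (s : ℝ) (x : ℤ_[p]) (h : ‖x‖ = 1) : tau p s x = 1 := by
  rw [tau_norm p s x 1 (by rw [h, norm_one]), tau_one]

lemma tau_meas (s : ℝ) : Measurable (tau p s) := by
  unfold tau
  exact ENNReal.measurable_ofReal.comp (continuous_norm.measurable.pow_const s)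

lemma norm_mul_dvd (M : ℕ) (x : ℤ_[p]) (h : ‖x‖ ≤ ‖(p : ℤ_[p]) ^ M‖) :
    ∃ y, x = (p : ℤ_[p]) ^ M * y := by
  have h1 : x ∈ (Ideal.span {(p : ℤ_[p]) ^ M} : Ideal ℤ_[p]) := by
    rw [← PadicInt.norm_le_pow_iff_mem_span_pow]
    rwa [PadicInt.norm_p_pow] at h
  rwa [Ideal.mem_span_singleton] at h1

lemma norm_eq_of_sub_lt (x y : ℤ_[p]) (h : ‖x - y‖ < ‖y‖) : ‖x‖ = ‖y‖ := by
  have h1 : x = (x - y) + y := by ring
  have h2 : ‖(x - y) + y‖ = max ‖x - y‖ ‖y‖ := PadicInt.norm_add_eq_max_of_ne h.ne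
  rw [← h1, max_eq_right h.le] at h2
  exact h2

/-- The integral of `|F| ^ s` for a scaled isometry `F`. -/
theorem isom_int (s : ℝ) (F : ℤ_[p] → ℤ_[p]) (M : ℕ)
    (hF : ∀ t t', ‖F t - F t'‖ = ‖(p : ℤ_[p]) ^ M‖ * ‖t - t'‖) (A : ℤ_[p])
    (hA : ∀ t, ‖F t - A‖ ≤ ‖(p : ℤ_[p]) ^ M‖) :
    ∫⁻ t, tau p s (F t) ∂(mu p) = if ‖(p : ℤ_[p]) ^ M‖ < ‖A‖ then tau p s A else
      Tt p s ^ M * ∫⁻ z, tau p s z ∂(mu p) := by
  have hp0 : (p : ℤ_[p]) ^ M ≠ 0 := pow_ne_zero _ (by exact_mod_cast (Fact.out : p.Prime).ne_zero)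
  split_ifs with h
  · have h1 : ∀ t, tau p s (F t) = tau p s A := fun t =>
      tau_norm p s _ _ (norm_eq_of_sub_lt p _ _ ((hA t).trans_lt h))
    simp [h1]
  · push Not at h
    have h1 : ∀ t, ∃ y, F t = (p : ℤ_[p]) ^ M * y := by
      intro t
      refine norm_mul_dvd p M _ ?_
      have h2 : F t = (F t - A) + A := by ring
      rw [h2]
      exact (PadicInt.nonarchimedean _ _).trans (max_le (hA t) h)
    choose ψ hψ using h1
    have hiso : Isometry ψ := by
      refine Isometry.of_dist_eq fun t t' => ?_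
      rw [dist_eq_norm, dist_eq_norm]
      have h3 := hF t t'
      rw [hψ t, hψ t', ← mul_sub, norm_mul] at h3
      exact mul_left_cancel₀ (norm_ne_zero_iff.2 hp0) h3
    obtain ⟨t0, ht0⟩ := isom_surj ψ hiso 0
    have h4 : ∀ t, tau p s (F t) = Tt p s ^ M * tau p s (t - t0) := by
      intro t
      rw [← tau_p, ← tau_pow, ← tau_mul]
      refine tau_norm p s _ _ ?_
      have h5 := hF t t0
      rw [hψ t0, ht0, mul_zero, sub_zero] at h5
      rw [h5, norm_mul]
    simp only [h4]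
    refine (lintegral_const_mul _ ((tau_meas p s).comp (measurable_sub_const t0))).trans ?_
    congr 1
    exact lintegral_sub_right_eq_self (μ := mu p) (tau p s) t0

lemma tau_le_one (s : ℝ) (hs : 0 ≤ s) (z : ℤ_[p]) : tau p s z ≤ 1 := by
  unfold tau
  rw [ENNReal.ofReal_le_one]
  exact Real.rpow_le_one (norm_nonneg _) (PadicInt.norm_le_one z) hs

lemma tau_nat (s : ℝ) (N : ℕ) (z : ℤ_[p]) : tau p (N * s) z = tau p s z ^ N := by
  unfold tau
  rw [mul_comm, Real.rpow_mul (norm_nonneg _), Real.rpow_natCast, ENNReal.ofReal_pow]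
  exact Real.rpow_nonneg (norm_nonneg _) _

lemma Tt_nat (s : ℝ) (N : ℕ) : Tt p (N * s) = Tt p s ^ N := by
  rw [← tau_p, ← tau_p, tau_nat]

/-- the integral of `|z| ^ s` -/
noncomputable def phi (s : ℝ) : ℝ≥0∞ := ∫⁻ z, tau p s z ∂(mu p)

lemma phi_le (s : ℝ) (hs : 0 ≤ s) : phi p s ≤ 1 := by
  refine (lintegral_mono (g := fun _ => (1 : ℝ≥0∞)) fun z => tau_le_one p s hs z).trans ?_
  simp

lemma phi_eq (s : ℝ) (hs : 0 ≤ s) :
    ((p : ℝ) - (p : ℝ) ^ (-s)) * (phi p s).toReal = (p : ℝ) - 1 := by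
  have hp : (0 : ℝ) < p := by exact_mod_cast (Fact.out : p.Prime).pos
  have h1 := one_step p 1 le_rfl (tau p s) (tau_meas p s)
  have h2 := one_step p 1 le_rfl (fun _ => 1) measurable_const
  have h3 : ∀ w, wt p 1 (0, w) * ∫⁻ z, tau p s (ph p 1 (0, w) z) ∂(mu p) = wt p 1 (0, w) := by
    intro w
    unfold wt
    split_ifs with h
    · have : ∀ z, tau p s (ph p 1 (0, w) z) = 1 := by
        intro z
        refine tau_unit p s _ ?_
        simp only [ph, pow_zero, one_mul, pow_one]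
        have h4 : ¬ (p : ℤ_[p]) ∣ ((w : ℤ_[p]) + (p : ℤ_[p]) * z) := by
          rw [dvd_add_left (dvd_mul_right _ _), p_dvd_natCast]
          exact h.2
        rw [← PadicInt.norm_lt_one_iff_dvd, not_lt] at h4
        exact le_antisymm (PadicInt.norm_le_one _) h4
      simp [this]
    · simp
  have h5 : ∀ z, tau p s ((p : ℤ_[p]) * z) = Tt p s * tau p s z := by
    intro z; rw [tau_mul, tau_p]
  simp only [h3, h5] at h1
  rw [lintegral_const_mul _ (tau_meas p s)] at h1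
  change phi p s = _ + _ * (_ * phi p s) at h1
  simp only [lintegral_const, measure_univ, mul_one] at h2
  set W := ∑' w, wt p 1 (0, w) with hW
  have hWt : W ≠ ⊤ := by
    intro h
    rw [h] at h2
    simp at h2
  have hpt : ((p : ℝ≥0∞)⁻¹) ≠ ⊤ := by
    rw [Ne, ENNReal.inv_eq_top]
    exact_mod_cast (Fact.out : p.Prime).ne_zero
  have hφt : phi p s ≠ ⊤ := ((phi_le p s hs).trans_lt ENNReal.one_lt_top).ne
  have hTt : Tt p s ≠ ⊤ := ENNReal.ofReal_ne_top
  have h6 := congrArg ENNReal.toReal h1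
  have h7 := congrArg ENNReal.toReal h2
  rw [ENNReal.toReal_add hWt (ENNReal.mul_ne_top hpt (ENNReal.mul_ne_top hTt hφt)),
    ENNReal.toReal_mul, ENNReal.toReal_mul, ENNReal.toReal_inv, ENNReal.toReal_natCast] at h6
  rw [ENNReal.toReal_add hWt hpt, ENNReal.toReal_inv, ENNReal.toReal_natCast,
    ENNReal.toReal_one] at h7
  have h8 : (Tt p s).toReal = (p : ℝ) ^ (-s) :=
    ENNReal.toReal_ofReal (Real.rpow_nonneg hp.le _)
  rw [h8] at h6
  field_simp at h6 h7
  linarith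

end Pool.Agent.W427.SMC
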