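import Pool.Agent.W427.SMC.Rel

set_option autoImplicit false
set_option linter.unusedSectionVars false

/-! From the numerical relation to the polynomial relation. -/

namespace Pool.Agent.W427.SMC

open MvPolynomial Pool.Agent.H628R4.TP

variable {ι κ : Type} [Fintype ι] [DecidableEq ι] [Fintype κ] [DecidableEq κ] {Jk : κ → Type}
  [∀ k, Fintype (Jk k)] [∀ k, DecidableEq (Jk k)]
  (a : ι → ℕ) (Nk : κ → ℕ) (c : (k : κ) → Jk k → ℂ) (m : (k : κ) → Jk k → ℕ)
  (v : (k : κ) → Jk k → ι → ℕ)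

lemma fib_sum {R : Type} [AddCommMonoid R] (α : (Σ k, Jk k) → R) (k : κ) :
    ∑ p ∈ Finset.univ.filter (fun p : Σ k, Jk k => p.1 = k), α p = ∑ j, α ⟨k, j⟩ := by
  rw [Finset.sum_filter, Fintype.sum_sigma, Finset.sum_eq_single k]
  · simp
  · intro k' _ hk'
    simp [hk']
  · simp

/-- the matrix of the exponents of the relevant divisors -/
def EE (p : Σ k, Jk k) : (ι ⊕ (Σ k, Jk k)) → ℕ
  | Sum.inl i => v p.1 p.2 i
  | Sum.inr p' => if p' = p ∧ 2 ≤ m p.1 p.2 then m p.1 p.2 else 0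

def aa : (ι ⊕ (Σ k, Jk k)) → ℕ := Sum.elim a (fun _ => 0)

/-- the factor coming from the reduced divisors -/
noncomputable def Cpoly : Polynomial ℂ :=
  ∏ k, ∏ u ∈ Finset.range (Nk k), (Polynomial.C (Nk k : ℂ) * Polynomial.X + Polynomial.C ((u : ℂ) + 1))

noncomputable def zp (i : ι) : MvPolynomial (Option (Σ k, Jk k)) ℂ :=
  ∑ p : Σ k, Jk k, (v p.1 p.2 i : MvPolynomial (Option (Σ k, Jk k)) ℂ) * X (some p) +
    (a i : MvPolynomial (Option (Σ k, Jk k)) ℂ) * X none

noncomputable def Dsc (e : (k : κ) → Jk k → ℤ) (i : ι) : MvPolynomial (Option (Σ k, Jk k)) ℂ :=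
  ∏ u ∈ Finset.range (Sh a m v e (Sum.inl i)).toNat, (zp a v i + ((u + 1 : ℕ) : MvPolynomial _ ℂ))

noncomputable def exq : (ι ⊕ (Σ k, Jk k)) → MvPolynomial (Option (Σ k, Jk k)) ℂ :=
  Sum.elim (zp a v) (fun p => (m p.1 p.2 : MvPolynomial (Option (Σ k, Jk k)) ℂ) * X (some p))

noncomputable def Gp (M : Finset ℕ)
    (q : ℕ → ((k : κ) → Jk k → ℤ) → MvPolynomial (ι ⊕ (Σ k, Jk k)) ℂ)
    (e : (k : κ) → Jk k → ℤ) : MvPolynomial (Option (Σ k, Jk k)) ℂ :=
  C (∏ k, ∏ j, c k j ^ e k j) *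
    (∏ p : Σ k, Jk k, Polynomial.aeval (X (some p) : MvPolynomial (Option (Σ k, Jk k)) ℂ)
      (Ap (m p.1 p.2) (e p.1 p.2))) *
    (∏ i, Dsc a m v e i) *
    ∑ mm ∈ M, X none ^ mm * aeval (fun x => exq a m v x + C ((Sh a m v e x : ℤ) : ℂ)) (q mm e)

lemma eval_zp (n : ℕ) (α : (k : κ) → Jk k → ℕ) (i : ι) :
    eval (pt n α) (zp a v i) = ((Ex a m v n α (Sum.inl i) : ℕ) : ℂ) := by
  simp only [zp, Ex, Finsupp.equivFunOnFinite_symm_apply_apply, Sum.elim_inl, map_add, map_sum,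
    map_mul, map_natCast, eval_X, pt, Option.elim_some, Option.elim_none]
  rw [Fintype.sum_sigma]
  push_cast
  congr 1
  exact Finset.sum_congr rfl fun k _ => Finset.sum_congr rfl fun j _ => mul_comm _ _

lemma eval_exq (n : ℕ) (α : (k : κ) → Jk k → ℕ) (x : ι ⊕ (Σ k, Jk k)) :
    eval (pt n α) (exq a m v x) = ((Ex a m v n α x : ℕ) : ℂ) := by
  rcases x with i | p
  · exact eval_zp a m v n α i
  · simp only [exq, Ex, Finsupp.equivFunOnFinite_symm_apply_apply, Sum.elim_inr,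
      map_mul, map_natCast, eval_X, pt, Option.elim_some]
    push_cast
    ring

lemma eval_Ap_zero (m : ℕ) (e : ℤ) (x : ℕ) (h : ¬ 0 ≤ (x : ℤ) + e) :
    (Ap m e).eval (x : ℂ) = 0 := by
  have he : e < 0 := by omega
  rw [Ap, if_pos he, descPochhammer_eval_eq_descFactorial]
  rw [Nat.descFactorial_of_lt (by omega)]
  simp

lemma eval_Gp (M : Finset ℕ)
    (q : ℕ → ((k : κ) → Jk k → ℤ) → MvPolynomial (ι ⊕ (Σ k, Jk k)) ℂ)
    (e : (k : κ) → Jk k → ℤ) (n : ℕ) (α : (k : κ) → Jk k → ℕ) :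
    eval (pt n α) (Gp a c m v M q e) =
      if ∀ k j, 0 ≤ (α k j : ℤ) + e k j then
          (∏ k, ∏ j, c k j ^ e k j) * (∏ k, ∏ j, (Ap (m k j) (e k j)).eval (α k j : ℂ)) *
          (∏ i, (((Ex a m v n α (Sum.inl i) : ℕ) + Sh a m v e (Sum.inl i)).toNat.descFactorial
            (Sh a m v e (Sum.inl i)).toNat : ℂ)) *
          ∑ mm ∈ M, (n : ℂ) ^ mm *
            eval (fun x => ((Ex a m v n α x : ℕ) : ℂ) + ((Sh a m v e x : ℤ) : ℂ)) (q mm e)
          else 0 := by
  have h6 : ∀ (z : Option (Σ k, Jk k) → ℂ) (G : MvPolynomial (Option (Σ k, Jk k)) ℂ),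
      eval z G = aeval z G := fun z G => by rw [← coe_aeval_eq_eval]; rfl
  have h7 : ∀ (z : ι ⊕ (Σ k, Jk k) → ℂ) (G : MvPolynomial (ι ⊕ (Σ k, Jk k)) ℂ),
      eval z G = aeval z G := fun z G => by rw [← coe_aeval_eq_eval]; rfl
  have h1 : eval (pt n α) (∏ p : Σ k, Jk k,
      Polynomial.aeval (X (some p) : MvPolynomial (Option (Σ k, Jk k)) ℂ)
      (Ap (m p.1 p.2) (e p.1 p.2))) = ∏ k, ∏ j, (Ap (m k j) (e k j)).eval (α k j : ℂ) := by
    rw [map_prod, Fintype.prod_sigma]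
    refine Finset.prod_congr rfl fun k _ => Finset.prod_congr rfl fun j _ => ?_
    rw [h6, ← Polynomial.aeval_algHom_apply, aeval_X]
    simp [pt, Polynomial.aeval_def, Polynomial.eval₂_eq_eval_map]
  split_ifs with hpos
  · rw [Gp, map_mul, map_mul, map_mul, eval_C, h1]
    congr 1
    · congr 1
      rw [map_prod]
      refine Finset.prod_congr rfl fun i _ => ?_
      rw [Dsc, map_prod]
      set Z := Ex a m v n α (Sum.inl i) with hZ
      have h2 : ∀ u : ℕ, eval (pt n α) (zp a v i + ((u + 1 : ℕ) : MvPolynomial _ ℂ)) =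
          ((Z + 1 + u : ℕ) : ℂ) := by
        intro u
        rw [map_add, eval_zp a m v, map_natCast]
        push_cast
        ring
      simp only [h2]
      rw [← Nat.cast_prod, ← Nat.ascFactorial_eq_prod_range]
      rcases le_or_gt (Sh a m v e (Sum.inl i)) 0 with h | h
      · rw [Int.toNat_of_nonpos h]
        simp
      · obtain ⟨t, ht⟩ := Int.eq_ofNat_of_zero_le h.le
        have h3 : ((Z : ℤ) + Sh a m v e (Sum.inl i)).toNat = Z + t := by omega
        have h4 : (Sh a m v e (Sum.inl i)).toNat = t := by omega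
        rw [h3, h4, Nat.add_descFactorial_eq_ascFactorial]
    · rw [map_sum]
      refine Finset.sum_congr rfl fun mm _ => ?_
      rw [map_mul, map_pow, eval_X, h6 _ (aeval _ _), ← AlgHom.comp_apply, comp_aeval, h7]
      have h8 : (fun i => aeval (pt n α) (exq a m v i + C ((Sh a m v e i : ℤ) : ℂ))) =
          fun x => ((Ex a m v n α x : ℕ) : ℂ) + ((Sh a m v e x : ℤ) : ℂ) := by
        funext x
        rw [← h6, map_add, eval_exq, eval_C]
      rw [h8]
      rfl
  · push Not at hpos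
    obtain ⟨k, j, hkj⟩ := hpos
    have h2 : ∏ k, ∏ j, (Ap (m k j) (e k j)).eval (α k j : ℂ) = 0 := by
      refine Finset.prod_eq_zero (Finset.mem_univ k) (Finset.prod_eq_zero (Finset.mem_univ j) ?_)
      exact eval_Ap_zero _ _ _ (not_le.2 hkj)
    rw [Gp, map_mul, map_mul, map_mul, h1, h2]
    simp

/-- the linear forms -/
noncomputable def Li (i : ι ⊕ (Σ k, Jk k)) : MvPolynomial (Option (Σ k, Jk k)) ℂ :=
  ∑ p, (EE m v p i : MvPolynomial (Option (Σ k, Jk k)) ℂ) * X (some p) +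
    (aa a i : MvPolynomial (Option (Σ k, Jk k)) ℂ) * X none + 1

lemma Lz_inl (e : (k : κ) → Jk k → ℤ) (i : ι) :
    Lz (EE m v) (aa a) (fun p => e p.1 p.2) (Sum.inl i) = Sh a m v e (Sum.inl i) := by
  simp only [Lz, EE, aa, Sh, Sum.elim_inl]
  rw [Fintype.sum_sigma]
  congr 1
  exact Finset.sum_congr rfl fun k _ => Finset.sum_congr rfl fun j _ => mul_comm _ _

lemma Lz_inr (e : (k : κ) → Jk k → ℤ) (p' : Σ k, Jk k) :
    Lz (EE m v) (aa a) (fun p => e p.1 p.2) (Sum.inr p') =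
      if 2 ≤ m p'.1 p'.2 then (m p'.1 p'.2 : ℤ) * e p'.1 p'.2 else 0 := by
  simp only [Lz, EE, aa, Sum.elim_inr]
  rw [Finset.sum_eq_single p']
  · split_ifs with h1 h2 h2
    · simp
    · exact absurd h1.2 h2
    · exact absurd ⟨rfl, h2⟩ h1
    · simp
  · intro p _ hp
    rw [if_neg (fun h => hp h.1.symm)]
    simp
  · simp

lemma Li_inr (p' : Σ k, Jk k) (h : 2 ≤ m p'.1 p'.2) :
    Li a m v (Sum.inr p') = (m p'.1 p'.2 : MvPolynomial (Option (Σ k, Jk k)) ℂ) * X (some p') + 1 := by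
  simp only [Li, EE, aa, Sum.elim_inr]
  rw [Finset.sum_eq_single p']
  · rw [if_pos ⟨rfl, h⟩]
    simp
  · intro p _ hp
    rw [if_neg (fun h => hp h.1.symm)]
    simp
  · simp

lemma X_dvd_desc (n : ℕ) (hn : 0 < n) : (Polynomial.X : Polynomial ℂ) ∣ descPochhammer ℂ n := by
  obtain ⟨k, rfl⟩ : ∃ k, n = k + 1 := ⟨n - 1, by omega⟩
  rw [descPochhammer_succ_left]
  exact dvd_mul_right _ _

lemma X_dvd_Ap (m : ℕ) (e : ℤ) (he : e < 0) : (Polynomial.X : Polynomial ℂ) ∣ Ap m e := by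
  rw [Ap, if_pos he]
  exact X_dvd_desc _ (by omega)

lemma lin_dvd_Ap (m : ℕ) (hm : 2 ≤ m) (e : ℤ) (he : 0 < e) :
    (Polynomial.C (m : ℂ) * Polynomial.X + 1 : Polynomial ℂ) ∣ Ap m e := by
  rw [Ap, if_neg (by omega)]
  refine Dvd.dvd.mul_left ?_ _
  have h0 : (0 : ℕ) ∈ (Finset.range (m * e.toNat)).filter (fun u => ¬ m ∣ u + 1) := by
    rw [Finset.mem_filter, Finset.mem_range]
    refine ⟨Nat.mul_pos (by omega) (by omega), ?_⟩
    intro h
    have := Nat.le_of_dvd (by norm_num) h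
    omega
  have := Finset.dvd_prod_of_mem
    (fun u : ℕ => (Polynomial.C (m : ℂ) * Polynomial.X + Polynomial.C ((u : ℂ) + 1))) h0
  simpa using this

lemma Gp_dvd (M : Finset ℕ)
    (q : ℕ → ((k : κ) → Jk k → ℤ) → MvPolynomial (ι ⊕ (Σ k, Jk k)) ℂ)
    (e : (k : κ) → Jk k → ℤ) :
    (∏ i ∈ Finset.univ.filter (fun i => 0 < Lz (EE m v) (aa a) (fun p => e p.1 p.2) i),
        Li a m v i) *
      ∏ p ∈ Finset.univ.filter (fun p : Σ k, Jk k => e p.1 p.2 < 0), X (some p) ∣
      Gp a c m v M q e := by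
  have h1 : (∏ i ∈ Finset.univ.filter (fun i => 0 < Lz (EE m v) (aa a) (fun p => e p.1 p.2) i),
        Li a m v i) *
      ∏ p ∈ Finset.univ.filter (fun p : Σ k, Jk k => e p.1 p.2 < 0), X (some p) =
      (∏ i : ι, if 0 < Sh a m v e (Sum.inl i) then Li a m v (Sum.inl i) else 1) *
      ∏ p : Σ k, Jk k, ((if 0 < Lz (EE m v) (aa a) (fun p => e p.1 p.2) (Sum.inr p) then
        Li a m v (Sum.inr p) else 1) * if e p.1 p.2 < 0 then X (some p) else 1) := by
    rw [Finset.prod_filter, Finset.prod_filter, Fintype.prod_sum_type, mul_assoc,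
      ← Finset.prod_mul_distrib]
    congr 1
    refine Finset.prod_congr rfl fun i _ => ?_
    rw [Lz_inl]
  rw [h1]
  have h2 : (∏ i : ι, if 0 < Sh a m v e (Sum.inl i) then Li a m v (Sum.inl i) else 1) ∣
      ∏ i, Dsc a m v e i := by
    refine Finset.prod_dvd_prod_of_dvd _ _ fun i _ => ?_
    split_ifs with h
    · have h0 : (0 : ℕ) ∈ Finset.range (Sh a m v e (Sum.inl i)).toNat := by
        rw [Finset.mem_range]; omega
      have := Finset.dvd_prod_of_mem (fun u : ℕ => zp a v i +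
        ((u + 1 : ℕ) : MvPolynomial (Option (Σ k, Jk k)) ℂ)) h0
      have h3 : Li a m v (Sum.inl i) = zp a v i +
        ((0 + 1 : ℕ) : MvPolynomial (Option (Σ k, Jk k)) ℂ) := by
        simp [Li, zp, EE, aa]
      rw [h3]
      exact this
    · exact one_dvd _
  have h3 : (∏ p : Σ k, Jk k, ((if 0 < Lz (EE m v) (aa a) (fun p => e p.1 p.2) (Sum.inr p) then
        Li a m v (Sum.inr p) else 1) * if e p.1 p.2 < 0 then X (some p) else 1)) ∣
      ∏ p : Σ k, Jk k, Polynomial.aeval (X (some p) : MvPolynomial (Option (Σ k, Jk k)) ℂ)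
      (Ap (m p.1 p.2) (e p.1 p.2)) := by
    refine Finset.prod_dvd_prod_of_dvd _ _ fun p _ => ?_
    rw [Lz_inr]
    rcases lt_trichotomy (e p.1 p.2) 0 with h | h | h
    · rw [if_pos h, if_neg, one_mul]
      · have := map_dvd (Polynomial.aeval (X (some p) : MvPolynomial (Option (Σ k, Jk k)) ℂ))
          (X_dvd_Ap (m p.1 p.2) _ h)
        rwa [Polynomial.aeval_X] at this
      · split_ifs with h2
        · have : (0 : ℤ) < m p.1 p.2 := by exact_mod_cast (by omega : 0 < m p.1 p.2)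
          nlinarith
        · simp
    · rw [h]
      simp
    · rw [if_neg (c := e p.1 p.2 < 0) (by omega), mul_one]
      by_cases h2 : 2 ≤ m p.1 p.2
      · rw [if_pos h2]
        split_ifs with h4
        · have := map_dvd (Polynomial.aeval (X (some p) : MvPolynomial (Option (Σ k, Jk k)) ℂ))
            (lin_dvd_Ap (m p.1 p.2) h2 _ h)
          rw [Li_inr a m v p h2]
          simpa using this
        · exact one_dvd _
      · rw [if_neg h2, if_neg (lt_irrefl _)]
        exact one_dvd _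
  have h4 := mul_dvd_mul h2 h3
  rw [Gp]
  refine h4.trans ?_
  exact ⟨C (∏ k, ∏ j, c k j ^ e k j) * ∑ mm ∈ M, X none ^ mm *
    aeval (fun x => exq a m v x + C ((Sh a m v e x : ℤ) : ℂ)) (q mm e), by ring⟩

/-- **The polynomial relation.** -/
theorem rel_ok (hm : ∀ k j, 0 < m k j) (hc : ∀ k j, c k j ≠ 0) (hN : ∀ k, 0 < Nk k)
    (sp : (k : κ) → Jk k) (b : Polynomial ℂ) (hb : IsBFunction (pol a Nk c m v) b) :
    ∃ (b' : Polynomial ℂ) (S : Finset ((Σ k, Jk k) → ℤ)), b = Cpoly Nk * b' ∧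
      (∀ e ∈ S, ∀ k, ∑ p ∈ Finset.univ.filter (fun p : Σ k, Jk k => p.1 = k), e p =
        (Nk k : ℤ)) ∧
      RelOK (fun p : Σ k, Jk k => p.1) Nk (EE m v) (aa a) b' S := by
  classical
  obtain ⟨S, M, q, hS, hrel⟩ := num_rel a Nk c m v hm hc b hb
  set G : MvPolynomial (Option (Σ k, Jk k)) ℂ := ∑ e ∈ S, Gp a c m v M q e with hG
  have h1 : aeval (th Nk sp) (Polynomial.aeval (X none : MvPolynomial (Option (Σ k, Jk k)) ℂ) b -
      Polynomial.aeval (X none : MvPolynomial (Option (Σ k, Jk k)) ℂ) (Cpoly Nk) * G) = 0 := by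
    refine th_zero Nk sp hN _ fun n α hα => ?_
    have h6 : ∀ (z : Option (Σ k, Jk k) → ℂ) (G : MvPolynomial (Option (Σ k, Jk k)) ℂ),
      eval z G = aeval z G := fun z G => by rw [← coe_aeval_eq_eval]; rfl
    have h7 : ∀ P : Polynomial ℂ, eval (pt n α)
        (Polynomial.aeval (X none : MvPolynomial (Option (Σ k, Jk k)) ℂ) P) = P.eval (n : ℂ) := by
      intro P
      rw [h6, ← Polynomial.aeval_algHom_apply, aeval_X]
      simp [pt, Polynomial.aeval_def, Polynomial.eval₂_eq_eval_map]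
    rw [map_sub, map_mul, h7, h7, sub_eq_zero, hrel n α hα, hG, map_sum]
    congr 1
    · rw [Cpoly, Polynomial.eval_prod]
      refine Finset.prod_congr rfl fun k _ => ?_
      rw [Polynomial.eval_prod]
      refine Finset.prod_congr rfl fun u _ => ?_
      simp [add_assoc]
    · exact Finset.sum_congr rfl fun e _ => (eval_Gp a c m v M q e n α).symm
  have hσ : aeval (fun o : Option (Σ k, Jk k) => Option.elim o (Polynomial.X : Polynomial ℂ)
      (fun _ => 0)) (sg sp) = Polynomial.X := by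
    simp [sg]
  have hal : ∀ P : Polynomial ℂ, aeval (th Nk sp)
      (Polynomial.aeval (X none : MvPolynomial (Option (Σ k, Jk k)) ℂ) P) =
      Polynomial.aeval (sg sp) P := by
    intro P
    rw [← Polynomial.aeval_algHom_apply, aeval_X]
    rfl
  rw [map_sub, map_mul, hal, hal, sub_eq_zero] at h1
  have h2 := congrArg (aeval (fun o : Option (Σ k, Jk k) =>
    Option.elim o (Polynomial.X : Polynomial ℂ) (fun _ => 0))) h1
  rw [map_mul, ← Polynomial.aeval_algHom_apply, ← Polynomial.aeval_algHom_apply, hσ,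
    Polynomial.aeval_X_left_apply, Polynomial.aeval_X_left_apply] at h2
  set b' : Polynomial ℂ := aeval (fun o : Option (Σ k, Jk k) =>
    Option.elim o (Polynomial.X : Polynomial ℂ) (fun _ => 0)) (aeval (th Nk sp) G) with hb'
  have hC0 : Cpoly Nk ≠ 0 := by
    refine Finset.prod_ne_zero_iff.2 fun k _ => Finset.prod_ne_zero_iff.2 fun u _ => ?_
    intro h
    have := congrArg (fun P : Polynomial ℂ => P.eval 0) h
    simp at this
    exact absurd this (by exact_mod_cast Nat.succ_ne_zero u)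
  have hC1 : Polynomial.aeval (sg sp) (Cpoly Nk) ≠ 0 := by
    intro h
    have h3 := congrArg (aeval (fun o : Option (Σ k, Jk k) =>
      Option.elim o (Polynomial.X : Polynomial ℂ) (fun _ => 0))) h
    rw [← Polynomial.aeval_algHom_apply, hσ, Polynomial.aeval_X_left_apply, map_zero] at h3
    exact hC0 h3
  have h4 : aeval (th Nk sp) (Polynomial.aeval (X none : MvPolynomial (Option (Σ k, Jk k)) ℂ) b' -
      G) = 0 := by
    rw [map_sub, hal, sub_eq_zero]
    refine mul_left_cancel₀ hC1 ?_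
    rw [← h1, h2, map_mul]
  choose qq hqq using fun e => Gp_dvd a c m v M q e
  refine ⟨b', S.map ⟨fun e (p : Σ k, Jk k) => e p.1 p.2, fun e e' h => by
    funext k j; exact congrFun h ⟨k, j⟩⟩, h2, ?_, ?_⟩
  · intro e he k
    obtain ⟨e', he', rfl⟩ := Finset.mem_map.1 he
    rw [fib_sum]
    exact hS e' he' k
  · refine ⟨fun e => qq (fun k j => e ⟨k, j⟩), fun R _ _ α s hαs => ?_⟩
    have h5 := th_eval Nk sp R α s (fun k => by rw [← hαs k, fib_sum]) _ h4
    rw [map_sub, ← Polynomial.aeval_algHom_apply, aeval_X, sub_eq_zero] at h5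
    have h6 : Option.elim (none : Option (Σ k, Jk k)) s α = s := rfl
    rw [h6] at h5
    rw [h5, hG, map_sum, Finset.sum_map]
    refine Finset.sum_congr rfl fun e _ => ?_
    rw [hqq e, map_mul, mul_comm]
    simp only
    congr 1
    rw [map_mul, map_prod, map_prod]
    congr 1
    · refine Finset.prod_congr rfl fun i _ => ?_
      simp [Li]
    · refine Finset.prod_congr rfl fun p _ => ?_
      simp

end Pool.Agent.W427.SMC
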