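import Pool.Agent.W427.SMC.Pa3
import Pool.Agent.W427.SMC.Rel2

set_option autoImplicit false
set_option linter.unusedSectionVars false

/-! The charts for the polynomial. -/

namespace Pool.Agent.W427.SMC

open MeasureTheory Set
open scoped ENNReal

section padic

variable (p : ℕ) [Fact p.Prime]

lemma dvd_iff_norm (M : ℕ) (x : ℤ_[p]) : (p : ℤ_[p]) ^ M ∣ x ↔ ‖x‖ ≤ ‖(p : ℤ_[p]) ^ M‖ := by
  rw [PadicInt.norm_p_pow, PadicInt.norm_le_pow_iff_mem_span_pow, Ideal.mem_span_singleton]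

open Classical in
/-- unit part -/
noncomputable def up (x : ℤ_[p]) : ℤ_[p] := if h : x = 0 then 1 else (PadicInt.unitCoeff h : ℤ_[p])

lemma up_norm (x : ℤ_[p]) : ‖up p x‖ = 1 := by
  unfold up
  split_ifs
  · exact norm_one
  · exact PadicInt.norm_units _

lemma up_spec (x : ℤ_[p]) (h : x ≠ 0) : x = (p : ℤ_[p]) ^ x.valuation * up p x := by
  unfold up
  rw [dif_neg h, mul_comm]
  exact PadicInt.unitCoeff_spec h

lemma pow_diff (m : ℕ) (η δ : ℤ_[p]) (hη : ‖η‖ = 1) (hδ : ‖δ‖ < ‖(m : ℤ_[p])‖) :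
    ‖(η + δ) ^ m - η ^ m‖ = ‖(m : ℤ_[p])‖ * ‖δ‖ := by
  obtain ⟨k, hk⟩ := Polynomial.powAddExpansion η δ m
  have h1 : (η + δ) ^ m - η ^ m = m * η ^ (m - 1) * δ + k * δ ^ 2 := by rw [hk]; ring
  rw [h1]
  have h2 : ‖(m : ℤ_[p]) * η ^ (m - 1) * δ‖ = ‖(m : ℤ_[p])‖ * ‖δ‖ := by
    rw [norm_mul, norm_mul, norm_pow, hη, one_pow, mul_one]
  rcases eq_or_ne δ 0 with h0 | h0
  · simp [h0]
  have h3 : 0 < ‖δ‖ := norm_pos_iff.2 h0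
  have h4 : ‖k * δ ^ 2‖ < ‖(m : ℤ_[p])‖ * ‖δ‖ := by
    rw [norm_mul, norm_pow]
    have := PadicInt.norm_le_one k
    nlinarith [mul_lt_mul_of_pos_right hδ h3, mul_pos h3 h3,
      mul_le_mul_of_nonneg_right this (mul_pos h3 h3).le]
  rw [PadicInt.norm_add_eq_max_of_ne (by rw [h2]; exact h4.ne'), h2, max_eq_left h4.le]

lemma norm_natCast_unit (w : ℕ) (h : ¬ p ∣ w) : ‖(w : ℤ_[p])‖ = 1 := by
  rw [← p_dvd_natCast p w, ← PadicInt.norm_lt_one_iff_dvd, not_lt] at h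
  exact le_antisymm (PadicInt.norm_le_one _) h

lemma norm_chart_unit (w l : ℕ) (hl : 1 ≤ l) (h : ¬ p ∣ w) (z : ℤ_[p]) :
    ‖(w : ℤ_[p]) + (p : ℤ_[p]) ^ l * z‖ = 1 := by
  have h4 : ¬ (p : ℤ_[p]) ∣ ((w : ℤ_[p]) + (p : ℤ_[p]) ^ l * z) := by
    rw [dvd_add_left, p_dvd_natCast]
    · exact h
    · exact (dvd_pow_self _ (by omega)).mul_right _
  rw [← PadicInt.norm_lt_one_iff_dvd, not_lt] at h4
  exact le_antisymm (PadicInt.norm_le_one _) h4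

end padic

variable {ι κ : Type} [Fintype ι] [DecidableEq ι] [Fintype κ] [DecidableEq κ] {Jk : κ → Type}
  [∀ k, Fintype (Jk k)] [∀ k, DecidableEq (Jk k)]
  (a : ι → ℕ) (Nk : κ → ℕ) (c : (k : κ) → Jk k → ℤ) (m : (k : κ) → Jk k → ℕ)
  (v : (k : κ) → Jk k → ι → ℕ) (p : ℕ) [Fact p.Prime]

/-- a monomial -/
noncomputable def mon (k : κ) (j : Jk k) (z : ι ⊕ (Σ k, Jk k) → ℤ_[p]) : ℤ_[p] :=
  (c k j : ℤ_[p]) * z (Sum.inr ⟨k, j⟩) ^ m k j * ∏ i, z (Sum.inl i) ^ v k j i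

def dc : ι ⊕ (Σ k, Jk k) → Prop := Sum.elim (fun _ => True) (fun q => 2 ≤ m q.1 q.2)

def lv (L C : ℕ) : ι ⊕ (Σ k, Jk k) → ℕ := Sum.elim (fun _ => C) (fun _ => L)

noncomputable def gam (q : Σ k, Jk k) : ℕ := (c q.1 q.2 : ℤ_[p]).valuation

def Yy (γ : (Σ k, Jk k) → ℕ) (n : ι ⊕ (Σ k, Jk k) → ℕ) (q : Σ k, Jk k) : ℕ :=
  ∑ i, EE m v q i * n i + γ q

lemma Yy_eq (γ : (Σ k, Jk k) → ℕ) (n : ι ⊕ (Σ k, Jk k) → ℕ) (q : Σ k, Jk k) :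
    Yy m v γ n q = ∑ i, v q.1 q.2 i * n (Sum.inl i) +
      (if 2 ≤ m q.1 q.2 then m q.1 q.2 * n (Sum.inr q) else 0) + γ q := by
  unfold Yy
  rw [Fintype.sum_sum_type]
  congr 2
  simp only [EE]
  rw [Finset.sum_eq_single q]
  · split_ifs with h1 h2 h2
    · rfl
    · exact absurd h1.2 h2
    · exact absurd ⟨rfl, h2⟩ h1
    · simp
  · intro q' _ hq'
    rw [if_neg (fun h => hq' h.1), zero_mul]
  · simp

/-- the chart -/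
noncomputable def chd (L C : ℕ) (d : ι ⊕ (Σ k, Jk k) → ℕ × ℕ) (u : ι ⊕ (Σ k, Jk k) → ℤ_[p]) :
    ι ⊕ (Σ k, Jk k) → ℤ_[p] :=
  fun i => ch p (dc m i) (lv L C i) (d i) (u i)

/-- the unit part at the centre of the chart -/
noncomputable def U0 (w : ι ⊕ (Σ k, Jk k) → ℕ) (q : Σ k, Jk k) : ℤ_[p] :=
  up p (c q.1 q.2 : ℤ_[p]) * (w (Sum.inr q) : ℤ_[p]) ^ m q.1 q.2 *
    ∏ i, (w (Sum.inl i) : ℤ_[p]) ^ v q.1 q.2 i

/-- the exponent of the precision -/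
noncomputable def Cj (L : ℕ) (q : Σ k, Jk k) : ℕ :=
  if 2 ≤ m q.1 q.2 then L + ((m q.1 q.2 : ℕ) : ℤ_[p]).valuation else 0

lemma chd_inl (L C : ℕ) (d : ι ⊕ (Σ k, Jk k) → ℕ × ℕ) (u : ι ⊕ (Σ k, Jk k) → ℤ_[p]) (i : ι) :
    chd m p L C d u (Sum.inl i) = (p : ℤ_[p]) ^ (d (Sum.inl i)).1 *
      (((d (Sum.inl i)).2 : ℤ_[p]) + (p : ℤ_[p]) ^ C * u (Sum.inl i)) := by
  simp [chd, ch, dc, lv, ph]

lemma chd_inr (L C : ℕ) (d : ι ⊕ (Σ k, Jk k) → ℕ × ℕ) (u : ι ⊕ (Σ k, Jk k) → ℤ_[p])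
    (q : Σ k, Jk k) (hq : 2 ≤ m q.1 q.2) :
    chd m p L C d u (Sum.inr q) = (p : ℤ_[p]) ^ (d (Sum.inr q)).1 *
      (((d (Sum.inr q)).2 : ℤ_[p]) + (p : ℤ_[p]) ^ L * u (Sum.inr q)) := by
  simp [chd, ch, dc, lv, ph, hq]

lemma chd_inr' (L C : ℕ) (d : ι ⊕ (Σ k, Jk k) → ℕ × ℕ) (u : ι ⊕ (Σ k, Jk k) → ℤ_[p])
    (q : Σ k, Jk k) (hq : ¬ 2 ≤ m q.1 q.2) :
    chd m p L C d u (Sum.inr q) = u (Sum.inr q) := by
  simp [chd, ch, dc, hq]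

/-- the product of the `x`-unit parts -/
noncomputable def Px (C : ℕ) (w : ι ⊕ (Σ k, Jk k) → ℕ) (u : ι ⊕ (Σ k, Jk k) → ℤ_[p])
    (q : Σ k, Jk k) : ℤ_[p] :=
  ∏ i, ((w (Sum.inl i) : ℤ_[p]) + (p : ℤ_[p]) ^ C * u (Sum.inl i)) ^ v q.1 q.2 i

lemma mon_x (L C : ℕ) (d : ι ⊕ (Σ k, Jk k) → ℕ × ℕ) (u : ι ⊕ (Σ k, Jk k) → ℤ_[p])
    (q : Σ k, Jk k) :
    ∏ i, chd m p L C d u (Sum.inl i) ^ v q.1 q.2 i =
      (p : ℤ_[p]) ^ (∑ i, v q.1 q.2 i * (d (Sum.inl i)).1) * Px v p C (fun i => (d i).2) u q := by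
  simp only [chd_inl, mul_pow, Finset.prod_mul_distrib, Px]
  congr 1
  rw [← Finset.prod_pow_eq_pow_sum]
  refine Finset.prod_congr rfl fun i _ => ?_
  rw [← pow_mul, mul_comm]

lemma mon_eq (hc : ∀ k j, c k j ≠ 0) (L C : ℕ)
    (d : ι ⊕ (Σ k, Jk k) → ℕ × ℕ) (u : ι ⊕ (Σ k, Jk k) → ℤ_[p]) (q : Σ k, Jk k)
    (hq : 2 ≤ m q.1 q.2) :
    mon c m v p q.1 q.2 (chd m p L C d u) =
      (p : ℤ_[p]) ^ Yy m v (gam c p) (fun i => (d i).1) q * (up p (c q.1 q.2 : ℤ_[p]) *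
        (((d (Sum.inr q)).2 : ℤ_[p]) + (p : ℤ_[p]) ^ L * u (Sum.inr q)) ^ m q.1 q.2 *
        Px v p C (fun i => (d i).2) u q) := by
  have hcq : (c q.1 q.2 : ℤ_[p]) ≠ 0 := by exact_mod_cast hc q.1 q.2
  have h1 : (c q.1 q.2 : ℤ_[p]) = (p : ℤ_[p]) ^ gam c p q * up p (c q.1 q.2 : ℤ_[p]) :=
    up_spec p _ hcq
  rw [mon, mon_x, Yy_eq, if_pos hq]
  rw [show (⟨q.1, q.2⟩ : Σ k, Jk k) = q from rfl, chd_inr m p L C d u q hq, mul_pow, ← pow_mul,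
    pow_add, pow_add]
  conv_lhs => rw [h1]
  rw [mul_comm (m q.1 q.2)]
  ring

lemma mon_eq' (hc : ∀ k j, c k j ≠ 0) (hm : ∀ k j, 0 < m k j) (L C : ℕ)
    (d : ι ⊕ (Σ k, Jk k) → ℕ × ℕ) (u : ι ⊕ (Σ k, Jk k) → ℤ_[p]) (q : Σ k, Jk k)
    (hq : ¬ 2 ≤ m q.1 q.2) :
    mon c m v p q.1 q.2 (chd m p L C d u) =
      (p : ℤ_[p]) ^ Yy m v (gam c p) (fun i => (d i).1) q * (up p (c q.1 q.2 : ℤ_[p]) *
        u (Sum.inr q) * Px v p C (fun i => (d i).2) u q) := by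
  have hcq : (c q.1 q.2 : ℤ_[p]) ≠ 0 := by exact_mod_cast hc q.1 q.2
  have h1 : (c q.1 q.2 : ℤ_[p]) = (p : ℤ_[p]) ^ gam c p q * up p (c q.1 q.2 : ℤ_[p]) :=
    up_spec p _ hcq
  have h2 : m q.1 q.2 = 1 := by have := hm q.1 q.2; omega
  rw [mon, mon_x, Yy_eq, if_neg hq]
  rw [show (⟨q.1, q.2⟩ : Σ k, Jk k) = q from rfl, chd_inr' m p L C d u q hq,
    pow_add, pow_add, h2, pow_one]
  conv_lhs => rw [h1]
  ring

lemma Px_norm (C : ℕ) (hC : 1 ≤ C) (w : ι ⊕ (Σ k, Jk k) → ℕ) (hw : ∀ i, ¬ p ∣ w i)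
    (u : ι ⊕ (Σ k, Jk k) → ℤ_[p]) (q : Σ k, Jk k) : ‖Px v p C w u q‖ = 1 := by
  unfold Px
  rw [norm_prod]
  refine Finset.prod_eq_one fun i _ => ?_
  rw [norm_pow, norm_chart_unit p _ C hC (hw _), one_pow]

lemma dvd_prod_sub {ι : Type} (S : Finset ι) (M : ℤ_[p]) (x y : ι → ℤ_[p])
    (h : ∀ i ∈ S, M ∣ x i - y i) : M ∣ ∏ i ∈ S, x i - ∏ i ∈ S, y i := by
  classical
  induction S using Finset.induction_on with
  | empty => simp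
  | insert a S ha ih =>
    rw [Finset.prod_insert ha, Finset.prod_insert ha]
    obtain ⟨c1, h1⟩ := h a (Finset.mem_insert_self _ _)
    obtain ⟨c2, h2⟩ := ih fun i hi => h i (Finset.mem_insert_of_mem hi)
    refine ⟨c1 * ∏ i ∈ S, x i + y a * c2, ?_⟩
    linear_combination (∏ i ∈ S, x i) * h1 + y a * h2

lemma Px_dvd (C : ℕ) (w : ι ⊕ (Σ k, Jk k) → ℕ) (u : ι ⊕ (Σ k, Jk k) → ℤ_[p])
    (q : Σ k, Jk k) :
    (p : ℤ_[p]) ^ C ∣ Px v p C w u q - ∏ i, (w (Sum.inl i) : ℤ_[p]) ^ v q.1 q.2 i := by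
  refine dvd_prod_sub p _ _ _ _ fun i _ => ?_
  refine dvd_trans ?_ (sub_dvd_pow_sub_pow _ _ _)
  exact ⟨u (Sum.inl i), by ring⟩

/-- the approximation of a monomial on a chart -/
lemma chart_mon (hc : ∀ k j, c k j ≠ 0) (hm : ∀ k j, 0 < m k j) (L C : ℕ)
    (hL : ∀ k j, ‖(p : ℤ_[p]) ^ L‖ < ‖((m k j : ℕ) : ℤ_[p])‖)
    (hC : ∀ q, Cj m p L q ≤ C)
    (d : ι ⊕ (Σ k, Jk k) → ℕ × ℕ) (hd : ∀ i, ¬ p ∣ (d i).2) (u : ι ⊕ (Σ k, Jk k) → ℤ_[p])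
    (q : Σ k, Jk k) :
    (p : ℤ_[p]) ^ (Yy m v (gam c p) (fun i => (d i).1) q + Cj m p L q) ∣
      mon c m v p q.1 q.2 (chd m p L C d u) - (if 2 ≤ m q.1 q.2 then
        (p : ℤ_[p]) ^ Yy m v (gam c p) (fun i => (d i).1) q * U0 c m v p (fun i => (d i).2) q
        else 0) := by
  by_cases hq : 2 ≤ m q.1 q.2
  · rw [if_pos hq, mon_eq c m v p hc L C d u q hq, ← mul_sub, pow_add]
    refine mul_dvd_mul_left _ ?_
    have hCq := hC q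
    rw [Cj, if_pos hq] at hCq ⊢
    set vm := ((m q.1 q.2 : ℕ) : ℤ_[p]).valuation with hvm
    have hm0 : ((m q.1 q.2 : ℕ) : ℤ_[p]) ≠ 0 := by exact_mod_cast (hm q.1 q.2).ne'
    have h1 : (p : ℤ_[p]) ^ (L + vm) ∣
        (((d (Sum.inr q)).2 : ℤ_[p]) + (p : ℤ_[p]) ^ L * u (Sum.inr q)) ^ m q.1 q.2 -
          ((d (Sum.inr q)).2 : ℤ_[p]) ^ m q.1 q.2 := by
      rw [dvd_iff_norm, pow_diff p _ _ _ (norm_natCast_unit p _ (hd _))]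
      · have h3 : ‖((m q.1 q.2 : ℕ) : ℤ_[p])‖ = ‖(p : ℤ_[p]) ^ vm‖ := by
          conv_lhs => rw [up_spec p _ hm0]
          rw [norm_mul, up_norm, mul_one]
        rw [h3, norm_mul, pow_add, norm_mul]
        have := PadicInt.norm_le_one (u (Sum.inr q))
        have h5 : 0 ≤ ‖(p : ℤ_[p]) ^ vm‖ * ‖(p : ℤ_[p]) ^ L‖ := by positivity
        nlinarith [mul_le_mul_of_nonneg_left this h5]
      · rw [norm_mul]
        refine lt_of_le_of_lt ?_ (hL q.1 q.2)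
        exact mul_le_of_le_one_right (norm_nonneg _) (PadicInt.norm_le_one _)
    have h2 : (p : ℤ_[p]) ^ (L + vm) ∣ Px v p C (fun i => (d i).2) u q -
        ∏ i, ((d (Sum.inl i)).2 : ℤ_[p]) ^ v q.1 q.2 i :=
      dvd_trans (pow_dvd_pow _ hCq) (Px_dvd v p C (fun i => (d i).2) u q)
    obtain ⟨c1, h1⟩ := h1
    obtain ⟨c2, h2⟩ := h2
    unfold U0
    refine ⟨up p (c q.1 q.2 : ℤ_[p]) * (c1 * Px v p C (fun i => (d i).2) u q +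
      ((d (Sum.inr q)).2 : ℤ_[p]) ^ m q.1 q.2 * c2), ?_⟩
    linear_combination up p (c q.1 q.2 : ℤ_[p]) * Px v p C (fun i => (d i).2) u q * h1 +
      up p (c q.1 q.2 : ℤ_[p]) * ((d (Sum.inr q)).2 : ℤ_[p]) ^ m q.1 q.2 * h2
  · rw [if_neg hq, sub_zero, mon_eq' c m v p hc hm L C d u q hq, Cj, if_neg hq, add_zero]
    exact dvd_mul_right _ _

lemma Px_update (C : ℕ) (w : ι ⊕ (Σ k, Jk k) → ℕ) (u : ι ⊕ (Σ k, Jk k) → ℤ_[p])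
    (q q' : Σ k, Jk k) (t : ℤ_[p]) :
    Px v p C w (Function.update u (Sum.inr q') t) q = Px v p C w u q := by
  unfold Px
  simp

lemma chart_iso (hc : ∀ k j, c k j ≠ 0) (hm : ∀ k j, 0 < m k j) (L C : ℕ)
    (hL1 : 1 ≤ L) (hC1 : 1 ≤ C)
    (hL : ∀ k j, ‖(p : ℤ_[p]) ^ L‖ < ‖((m k j : ℕ) : ℤ_[p])‖)
    (d : ι ⊕ (Σ k, Jk k) → ℕ × ℕ) (hd : ∀ i, ¬ p ∣ (d i).2) (u : ι ⊕ (Σ k, Jk k) → ℤ_[p])
    (q : Σ k, Jk k) (t t' : ℤ_[p]) :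
    ‖mon c m v p q.1 q.2 (chd m p L C d (Function.update u (Sum.inr q) t)) -
      mon c m v p q.1 q.2 (chd m p L C d (Function.update u (Sum.inr q) t'))‖ =
    ‖(p : ℤ_[p]) ^ (Yy m v (gam c p) (fun i => (d i).1) q + Cj m p L q)‖ * ‖t - t'‖ := by
  by_cases hq : 2 ≤ m q.1 q.2
  · rw [mon_eq c m v p hc L C d _ q hq, mon_eq c m v p hc L C d _ q hq, Px_update, Px_update,
      Function.update_self, Function.update_self, Cj, if_pos hq]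
    set vm := ((m q.1 q.2 : ℕ) : ℤ_[p]).valuation with hvm
    have hm0 : ((m q.1 q.2 : ℕ) : ℤ_[p]) ≠ 0 := by exact_mod_cast (hm q.1 q.2).ne'
    have h3 : ‖((m q.1 q.2 : ℕ) : ℤ_[p])‖ = ‖(p : ℤ_[p]) ^ vm‖ := by
      conv_lhs => rw [up_spec p _ hm0]
      rw [norm_mul, up_norm, mul_one]
    set η := ((d (Sum.inr q)).2 : ℤ_[p]) + (p : ℤ_[p]) ^ L * t' with hη
    have h1 : ((d (Sum.inr q)).2 : ℤ_[p]) + (p : ℤ_[p]) ^ L * t =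
      η + (p : ℤ_[p]) ^ L * (t - t') := by rw [hη]; ring
    rw [h1]
    set Y := Yy m v (gam c p) (fun i => (d i).1) q with hY
    set P := Px v p C (fun i => (d i).2) u q with hP
    have h2 : (p : ℤ_[p]) ^ Y * (up p (c q.1 q.2 : ℤ_[p]) *
        (η + (p : ℤ_[p]) ^ L * (t - t')) ^ m q.1 q.2 * P) -
        (p : ℤ_[p]) ^ Y * (up p (c q.1 q.2 : ℤ_[p]) * η ^ m q.1 q.2 * P) =
        (p : ℤ_[p]) ^ Y * (up p (c q.1 q.2 : ℤ_[p]) * P *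
        ((η + (p : ℤ_[p]) ^ L * (t - t')) ^ m q.1 q.2 - η ^ m q.1 q.2)) := by ring
    rw [h2, norm_mul, norm_mul, norm_mul, up_norm, hP, Px_norm v p C hC1 _ hd,
      pow_diff p _ _ _ (norm_chart_unit p _ L hL1 (hd _) _), h3, norm_mul, pow_add, pow_add,
      norm_mul, norm_mul]
    · ring
    · rw [norm_mul]
      refine lt_of_le_of_lt ?_ (hL q.1 q.2)
      exact mul_le_of_le_one_right (norm_nonneg _) (PadicInt.norm_le_one _)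
  · rw [mon_eq' c m v p hc hm L C d _ q hq, mon_eq' c m v p hc hm L C d _ q hq, Px_update,
      Px_update, Function.update_self, Function.update_self, Cj, if_neg hq, add_zero]
    set Y := Yy m v (gam c p) (fun i => (d i).1) q with hY
    set P := Px v p C (fun i => (d i).2) u q with hP
    have h2 : (p : ℤ_[p]) ^ Y * (up p (c q.1 q.2 : ℤ_[p]) * t * P) -
        (p : ℤ_[p]) ^ Y * (up p (c q.1 q.2 : ℤ_[p]) * t' * P) =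
        (p : ℤ_[p]) ^ Y * (up p (c q.1 q.2 : ℤ_[p]) * P * (t - t')) := by ring
    rw [h2, norm_mul, norm_mul, norm_mul, up_norm, hP, Px_norm v p C hC1 _ hd]
    ring

lemma chart_other (L C : ℕ) (d : ι ⊕ (Σ k, Jk k) → ℕ × ℕ) (u : ι ⊕ (Σ k, Jk k) → ℤ_[p])
    (q q' : Σ k, Jk k) (h : q ≠ q') (t : ℤ_[p]) :
    mon c m v p q.1 q.2 (chd m p L C d (Function.update u (Sum.inr q') t)) =
      mon c m v p q.1 q.2 (chd m p L C d u) := by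
  have h1 : ∀ i : ι, chd m p L C d (Function.update u (Sum.inr q') t) (Sum.inl i) =
      chd m p L C d u (Sum.inl i) := by
    intro i; simp [chd]
  have h2 : chd m p L C d (Function.update u (Sum.inr q') t) (Sum.inr q) =
      chd m p L C d u (Sum.inr q) := by
    simp [chd, h]
  unfold mon
  simp only [h1]
  rw [show (⟨q.1, q.2⟩ : Σ k, Jk k) = q from rfl, h2]

end Pool.Agent.W427.SMC
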