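import Pool.Agent.W427.SMC.Pa4

set_option autoImplicit false
set_option linter.unusedSectionVars false

/-! The integral over a chart. -/

namespace Pool.Agent.W427.SMC

open MeasureTheory Set
open scoped ENNReal

attribute [local instance] msZ bsZ

section padic

variable (p : ℕ) [Fact p.Prime]

noncomputable def hf (s : ℝ) (M : ℕ) (A : ℤ_[p]) : ℝ≥0∞ :=
  if ‖(p : ℤ_[p]) ^ M‖ < ‖A‖ then tau p s A else Tt p s ^ M * phi p s

lemma hf_shift (s : ℝ) (n M : ℕ) (A : ℤ_[p]) :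
    hf p s (n + M) ((p : ℤ_[p]) ^ n * A) = Tt p s ^ n * hf p s M A := by
  unfold hf
  have hp0 : 0 < ‖(p : ℤ_[p]) ^ n‖ :=
    norm_pos_iff.2 (pow_ne_zero _ (by exact_mod_cast (Fact.out : p.Prime).ne_zero))
  have h : ‖(p : ℤ_[p]) ^ (n + M)‖ < ‖(p : ℤ_[p]) ^ n * A‖ ↔ ‖(p : ℤ_[p]) ^ M‖ < ‖A‖ := by
    rw [pow_add, norm_mul, norm_mul, mul_lt_mul_iff_right₀ hp0]
  by_cases h1 : ‖(p : ℤ_[p]) ^ M‖ < ‖A‖
  · rw [if_pos h1, if_pos (h.2 h1), tau_mul, tau_pow, tau_p]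
  · rw [if_neg h1, if_neg (fun h2 => h1 (h.1 h2)), pow_add, mul_assoc]

lemma hf_congr (s : ℝ) (M : ℕ) (A A' : ℤ_[p]) (h : (p : ℤ_[p]) ^ M ∣ A - A') :
    hf p s M A = hf p s M A' := by
  have h1 : ∀ A A' : ℤ_[p], (p : ℤ_[p]) ^ M ∣ A - A' → ‖(p : ℤ_[p]) ^ M‖ < ‖A‖ → ‖A'‖ = ‖A‖ := by
    intro A A' h hA
    rw [dvd_iff_norm] at h
    refine norm_eq_of_sub_lt p _ _ ?_
    rw [← norm_neg, neg_sub]
    exact h.trans_lt hA
  unfold hf
  by_cases hA : ‖(p : ℤ_[p]) ^ M‖ < ‖A‖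
  · have h2 := h1 A A' h hA
    rw [if_pos hA, if_pos (h2 ▸ hA)]
    exact tau_norm p s _ _ h2.symm
  · rw [if_neg hA, if_neg]
    intro hA'
    have h2 := h1 A' A (by rw [← neg_sub]; exact (dvd_neg).2 h) hA'
    exact hA (h2 ▸ hA')

end padic

variable {ι κ : Type} [Fintype ι] [DecidableEq ι] [Fintype κ] [DecidableEq κ] {Jk : κ → Type}
  [∀ k, Fintype (Jk k)] [∀ k, DecidableEq (Jk k)]
  (a : ι → ℕ) (Nk : κ → ℕ) (c : (k : κ) → Jk k → ℤ) (m : (k : κ) → Jk k → ℕ)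
  (v : (k : κ) → Jk k → ι → ℕ) (p : ℕ) [Fact p.Prime]

/-- a factor -/
noncomputable def fac (k : κ) (z : ι ⊕ (Σ k, Jk k) → ℤ_[p]) : ℤ_[p] :=
  ∑ j, mon c m v p k j z

/-- the value of the polynomial -/
noncomputable def fval (z : ι ⊕ (Σ k, Jk k) → ℤ_[p]) : ℤ_[p] :=
  (∏ i, z (Sum.inl i) ^ a i) * ∏ k, fac c m v p k z ^ Nk k

noncomputable def Mt (L : ℕ) (k : κ) (y : (Σ k, Jk k) → ℕ) : ℕ :=
  om (fun q : Σ k, Jk k => q.1) k (fun q => y q + Cj m p L q)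

noncomputable def Ak (w : ι ⊕ (Σ k, Jk k) → ℕ) (k : κ) (y : (Σ k, Jk k) → ℕ) : ℤ_[p] :=
  ∑ j, if 2 ≤ m k j then (p : ℤ_[p]) ^ (y ⟨k, j⟩) * U0 c m v p w ⟨k, j⟩ else 0

lemma mon_cont (k : κ) (j : Jk k) : Continuous (mon c m v p k j) := by
  unfold mon
  refine (continuous_const.mul ((continuous_apply _).pow _)).mul ?_
  exact continuous_finsetProd _ fun i _ => (continuous_apply _).pow _

lemma chd_cont (L C : ℕ) (d : ι ⊕ (Σ k, Jk k) → ℕ × ℕ) : Continuous (chd m p L C d) := by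
  refine continuous_pi fun i => ?_
  have h : Continuous (fun u : ι ⊕ (Σ k, Jk k) → ℤ_[p] => u i) := continuous_apply i
  exact (ch_cont p _ _ _).comp h

lemma fac_cont (k : κ) : Continuous (fac c m v p k) :=
  continuous_finsetSum _ fun j _ => mon_cont c m v p k j

lemma fval_cont : Continuous (fval a Nk c m v p) := by
  unfold fval
  have h : ∀ i, Continuous (fun u : ι ⊕ (Σ k, Jk k) → ℤ_[p] => u i) := fun i => continuous_apply i
  refine (continuous_finsetProd _ fun i _ => (h (Sum.inl i)).pow _).mul ?_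
  exact continuous_finsetProd _ fun k _ => (fac_cont c m v p k).pow _

lemma fac_int (hc : ∀ k j, c k j ≠ 0) (hm : ∀ k j, 0 < m k j) (L C : ℕ)
    (hL1 : 1 ≤ L) (hC1 : 1 ≤ C)
    (hL : ∀ k j, ‖(p : ℤ_[p]) ^ L‖ < ‖((m k j : ℕ) : ℤ_[p])‖)
    (hC : ∀ q, Cj m p L q ≤ C)
    (d : ι ⊕ (Σ k, Jk k) → ℕ × ℕ) (hd : ∀ i, ¬ p ∣ (d i).2) (u : ι ⊕ (Σ k, Jk k) → ℤ_[p])
    (s : ℝ) (q : Σ k, Jk k)
    (hq : Yy m v (gam c p) (fun i => (d i).1) q + Cj m p L q =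
      Mt m p L q.1 (Yy m v (gam c p) (fun i => (d i).1))) :
    ∫⁻ t, tau p s (fac c m v p q.1 (chd m p L C d (Function.update u (Sum.inr q) t))) ∂(mu p) =
      hf p s (Mt m p L q.1 (Yy m v (gam c p) (fun i => (d i).1)))
        (Ak c m v p (fun i => (d i).2) q.1 (Yy m v (gam c p) (fun i => (d i).1))) := by
  refine isom_int p s _ _ ?_ _ ?_
  · intro t t'
    rw [← hq, ← chart_iso c m v p hc hm L C hL1 hC1 hL d hd u q t t']
    congr 1
    unfold fac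
    rw [← Finset.sum_sub_distrib, Finset.sum_eq_single q.2]
    · intro j _ hj
      have hne : (⟨q.1, j⟩ : Σ k, Jk k) ≠ q := by
        intro h
        exact hj (eq_of_heq (Sigma.mk.inj_iff.1 (h.trans (Sigma.eta q).symm)).2)
      rw [chart_other c m v p L C d u ⟨q.1, j⟩ q hne t,
        chart_other c m v p L C d u ⟨q.1, j⟩ q hne t', sub_self]
    · intro h
      exact absurd (Finset.mem_univ _) h
  · intro t
    rw [← dvd_iff_norm]
    unfold fac Ak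
    rw [← Finset.sum_sub_distrib]
    refine Finset.dvd_sum fun j _ => ?_
    refine dvd_trans (pow_dvd_pow _ ?_) (chart_mon c m v p hc hm L C hL hC d hd
      (Function.update u (Sum.inr q) t) ⟨q.1, j⟩)
    exact om_le (fun q : Σ k, Jk k => q.1)
      (fun q => Yy m v (gam c p) (fun i => (d i).1) q + Cj m p L q) ⟨q.1, j⟩

lemma chart_int (hc : ∀ k j, c k j ≠ 0) (hm : ∀ k j, 0 < m k j) (L C : ℕ)
    (hL1 : 1 ≤ L) (hC1 : 1 ≤ C) (hne : ∀ k, Nonempty (Jk k))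
    (hL : ∀ k j, ‖(p : ℤ_[p]) ^ L‖ < ‖((m k j : ℕ) : ℤ_[p])‖)
    (hC : ∀ q, Cj m p L q ≤ C)
    (d : ι ⊕ (Σ k, Jk k) → ℕ × ℕ) (hd : ∀ i, ¬ p ∣ (d i).2) (s : ℝ) :
    ∫⁻ u, tau p s (fval a Nk c m v p (chd m p L C d u))
      ∂(Measure.pi fun _ : ι ⊕ (Σ k, Jk k) => mu p) =
      (∏ i, Tt p s ^ (a i * (d (Sum.inl i)).1)) *
      ∏ k, hf p (Nk k * s) (Mt m p L k (Yy m v (gam c p) (fun i => (d i).1)))
        (Ak c m v p (fun i => (d i).2) k (Yy m v (gam c p) (fun i => (d i).1))) := by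
  have hπ : Function.Surjective (fun q : Σ k, Jk k => q.1) := fun k =>
    ⟨⟨k, (hne k).some⟩, rfl⟩
  have h0 : ∀ k, ∃ j : Jk k, Yy m v (gam c p) (fun i => (d i).1) ⟨k, j⟩ + Cj m p L ⟨k, j⟩ =
      Mt m p L k (Yy m v (gam c p) (fun i => (d i).1)) := by
    intro k
    obtain ⟨⟨k', j⟩, hk, hj⟩ := om_mem _ hπ k
      (fun q => Yy m v (gam c p) (fun i => (d i).1) q + Cj m p L q)
    subst hk
    exact ⟨j, hj⟩
  choose jk hjk using h0
  have h1 : ∀ u, tau p s (fval a Nk c m v p (chd m p L C d u)) =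
      (∏ i, Tt p s ^ (a i * (d (Sum.inl i)).1)) *
        ∏ k, tau p (Nk k * s) (fac c m v p k (chd m p L C d u)) := by
    intro u
    unfold fval
    rw [tau_mul, tau_prod, tau_prod]
    congr 1
    · refine Finset.prod_congr rfl fun i _ => ?_
      rw [tau_pow, chd_inl, tau_mul, tau_pow, tau_p, tau_unit p s _
        (norm_chart_unit p _ C hC1 (hd _) _), mul_one, ← pow_mul, mul_comm]
    · refine Finset.prod_congr rfl fun k _ => ?_
      rw [tau_pow, tau_nat]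
  simp only [h1]
  have hmeas : ∀ k, Measurable (fun u => tau p (Nk k * s) (fac c m v p k (chd m p L C d u))) :=
    fun k => (tau_meas p _).comp ((fac_cont c m v p k).comp (chd_cont m p L C d)).measurable
  rw [lintegral_const_mul _ (Finset.measurable_prod _ fun k _ => hmeas k)]
  congr 1
  refine lintegral_prod_avg p (fun k => Sum.inr ⟨k, jk k⟩) _ hmeas _ ?_ ?_ Finset.univ
  · intro k k' hk u t
    congr 1
    unfold fac
    refine Finset.sum_congr rfl fun j _ => ?_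
    exact chart_other c m v p L C d u ⟨k, j⟩ ⟨k', jk k'⟩
      (fun h => hk (congrArg Sigma.fst h).symm) t
  · intro k u
    exact fac_int c m v p hc hm L C hL1 hC1 hL hC d hd u (Nk k * s) ⟨k, jk k⟩ (hjk k)

/-- the integral -/
noncomputable def Zi (s : ℝ) : ℝ≥0∞ :=
  ∫⁻ z, tau p s (fval a Nk c m v p z) ∂(Measure.pi fun _ : ι ⊕ (Σ k, Jk k) => mu p)

theorem Zi_sum (hc : ∀ k j, c k j ≠ 0) (hm : ∀ k j, 0 < m k j) (L C : ℕ)
    (hL1 : 1 ≤ L) (hC1 : 1 ≤ C) (hne : ∀ k, Nonempty (Jk k))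
    (hL : ∀ k j, ‖(p : ℤ_[p]) ^ L‖ < ‖((m k j : ℕ) : ℤ_[p])‖)
    (hC : ∀ q, Cj m p L q ≤ C) (s : ℝ) :
    Zi a Nk c m v p s = ∑' d : ι ⊕ (Σ k, Jk k) → ℕ × ℕ, (∏ i, wt p (lv L C i) (d i)) *
      ((∏ i, Tt p s ^ (a i * (d (Sum.inl i)).1)) *
      ∏ k, hf p (Nk k * s) (Mt m p L k (Yy m v (gam c p) (fun i => (d i).1)))
        (Ak c m v p (fun i => (d i).2) k (Yy m v (gam c p) (fun i => (d i).1)))) := by
  refine (lintegral_decV p (lv L C) (by rintro (i | q) <;> simpa [lv]) (dc m) _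
    ((tau_meas p s).comp (fval_cont a Nk c m v p).measurable)).trans ?_
  refine tsum_congr fun d => ?_
  by_cases hd : ∀ i, ¬ p ∣ (d i).2
  · congr 1
    exact chart_int a Nk c m v p hc hm L C hL1 hC1 hne hL hC d hd s
  · push Not at hd
    obtain ⟨i, hi⟩ := hd
    have h0 : ∏ i, wt p (lv L C i) (d i) = 0 := by
      refine Finset.prod_eq_zero (Finset.mem_univ i) ?_
      rw [wt, if_neg]
      exact fun h => h.2 hi
    rw [h0, zero_mul, zero_mul]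

end Pool.Agent.W427.SMC
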