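import Pool.Agent.W427.SMC.Pa5

set_option autoImplicit false
set_option linter.unusedSectionVars false

/-! The integral as a finite combination of the discrete sums. -/

namespace Pool.Agent.W427.SMC

open MeasureTheory Set
open scoped ENNReal

attribute [local instance] msZ bsZ

variable {ι κ : Type} [Fintype ι] [DecidableEq ι] [Fintype κ] [DecidableEq κ] {Jk : κ → Type}
  [∀ k, Fintype (Jk k)] [∀ k, DecidableEq (Jk k)]
  (a : ι → ℕ) (Nk : κ → ℕ) (c : (k : κ) → Jk k → ℤ) (m : (k : κ) → Jk k → ℕ)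
  (v : (k : κ) → Jk k → ι → ℕ) (p : ℕ) [Fact p.Prime]

/-- the projection -/
abbrev pj : (Σ k, Jk k) → κ := fun q => q.1

lemma pj_surj (hne : ∀ k, Nonempty (Jk k)) : Function.Surjective (pj (Jk := Jk)) := fun k =>
  ⟨⟨k, (hne k).some⟩, rfl⟩

lemma Mt_tr (hne : ∀ k, Nonempty (Jk k)) (L C' : ℕ) (hC : ∀ q, Cj m p L q ≤ C') (k : κ)
    (y : (Σ k, Jk k) → ℕ) :
    Mt m p L k y = om pj k y + Mt m p L k (tr pj C' y) := by
  have hπ := pj_surj hne
  apply le_antisymm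
  · obtain ⟨q, hq, h⟩ := om_mem pj hπ k (fun q => tr pj C' y q + Cj m p L q)
    unfold Mt
    change om pj k _ ≤ _ + om pj k _
    rw [← h]
    have h1 := om_le pj (fun q => y q + Cj m p L q) q
    rw [hq] at h1
    unfold tr
    rw [hq]
    rcases le_total (y q - om pj k y) C' with h2 | h2
    · rw [min_eq_left h2]
      omega
    · rw [min_eq_right h2]
      obtain ⟨q0, hq0, h0⟩ := om_mem pj hπ k y
      have h3 := om_le pj (fun q => y q + Cj m p L q) q0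
      rw [hq0] at h3
      have h4 := hC q0
      omega
  · refine le_om pj hπ k _ _ fun q hq => ?_
    have h1 : Mt m p L k (tr pj C' y) ≤ tr pj C' y q + Cj m p L q := by
      have := om_le pj (fun q => tr pj C' y q + Cj m p L q) q
      rw [hq] at this
      exact this
    have h2 : tr pj C' y q ≤ y q - om pj k y := by
      unfold tr
      rw [hq]
      exact min_le_left _ _
    have h3 := om_le pj y q
    rw [hq] at h3
    omega

lemma Mt_tr_le (hne : ∀ k, Nonempty (Jk k)) (L C' : ℕ) (hC : ∀ q, Cj m p L q ≤ C') (k : κ)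
    (y : (Σ k, Jk k) → ℕ) : Mt m p L k (tr pj C' y) ≤ C' := by
  obtain ⟨q0, hq0, h0⟩ := om_mem pj (pj_surj hne) k y
  have h3 := om_le pj (fun q => tr pj C' y q + Cj m p L q) q0
  rw [hq0] at h3
  have h4 := hC q0
  have h5 : tr pj C' y q0 = 0 := by
    unfold tr
    rw [hq0, h0]
    simp
  simp only [h5] at h3
  unfold Mt
  change om pj k _ ≤ _
  omega

lemma hf_tr (hne : ∀ k, Nonempty (Jk k)) (L C' : ℕ) (hC : ∀ q, Cj m p L q ≤ C') (k : κ)
    (w : ι ⊕ (Σ k, Jk k) → ℕ) (y : (Σ k, Jk k) → ℕ) (s : ℝ) :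
    hf p s (Mt m p L k y) (Ak c m v p w k y) = Tt p s ^ om pj k y *
      hf p s (Mt m p L k (tr pj C' y)) (Ak c m v p w k (tr pj C' y)) := by
  have h1 : Ak c m v p w k y = (p : ℤ_[p]) ^ om pj k y *
      Ak c m v p w k (fun q => y q - om pj q.1 y) := by
    unfold Ak
    rw [Finset.mul_sum]
    refine Finset.sum_congr rfl fun j _ => ?_
    split_ifs
    · rw [← mul_assoc, ← pow_add]
      have := om_le pj y ⟨k, j⟩
      simp only at this ⊢
      rw [Nat.add_sub_cancel' this]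
    · simp
  rw [h1, Mt_tr m p hne L C' hC k y, hf_shift]
  congr 1
  refine hf_congr p s _ _ _ ?_
  refine dvd_trans (pow_dvd_pow _ (Mt_tr_le m p hne L C' hC k y)) ?_
  unfold Ak
  rw [← Finset.sum_sub_distrib]
  refine Finset.dvd_sum fun j _ => ?_
  split_ifs
  · rw [← sub_mul]
    refine Dvd.dvd.mul_right ?_ _
    unfold tr
    rcases le_total (y ⟨k, j⟩ - om pj k y) C' with h2 | h2
    · rw [min_eq_left h2, sub_self]
      exact dvd_zero _
    · rw [min_eq_right h2]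
      exact dvd_sub (pow_dvd_pow _ h2) dvd_rfl
  · simp

/-- the discrete data -/
noncomputable def Kk (L : ℕ) (w : ι ⊕ (Σ k, Jk k) → ℕ) (ϖ : (Σ k, Jk k) → ℕ) (s : ℝ) : ℝ≥0∞ :=
  ∏ k, hf p (Nk k * s) (Mt m p L k ϖ) (Ak c m v p w k ϖ)

/-- the finite set of residues -/
noncomputable def Wf (L C : ℕ) : Finset (ι ⊕ (Σ k, Jk k) → ℕ) :=
  (Fintype.piFinset fun i => Finset.range (p ^ lv (Jk := Jk) (ι := ι) L C i)).filter
    (fun w => ∀ i, ¬ p ∣ w i)

lemma prod_wt (L C : ℕ) (n w : ι ⊕ (Σ k, Jk k) → ℕ) :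
    ∏ i, wt p (lv L C i) (n i, w i) = if w ∈ Wf (ι := ι) (Jk := Jk) p L C then
      ((p : ℝ≥0∞)⁻¹) ^ (∑ i, n i) * ((p : ℝ≥0∞)⁻¹) ^ (∑ i, lv (Jk := Jk) (ι := ι) L C i)
      else 0 := by
  unfold Wf
  split_ifs with h
  · rw [Finset.mem_filter, Fintype.mem_piFinset] at h
    rw [← pow_add, ← Finset.sum_add_distrib, ← Finset.prod_pow_eq_pow_sum]
    refine Finset.prod_congr rfl fun i _ => ?_
    rw [wt, if_pos ⟨Finset.mem_range.1 (h.1 i), h.2 i⟩]
  · rw [Finset.mem_filter, Fintype.mem_piFinset] at h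
    by_contra h0
    apply h
    have h1 : ∀ i, w i < p ^ lv L C i ∧ ¬ p ∣ w i := by
      intro i
      have h2 := Finset.prod_ne_zero_iff.1 h0 i (Finset.mem_univ i)
      by_contra h3
      exact h2 (if_neg h3)
    exact ⟨fun i => Finset.mem_range.2 (h1 i).1, fun i => (h1 i).2⟩

/-- the elementary sums -/
noncomputable def Se (C' : ℕ) (ϖ0 : (Σ k, Jk k) → ℕ) (s : ℝ) : ℝ≥0∞ :=
  ∑' n : ι ⊕ (Σ k, Jk k) → ℕ, ((p : ℝ≥0∞)⁻¹) ^ (∑ i, n i) *
    Tt p s ^ (∑ i, aa (Jk := Jk) a i * n i) *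
    (Tt p s ^ (∑ k, Nk k * om pj k (Yy m v (gam c p) n)) *
      if tr pj C' (Yy m v (gam c p) n) = ϖ0 then 1 else 0)

theorem Zi_eq (hc : ∀ k j, c k j ≠ 0) (hm : ∀ k j, 0 < m k j) (L C C' : ℕ)
    (hL1 : 1 ≤ L) (hC1 : 1 ≤ C) (hne : ∀ k, Nonempty (Jk k))
    (hL : ∀ k j, ‖(p : ℤ_[p]) ^ L‖ < ‖((m k j : ℕ) : ℤ_[p])‖)
    (hC : ∀ q, Cj m p L q ≤ C) (hC' : ∀ q, Cj m p L q ≤ C') (s : ℝ) :
    Zi a Nk c m v p s = ∑ w ∈ Wf (ι := ι) (Jk := Jk) p L C,
      ∑ ϖ0 ∈ Fintype.piFinset (fun _ : Σ k, Jk k => Finset.range (C' + 1)),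
      ((p : ℝ≥0∞)⁻¹) ^ (∑ i, lv (Jk := Jk) (ι := ι) L C i) * Kk Nk c m v p L w ϖ0 s *
        Se a Nk c m v p C' ϖ0 s := by
  rw [Zi_sum a Nk c m v p hc hm L C hL1 hC1 hne hL hC s]
  rw [← (Equiv.arrowProdEquivProdArrow (ι ⊕ (Σ k, Jk k)) (fun _ => ℕ) (fun _ => ℕ)).symm.tsum_eq]
  rw [← (Equiv.prodComm _ _).tsum_eq]
  rw [ENNReal.tsum_prod']
  rw [tsum_eq_sum (s := Wf (ι := ι) (Jk := Jk) p L C)]
  swap
  · intro w hw
    rw [ENNReal.tsum_eq_zero]
    intro n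
    have h0 := prod_wt (Jk := Jk) (ι := ι) p L C n w
    rw [if_neg hw] at h0
    simp only [Equiv.prodComm_apply, Prod.swap_prod_mk, Equiv.arrowProdEquivProdArrow]
    change (∏ i, wt p (lv L C i) (n i, w i)) * _ = 0
    rw [h0, zero_mul]
  refine Finset.sum_congr rfl fun w hw => ?_
  have h1 : ∀ n : ι ⊕ (Σ k, Jk k) → ℕ, (∏ i, wt p (lv L C i) (n i, w i)) *
      ((∏ i, Tt p s ^ (a i * n (Sum.inl i))) * ∏ k, hf p (Nk k * s)
        (Mt m p L k (Yy m v (gam c p) n)) (Ak c m v p w k (Yy m v (gam c p) n))) =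
      ∑ ϖ0 ∈ Fintype.piFinset (fun _ : Σ k, Jk k => Finset.range (C' + 1)),
        ((p : ℝ≥0∞)⁻¹) ^ (∑ i, lv (Jk := Jk) (ι := ι) L C i) * Kk Nk c m v p L w ϖ0 s *
        (((p : ℝ≥0∞)⁻¹) ^ (∑ i, n i) * Tt p s ^ (∑ i, aa (Jk := Jk) a i * n i) *
        (Tt p s ^ (∑ k, Nk k * om pj k (Yy m v (gam c p) n)) *
        if tr pj C' (Yy m v (gam c p) n) = ϖ0 then 1 else 0)) := by
    intro n
    set y := Yy m v (gam c p) n with hy
    rw [Finset.sum_eq_single (tr pj C' y)]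
    · rw [if_pos rfl, prod_wt, if_pos hw, mul_one]
      have h2 : ∏ i, Tt p s ^ (a i * n (Sum.inl i)) = Tt p s ^ (∑ i, aa (Jk := Jk) a i * n i) := by
        rw [Finset.prod_pow_eq_pow_sum, Fintype.sum_sum_type]
        simp [aa]
      have h3 : ∏ k, hf p (Nk k * s) (Mt m p L k y) (Ak c m v p w k y) =
          Tt p s ^ (∑ k, Nk k * om pj k y) * Kk Nk c m v p L w (tr pj C' y) s := by
        rw [← Finset.prod_pow_eq_pow_sum, Kk, ← Finset.prod_mul_distrib]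
        refine Finset.prod_congr rfl fun k _ => ?_
        rw [hf_tr c m v p hne L C' hC' k w y, Tt_nat, ← pow_mul]
      rw [h2, h3]
      ring
    · intro ϖ _ hϖ
      rw [if_neg (fun h => hϖ h.symm), mul_zero, mul_zero, mul_zero]
    · intro h
      exfalso
      apply h
      rw [Fintype.mem_piFinset]
      intro q
      rw [Finset.mem_range]
      exact Nat.lt_succ_of_le (tr_le _ _ _ _)
  have h2 : ∀ n : ι ⊕ (Σ k, Jk k) → ℕ, (fun d : ι ⊕ (Σ k, Jk k) → ℕ × ℕ =>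
      (∏ i, wt p (lv L C i) (d i)) *
      ((∏ i, Tt p s ^ (a i * (d (Sum.inl i)).1)) *
      ∏ k, hf p (Nk k * s) (Mt m p L k (Yy m v (gam c p) (fun i => (d i).1)))
        (Ak c m v p (fun i => (d i).2) k (Yy m v (gam c p) (fun i => (d i).1)))))
      ((Equiv.arrowProdEquivProdArrow (ι ⊕ (Σ k, Jk k)) (fun _ => ℕ) (fun _ => ℕ)).symm
        ((Equiv.prodComm _ _) (w, n))) = _ := fun n => h1 n
  rw [tsum_congr h2, Summable.tsum_finsetSum (fun _ _ => ENNReal.summable)]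
  refine Finset.sum_congr rfl fun ϖ0 _ => ?_
  rw [ENNReal.tsum_mul_left, Se]

end Pool.Agent.W427.SMC
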