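import Pool.Agent.W427.SMC.Local

set_option autoImplicit false
set_option linter.unusedSectionVars false

/-! From the relation for `b` to a relation between difference operators. -/

namespace Pool.Agent.W427.SMC

open Finset MvPolynomial

variable {I J κ : Type} [Fintype I] [Fintype J] [Fintype κ] [DecidableEq J] [DecidableEq I]
  [DecidableEq κ] (π : J → κ) (N : κ → ℕ)
  (E : J → I → ℕ) (a : I → ℕ)

/-- the expected multiplicity of the value `v` of `T` -/
noncomputable def mul (p : ℕ) (b : Polynomial ℂ) (v : ℂ) : ℕ :=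
  b.rootMultiplicity ((-Real.log ‖v‖ / Real.log p : ℝ) : ℂ)

lemma mem_sup_pow (p : ℕ) (hp : 1 < p) (b : Polynomial ℂ) (hb : b ≠ 0) (S : Finset (J → ℤ))
    (hrel : RelOK π N E a b S) (P : J ⊕ Bool → ℂ)
    (hP : gI π N E a ((p : ℝ)⁻¹) S ≤ vanishingIdeal ℂ {P}) (B : ℕ) :
    (X (Sum.inr true) - C (P (Sum.inr true))) ^ mul p b (P (Sum.inr true)) ∈
      gI π N E a ((p : ℝ)⁻¹) S ⊔ (vanishingIdeal ℂ {P}) ^ B := by
  set m := vanishingIdeal ℂ {P} with hm
  set g := gI π N E a ((p : ℝ)⁻¹) S with hg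
  set K := g ⊔ m ^ B with hK
  rw [← Ideal.Quotient.eq_zero_iff_mem]
  have hmk : ∀ y ∈ g, Ideal.Quotient.mk K y = 0 := fun y hy =>
    Ideal.Quotient.eq_zero_iff_mem.2 (le_sup_left (a := g) (b := m ^ B) hy)
  have hev : ∀ y ∈ g, eval P y = 0 := fun y hy => by
    have := hP hy
    rw [hm, mem_vanishingIdeal_singleton_iff] at this
    simpa [coe_aeval_eq_eval] using this
  have hgK : ∀ k, gK π N k ∈ g := fun k => Ideal.subset_span (Or.inr (Or.inl ⟨k, rfl⟩))
  have hgT : (gT : MvPolynomial (J ⊕ Bool) ℂ) ∈ g := Ideal.subset_span (Or.inl rfl)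
  have hgE : ∀ e ∈ S, gE E a ((p : ℝ)⁻¹) e ∈ g := fun e he =>
    Ideal.subset_span (Or.inr (Or.inr ⟨e, he, rfl⟩))
  have halg : ∀ c : ℂ, algebraMap ℂ (MvPolynomial (J ⊕ Bool) ℂ ⧸ K) c =
      Ideal.Quotient.mk K (C c) := fun c => rfl
  have := local_eval π N E a p hp b hb S hrel (MvPolynomial (J ⊕ Bool) ℂ ⧸ K)
    (fun i => Ideal.Quotient.mk K (X i)) P ?_ ?_ ?_ ?_ ?_
  · rw [halg, ← map_sub, ← map_pow] at this
    exact this
  · intro i
    refine ⟨B, ?_⟩
    rw [halg, ← map_sub, ← map_pow, Ideal.Quotient.eq_zero_iff_mem]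
    refine le_sup_right (a := g) (b := m ^ B) (Ideal.pow_mem_pow ?_ B)
    rw [hm, mem_vanishingIdeal_singleton_iff]
    simp
  · have := hev _ hgT
    simpa [gT, sub_eq_zero] using this
  · intro k
    have := hev _ (hgK k)
    simpa [gK, sub_eq_zero] using this
  · intro k
    have := hmk _ (hgK k)
    rw [gK, map_sub, map_prod, map_pow, sub_eq_zero] at this
    exact this
  · intro e he
    have := hmk _ (hgE e he)
    simp only [gE, map_mul, map_prod, map_sub, map_one, map_pow] at this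
    exact this

lemma exists_unit (p : ℕ) (hp : 1 < p) (b : Polynomial ℂ) (hb : b ≠ 0) (S : Finset (J → ℤ))
    (hrel : RelOK π N E a b S) (P : J ⊕ Bool → ℂ)
    (hP : gI π N E a ((p : ℝ)⁻¹) S ≤ vanishingIdeal ℂ {P}) :
    ∃ h, h ∉ vanishingIdeal ℂ {P} ∧
    h * (X (Sum.inr true) - C (P (Sum.inr true))) ^ mul p b (P (Sum.inr true)) ∈
      gI π N E a ((p : ℝ)⁻¹) S := by
  set m := vanishingIdeal ℂ {P} with hm
  set g := gI π N E a ((p : ℝ)⁻¹) S with hg
  set y : MvPolynomial (J ⊕ Bool) ℂ :=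
    (X (Sum.inr true) - C (P (Sum.inr true))) ^ mul p b (P (Sum.inr true)) with hy
  have h1 : (Submodule.Quotient.mk y : MvPolynomial (J ⊕ Bool) ℂ ⧸ g) ∈
      (⨅ i : ℕ, m ^ i • ⊤ : Submodule (MvPolynomial (J ⊕ Bool) ℂ)
        (MvPolynomial (J ⊕ Bool) ℂ ⧸ g)) := by
    rw [Submodule.mem_iInf]
    intro B
    have h2 := mem_sup_pow π N E a p hp b hb S hrel P hP B
    obtain ⟨u, hu, w, hw, huw⟩ := Submodule.mem_sup.1 h2
    have h3 : (Submodule.Quotient.mk y : MvPolynomial (J ⊕ Bool) ℂ ⧸ g) =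
        w • (Submodule.Quotient.mk 1 : MvPolynomial (J ⊕ Bool) ℂ ⧸ g) := by
      rw [← Submodule.Quotient.mk_smul, smul_eq_mul, mul_one, Submodule.Quotient.eq, hy, ← huw,
        add_sub_cancel_right]
      exact hu
    rw [h3]
    exact Submodule.smul_mem_smul hw Submodule.mem_top
  obtain ⟨r, hr⟩ := (Ideal.mem_iInf_smul_pow_eq_bot_iff m _).1 h1
  refine ⟨1 - r, fun h => ?_, ?_⟩
  · have h4 : (1 : MvPolynomial (J ⊕ Bool) ℂ) ∈ m := by
      have := m.add_mem h r.2
      simpa using this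
    rw [hm, mem_vanishingIdeal_singleton_iff] at h4
    simp at h4
  · rw [← Submodule.Quotient.mk_smul, Submodule.Quotient.eq] at hr
    have h5 : (1 - (r : MvPolynomial (J ⊕ Bool) ℂ)) * y = -((r : MvPolynomial (J ⊕ Bool) ℂ) • y - y)
      := by rw [smul_eq_mul]; ring
    rw [h5]
    exact g.neg_mem hr

lemma rootMultiplicity_prod_le (V : Finset ℂ) (M : ℂ → ℕ) (v : ℂ) :
    (∏ w ∈ V, (Polynomial.X - Polynomial.C w) ^ M w).rootMultiplicity v ≤ M v := by
  classical
  rw [← Polynomial.count_roots, Polynomial.roots_prod]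
  · simp only [Polynomial.roots_pow, Polynomial.roots_X_sub_C]
    rw [Multiset.count_bind]
    simp only [Multiset.count_nsmul, Multiset.count_singleton]
    have : (V.val.map fun w => M w * if v = w then 1 else 0).sum =
        ∑ w ∈ V, M w * if v = w then 1 else 0 := rfl
    rw [this]
    simp only [mul_ite, mul_one, mul_zero]
    rw [Finset.sum_ite_eq]
    split_ifs <;> simp
  · exact Finset.prod_ne_zero_iff.2 fun w _ => pow_ne_zero _ (Polynomial.X_sub_C_ne_zero w)

/-- **Transfer.** -/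
theorem transfer (p : ℕ) (hp : 1 < p) (b : Polynomial ℂ) (hb : b ≠ 0) (S : Finset (J → ℤ))
    (hrel : RelOK π N E a b S) :
    ∃ β : Polynomial ℂ, β ≠ 0 ∧
      Polynomial.aeval (X (Sum.inr true) : MvPolynomial (J ⊕ Bool) ℂ) β ∈
        gI π N E a ((p : ℝ)⁻¹) S ∧
      ∀ v : ℂ, β.rootMultiplicity v ≤ mul p b v := by
  classical
  set g := gI π N E a ((p : ℝ)⁻¹) S with hg
  set H : Set (MvPolynomial (J ⊕ Bool) ℂ) := {h | ∃ v : ℂ,
    h * (X (Sum.inr true) - C v) ^ mul p b v ∈ g} with hH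
  have h1 : (1 : MvPolynomial (J ⊕ Bool) ℂ) ∈ Ideal.span H := by
    rw [← Ideal.eq_top_iff_one]
    by_contra hne
    obtain ⟨m, hm, hle⟩ := Ideal.exists_le_maximal _ hne
    obtain ⟨P, rfl⟩ := isMaximal_iff_eq_vanishingIdeal_singleton.1 hm
    have hgH : g ≤ vanishingIdeal ℂ {P} := by
      refine le_trans (fun y hy => Ideal.subset_span ?_) hle
      exact ⟨0, g.mul_mem_right _ hy⟩
    obtain ⟨h, hh, hmem⟩ := exists_unit π N E a p hp b hb S hrel P hgH
    exact hh (hle (Ideal.subset_span ⟨_, hmem⟩))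
  obtain ⟨F, hFH, hF⟩ := Submodule.mem_span_finite_of_mem_span h1
  choose! v hv using fun (h : MvPolynomial (J ⊕ Bool) ℂ) (hh : h ∈ H) => hh
  refine ⟨∏ w ∈ F.image v, (Polynomial.X - Polynomial.C w) ^ mul p b w,
    Finset.prod_ne_zero_iff.2 fun w _ => pow_ne_zero _ (Polynomial.X_sub_C_ne_zero w), ?_,
    rootMultiplicity_prod_le _ _⟩
  set β := ∏ w ∈ F.image v, (Polynomial.X - Polynomial.C w) ^ mul p b w with hβ
  have h2 : ∀ y ∈ Ideal.span (F : Set (MvPolynomial (J ⊕ Bool) ℂ)),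
      Polynomial.aeval (X (Sum.inr true) : MvPolynomial (J ⊕ Bool) ℂ) β * y ∈ g := by
    intro y hy
    induction hy using Submodule.span_induction with
    | mem h hh =>
      have h3 : (Polynomial.X - Polynomial.C (v h)) ^ mul p b (v h) ∣ β :=
        Finset.dvd_prod_of_mem (fun w => (Polynomial.X - Polynomial.C w) ^ mul p b w)
          (Finset.mem_image_of_mem v hh)
      obtain ⟨c, hc⟩ := h3
      have h4 := hv h (hFH hh)
      rw [hc, map_mul, map_pow, map_sub, Polynomial.aeval_X, Polynomial.aeval_C, algebraMap_eq]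
      have h5 : (X (Sum.inr true) - C (v h)) ^ mul p b (v h) *
          Polynomial.aeval (X (Sum.inr true) : MvPolynomial (J ⊕ Bool) ℂ) c * h =
          Polynomial.aeval (X (Sum.inr true) : MvPolynomial (J ⊕ Bool) ℂ) c *
            (h * (X (Sum.inr true) - C (v h)) ^ mul p b (v h)) := by ring
      rw [h5]
      exact g.mul_mem_left _ h4
    | zero => rw [mul_zero]; exact g.zero_mem
    | add x y _ _ hx hy => rw [mul_add]; exact g.add_mem hx hy
    | smul c x _ hx =>
      rw [smul_eq_mul, mul_left_comm]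
      exact g.mul_mem_left _ hx
  have := h2 1 hF
  rwa [mul_one] at this

end Pool.Agent.W427.SMC
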