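import Pool.Agent.W427.SMC.Pa6
import Pool.Agent.W427.SMC.Transfer

set_option autoImplicit false
set_option linter.unusedSectionVars false

/-! The zeta function times the polynomial is a Laurent polynomial. -/

namespace Pool.Agent.W427.SMC

open MeasureTheory Set
open scoped ENNReal

attribute [local instance] msZ bsZ

section padic

variable (p : ℕ) [Fact p.Prime]

/-- `p ^ (-s)` as a real number -/
noncomputable def tr' (s : ℝ) : ℝ := (p : ℝ) ^ (-s)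

lemma Tt_toReal (s : ℝ) : (Tt p s).toReal = tr' p s :=
  ENNReal.toReal_ofReal (Real.rpow_nonneg (Nat.cast_nonneg _) _)

lemma tr'_pos (s : ℝ) : 0 < tr' p s :=
  Real.rpow_pos_of_pos (by exact_mod_cast (Fact.out : p.Prime).pos) _

lemma tr'_lt (s : ℝ) (hs : 0 < s) : tr' p s < 1 :=
  Real.rpow_lt_one_of_one_lt_of_neg (by exact_mod_cast (Fact.out : p.Prime).one_lt) (by linarith)

lemma tr'_le (s : ℝ) (hs : 0 ≤ s) : tr' p s ≤ 1 :=
  Real.rpow_le_one_of_one_le_of_nonpos (by exact_mod_cast (Fact.out : p.Prime).one_lt.le)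
    (by linarith)

lemma tr'_nat (s : ℝ) (N : ℕ) : tr' p (N * s) = tr' p s ^ N := by
  rw [← Tt_toReal, Tt_nat, ENNReal.toReal_pow, Tt_toReal]

lemma hf_poly (N M : ℕ) (A : ℤ_[p]) : ∃ Q : Polynomial ℂ, ∀ s : ℝ, 0 ≤ s →
    ((p : ℂ) - (tr' p s : ℂ) ^ N) * ((hf p (N * s) M A).toReal : ℂ) = Q.eval (tr' p s : ℂ) := by
  unfold hf
  by_cases h : ‖(p : ℤ_[p]) ^ M‖ < ‖A‖
  · have hA : A ≠ 0 := by
      rintro rfl
      rw [norm_zero] at h
      exact absurd h (not_lt.2 (norm_nonneg _))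
    refine ⟨(Polynomial.C (p : ℂ) - Polynomial.X ^ N) * Polynomial.X ^ (N * A.valuation),
      fun s hs => ?_⟩
    rw [if_pos h]
    have h1 : tau p (N * s) A = Tt p s ^ (N * A.valuation) := by
      conv_lhs => rw [up_spec p A hA]
      rw [tau_mul, tau_unit p _ _ (up_norm p A), mul_one, tau_pow, tau_p, Tt_nat, ← pow_mul]
    rw [h1, ENNReal.toReal_pow, Tt_toReal]
    simp
  · refine ⟨Polynomial.X ^ (N * M) * Polynomial.C ((p : ℂ) - 1), fun s hs => ?_⟩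
    rw [if_neg h, ENNReal.toReal_mul, ENNReal.toReal_pow, Tt_toReal, tr'_nat, ← pow_mul]
    have h1 := phi_eq p (N * s) (by positivity)
    have h2 : (p : ℝ) ^ (-(N * s)) = tr' p s ^ N := tr'_nat p s N
    rw [h2] at h1
    have h3 : ((p : ℂ) - (tr' p s : ℂ) ^ N) * ((phi p (N * s)).toReal : ℂ) = (p : ℂ) - 1 := by
      exact_mod_cast h1
    simp only [Polynomial.eval_mul, Polynomial.eval_pow, Polynomial.eval_X, Polynomial.eval_C]
    rw [← h3]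
    push_cast
    ring

end padic

variable {ι κ : Type} [Fintype ι] [DecidableEq ι] [Fintype κ] [DecidableEq κ] {Jk : κ → Type}
  [∀ k, Fintype (Jk k)] [∀ k, DecidableEq (Jk k)]
  (a : ι → ℕ) (Nk : κ → ℕ) (c : (k : κ) → Jk k → ℤ) (m : (k : κ) → Jk k → ℕ)
  (v : (k : κ) → Jk k → ι → ℕ) (p : ℕ) [Fact p.Prime]

lemma Kk_poly (L : ℕ) (w : ι ⊕ (Σ k, Jk k) → ℕ) (ϖ : (Σ k, Jk k) → ℕ) :
    ∃ Q : Polynomial ℂ, ∀ s : ℝ, 0 ≤ s →
    (∏ k, ((p : ℂ) - (tr' p s : ℂ) ^ Nk k)) * ((Kk Nk c m v p L w ϖ s).toReal : ℂ) =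
      Q.eval (tr' p s : ℂ) := by
  choose Q hQ using fun k => hf_poly p (Nk k) (Mt m p L k ϖ) (Ak c m v p w k ϖ)
  refine ⟨∏ k, Q k, fun s hs => ?_⟩
  rw [Kk, ENNReal.toReal_prod, Complex.ofReal_prod, ← Finset.prod_mul_distrib,
    Polynomial.eval_prod]
  exact Finset.prod_congr rfl fun k _ => hQ k s hs

lemma Tt_le_one (s : ℝ) (hs : 0 ≤ s) : Tt p s ≤ 1 := by
  unfold Tt
  rw [ENNReal.ofReal_le_one]
  exact tr'_le p s hs

open Classical in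
lemma Se_complex (C' : ℕ) (ϖ0 : (Σ k, Jk k) → ℕ) (s : ℝ) (hs : 0 ≤ s) :
    ((Se a Nk c m v p C' ϖ0 s).toReal : ℂ) =
      ∑' n : ι ⊕ (Σ k, Jk k) → ℕ, (((p : ℝ)⁻¹ : ℝ) : ℂ) ^ (∑ i, n i) *
        (tr' p s : ℂ) ^ (∑ i, aa (Jk := Jk) a i * n i) *
        Gf pj Nk C' (fun x => if x = ϖ0 then 1 else 0) (tr' p s : ℂ)
          (fun q => ∑ i, EE m v q i * n i + gam c p q) := by
  have hT : Tt p s ≤ 1 := Tt_le_one p s hs
  have hp : ((p : ℝ≥0∞)⁻¹) ≤ 1 := by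
    rw [ENNReal.inv_le_one]
    exact_mod_cast (Fact.out : p.Prime).one_lt.le
  rw [Se, ENNReal.tsum_toReal_eq, Complex.ofReal_tsum]
  · refine tsum_congr fun n => ?_
    rw [ENNReal.toReal_mul, ENNReal.toReal_mul, ENNReal.toReal_mul, ENNReal.toReal_pow,
      ENNReal.toReal_pow, ENNReal.toReal_pow, ENNReal.toReal_inv, ENNReal.toReal_natCast,
      Tt_toReal]
    simp only [Complex.ofReal_mul, Complex.ofReal_pow]
    congr 1
    unfold Gf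
    have h1 : (fun q => ∑ i, EE m v q i * n i + gam c p q) = Yy m v (gam c p) n := rfl
    rw [h1]
    congr 1
    by_cases h : tr pj C' (Yy m v (gam c p) n) = ϖ0 <;> simp [h]
  · intro n
    refine ((mul_le_one' (mul_le_one' (pow_le_one' hp _) (pow_le_one' hT _))
      (mul_le_one' (pow_le_one' hT _) ?_)).trans_lt ENNReal.one_lt_top).ne
    split_ifs
    · exact le_rfl
    · exact zero_le_one

lemma Zi_le_one (s : ℝ) (hs : 0 ≤ s) : Zi a Nk c m v p s ≤ 1 := by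
  refine (lintegral_mono (g := fun _ => (1 : ℝ≥0∞)) fun z => tau_le_one p s hs _).trans ?_
  simp

/-- existence of the levels -/
lemma exists_lev (hm : ∀ k j, 0 < m k j) : ∃ L C : ℕ, 1 ≤ L ∧ 1 ≤ C ∧
    (∀ k j, ‖(p : ℤ_[p]) ^ L‖ < ‖((m k j : ℕ) : ℤ_[p])‖) ∧ ∀ q : Σ k, Jk k, Cj m p L q ≤ C := by
  classical
  set L : ℕ := ∑ q : Σ k, Jk k, (((m q.1 q.2 : ℕ) : ℤ_[p]).valuation + 1) + 1 with hL
  refine ⟨L, ∑ q : Σ k, Jk k, Cj m p L q + 1, by omega, by omega, ?_, ?_⟩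
  · intro k j
    have hm0 : ((m k j : ℕ) : ℤ_[p]) ≠ 0 := by exact_mod_cast (hm k j).ne'
    have h3 : ‖((m k j : ℕ) : ℤ_[p])‖ = ‖(p : ℤ_[p]) ^ ((m k j : ℕ) : ℤ_[p]).valuation‖ := by
      conv_lhs => rw [up_spec p _ hm0]
      rw [norm_mul, up_norm, mul_one]
    have h4 : ((m k j : ℕ) : ℤ_[p]).valuation < L := by
      have := Finset.single_le_sum (f := fun q : Σ k, Jk k =>
        (((m q.1 q.2 : ℕ) : ℤ_[p]).valuation + 1)) (fun _ _ => Nat.zero_le _)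
        (Finset.mem_univ (⟨k, j⟩ : Σ k, Jk k))
      simp only at this
      omega
    rw [h3, PadicInt.norm_p_pow, PadicInt.norm_p_pow]
    refine zpow_lt_zpow_right₀ (by exact_mod_cast (Fact.out : p.Prime).one_lt) (by omega)
  · intro q
    have := Finset.single_le_sum (f := fun q : Σ k, Jk k => Cj m p L q)
      (fun _ _ => Nat.zero_le _) (Finset.mem_univ q)
    omega

/-- **Main step.** -/
theorem Z_laur (hc : ∀ k j, c k j ≠ 0) (hm : ∀ k j, 0 < m k j) (hne : ∀ k, Nonempty (Jk k))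
    (S : Finset ((Σ k, Jk k) → ℤ))
    (hS : ∀ e ∈ S, ∀ k, ∑ j ∈ Finset.univ.filter (fun j => pj j = k), e j = (Nk k : ℤ))
    (β : Polynomial ℂ)
    (hβ : Polynomial.aeval (MvPolynomial.X (Sum.inr true) : MvPolynomial ((Σ k, Jk k) ⊕ Bool) ℂ) β ∈
      gI pj Nk (EE m v) (aa a) ((p : ℝ)⁻¹) S) :
    ∃ (P : Polynomial ℂ) (e : ℕ), ∀ s : ℝ, 0 ≤ s →
      (tr' p s : ℂ) ^ e * (β.eval (tr' p s : ℂ) * (∏ k, ((p : ℂ) - (tr' p s : ℂ) ^ Nk k)) *
        ((Zi a Nk c m v p s).toReal : ℂ)) = P.eval (tr' p s : ℂ) := by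
  classical
  obtain ⟨L, C, hL1, hC1, hL, hC⟩ := exists_lev m p hm
  have hp1 : (1 : ℝ) < p := by exact_mod_cast (Fact.out : p.Prime).one_lt
  choose Q hQ using fun w ϖ0 => Kk_poly Nk c m v p L w ϖ0
  have hlaur : IsLaur (fun T => ∑ w ∈ Wf (ι := ι) (Jk := Jk) p L C,
      ∑ ϖ0 ∈ Fintype.piFinset (fun _ : Σ k, Jk k => Finset.range (C + 1)),
      (Polynomial.C ((((p : ℝ)⁻¹ : ℝ) : ℂ) ^ (∑ i, lv (Jk := Jk) (ι := ι) L C i)) * Q w ϖ0).eval T *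
      (β.eval T * ∑' n : ι ⊕ (Σ k, Jk k) → ℕ, (((p : ℝ)⁻¹ : ℝ) : ℂ) ^ (∑ i, n i) *
        T ^ (∑ i, aa (Jk := Jk) a i * n i) *
        Gf pj Nk C (fun x => if x = ϖ0 then 1 else 0) T
          (fun q => ∑ i, EE m v q i * n i + gam c p q))) := by
    refine IsLaur.sum _ _ fun w _ => IsLaur.sum _ _ fun ϖ0 _ => ?_
    refine (IsLaur.poly _).mul ?_
    refine laur_beta pj Nk (EE m v) (aa a) (pj_surj hne) ((p : ℝ)⁻¹) (by positivity)
      (inv_lt_one_of_one_lt₀ hp1) C hC1 _ 1 ?_ S hS β hβ (gam c p)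
    intro x
    split_ifs <;> simp
  obtain ⟨P, e, hP⟩ := hlaur
  refine ⟨P, e, fun s hs => ?_⟩
  have ht0 : (tr' p s : ℂ) ≠ 0 := by exact_mod_cast (tr'_pos p s).ne'
  have ht1 : ‖(tr' p s : ℂ)‖ ≤ 1 := by
    rw [Complex.norm_real, Real.norm_of_nonneg (tr'_pos p s).le]
    exact tr'_le p s hs
  rw [← hP _ ht0 ht1]
  congr 1
  have hZ := Zi_eq a Nk c m v p hc hm L C C hL1 hC1 hne hL hC hC s
  have hfin : Zi a Nk c m v p s ≠ ⊤ := ((Zi_le_one a Nk c m v p s hs).trans_lt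
    ENNReal.one_lt_top).ne
  have hfin2 : ∀ w ∈ Wf (ι := ι) (Jk := Jk) p L C,
      ∀ ϖ0 ∈ Fintype.piFinset (fun _ : Σ k, Jk k => Finset.range (C + 1)),
      ((p : ℝ≥0∞)⁻¹) ^ (∑ i, lv (Jk := Jk) (ι := ι) L C i) * Kk Nk c m v p L w ϖ0 s *
        Se a Nk c m v p C ϖ0 s ≠ ⊤ := by
    intro w hw ϖ0 hϖ0 h
    apply hfin
    rw [hZ]
    rw [ENNReal.sum_eq_top]
    refine ⟨w, hw, ?_⟩
    rw [ENNReal.sum_eq_top]
    exact ⟨ϖ0, hϖ0, h⟩
  have hZ2 : ((Zi a Nk c m v p s).toReal : ℂ) = ∑ w ∈ Wf (ι := ι) (Jk := Jk) p L C,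
      ∑ ϖ0 ∈ Fintype.piFinset (fun _ : Σ k, Jk k => Finset.range (C + 1)),
      (((p : ℝ)⁻¹ : ℝ) : ℂ) ^ (∑ i, lv (Jk := Jk) (ι := ι) L C i) *
        ((Kk Nk c m v p L w ϖ0 s).toReal : ℂ) * ((Se a Nk c m v p C ϖ0 s).toReal : ℂ) := by
    rw [hZ, ENNReal.toReal_sum, Complex.ofReal_sum]
    · refine Finset.sum_congr rfl fun w hw => ?_
      rw [ENNReal.toReal_sum (hfin2 w hw), Complex.ofReal_sum]
      refine Finset.sum_congr rfl fun ϖ0 _ => ?_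
      rw [ENNReal.toReal_mul, ENNReal.toReal_mul, ENNReal.toReal_pow, ENNReal.toReal_inv,
        ENNReal.toReal_natCast]
      push_cast
      ring
    · intro w hw
      rw [Ne, ENNReal.sum_eq_top]
      rintro ⟨ϖ0, hϖ0, h⟩
      exact hfin2 w hw ϖ0 hϖ0 h
  rw [hZ2, Finset.mul_sum]
  refine Finset.sum_congr rfl fun w _ => ?_
  rw [Finset.mul_sum]
  refine Finset.sum_congr rfl fun ϖ0 _ => ?_
  rw [Polynomial.eval_mul, Polynomial.eval_C, ← hQ w ϖ0 s hs, Se_complex a Nk c m v p C ϖ0 s hs]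
  ring

end Pool.Agent.W427.SMC
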