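import Pool.Agent.W427.SMC.Igusa

set_option autoImplicit false
set_option linter.unusedSectionVars false

/-! Igusa's Poincare series and the integral. -/

namespace Pool.Agent.W427.SMC

open MeasureTheory MvPolynomial
open scoped ENNReal

attribute [local instance] msZ bsZ

section

variable (p : ℕ) [Fact p.Prime]

lemma meas_res (m : ℕ) (w : ZMod (p ^ m)) :
    MeasurableSet {t : ℤ_[p] | PadicInt.toZModPow m t = w} := by
  have hp : NeZero (p ^ m) := ⟨pow_ne_zero _ (Fact.out : p.Prime).ne_zero⟩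
  have h1 : {t : ℤ_[p] | PadicInt.toZModPow m t = w} =
      {t : ℤ_[p] | ‖t - (w.val : ℤ_[p])‖ ≤ ‖(p : ℤ_[p]) ^ m‖} := by
    ext t
    rw [Set.mem_ofPred_eq, Set.mem_ofPred_eq, ← dvd_iff_norm, ← Ideal.mem_span_singleton,
      ← PadicInt.ker_toZModPow, RingHom.mem_ker, map_sub, map_natCast, ZMod.natCast_zmod_val,
      sub_eq_zero]
  rw [h1]
  exact (isClosed_le (continuous_norm.comp (continuous_id.sub continuous_const))
    continuous_const).measurableSet

lemma mu_res (m : ℕ) (w : ZMod (p ^ m)) :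
    mu p {t : ℤ_[p] | PadicInt.toZModPow m t = w} = ((p : ℝ≥0∞)⁻¹) ^ m := by
  have hp : NeZero (p ^ m) := ⟨pow_ne_zero _ (Fact.out : p.Prime).ne_zero⟩
  rw [← lintegral_indicator_one (meas_res p m w),
    lintegral_sm p m _ (measurable_one.indicator (meas_res p m w)), sm, Finset.sum_eq_single w]
  · have h1 : ∀ z : ℤ_[p], ({t : ℤ_[p] | PadicInt.toZModPow m t = w} : Set ℤ_[p]).indicator
        (1 : ℤ_[p] → ℝ≥0∞) ((w.val : ℤ_[p]) + (p : ℤ_[p]) ^ m * z) = 1 := by
      intro z
      rw [Set.indicator_of_mem, Pi.one_apply]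
      rw [Set.mem_ofPred_eq, map_add, map_natCast, ZMod.natCast_zmod_val, map_mul, map_pow,
        map_natCast]
      have : ((p : ZMod (p ^ m)) ^ m) = 0 := by
        have := ZMod.natCast_self (p ^ m)
        rwa [Nat.cast_pow] at this
      rw [this, zero_mul, add_zero]
    rw [lintegral_congr h1]
    simp
  · intro w' _ hw'
    have h1 : ∀ z : ℤ_[p], ({t : ℤ_[p] | PadicInt.toZModPow m t = w} : Set ℤ_[p]).indicator
        (1 : ℤ_[p] → ℝ≥0∞) ((w'.val : ℤ_[p]) + (p : ℤ_[p]) ^ m * z) = 0 := by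
      intro z
      rw [Set.indicator_of_notMem]
      rw [Set.mem_ofPred_eq, map_add, map_natCast, ZMod.natCast_zmod_val, map_mul, map_pow,
        map_natCast]
      have : ((p : ZMod (p ^ m)) ^ m) = 0 := by
        have := ZMod.natCast_self (p ^ m)
        rwa [Nat.cast_pow] at this
      rw [this, zero_mul, add_zero]
      exact hw'
    rw [lintegral_congr h1]
    simp
  · intro h
    exact absurd (Finset.mem_univ _) h

variable {V : Type} [Fintype V] (f : MvPolynomial V ℤ)

lemma toZ_aeval (m : ℕ) (z : V → ℤ_[p]) :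
    PadicInt.toZModPow m (aeval z f) = aeval (fun i => PadicInt.toZModPow m (z i)) f := by
  have h := comp_aeval z ((PadicInt.toZModPow m : ℤ_[p] →+* ZMod (p ^ m)).toIntAlgHom)
  exact DFunLike.congr_fun h f

lemma mu_sol (m : ℕ) :
    (Measure.pi fun _ : V => mu p) {z | (p : ℤ_[p]) ^ m ∣ aeval z f} =
      (solCount p m f : ℝ≥0∞) * (((p : ℝ≥0∞)⁻¹) ^ (Fintype.card V)) ^ m := by
  classical
  have hp : NeZero (p ^ m) := ⟨pow_ne_zero _ (Fact.out : p.Prime).ne_zero⟩
  have h1 : ({z | (p : ℤ_[p]) ^ m ∣ aeval z f} : Set (V → ℤ_[p])) =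
      ⋃ w ∈ (Finset.univ.filter fun w : V → ZMod (p ^ m) => aeval w f = 0),
        Set.pi Set.univ fun i => {t : ℤ_[p] | PadicInt.toZModPow m t = w i} := by
    ext z
    simp only [Finset.mem_filter, Finset.mem_univ, true_and, Set.mem_iUnion, Set.mem_pi,
      Set.mem_ofPred_eq, exists_prop]
    rw [← Ideal.mem_span_singleton, ← PadicInt.ker_toZModPow, RingHom.mem_ker, toZ_aeval]
    constructor
    · intro h
      exact ⟨_, h, fun _ _ => rfl⟩
    · rintro ⟨w, hw, h⟩
      rw [← hw]
      congr 2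
      funext i
      exact h i (Set.mem_univ i)
  rw [h1, measure_biUnion_finset]
  · have h2 : ∀ w : V → ZMod (p ^ m), (Measure.pi fun _ : V => mu p)
        (Set.pi Set.univ fun i => {t : ℤ_[p] | PadicInt.toZModPow m t = w i}) =
        (((p : ℝ≥0∞)⁻¹) ^ (Fintype.card V)) ^ m := by
      intro w
      rw [Measure.pi_pi]
      simp only [mu_res, Finset.prod_const, Finset.card_univ]
      rw [← pow_mul, ← pow_mul, mul_comm]
    simp only [h2, Finset.sum_const, nsmul_eq_mul]
    congr 2
    rw [solCount, Nat.card_eq_fintype_card, Fintype.card_subtype]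
  · intro w _ w' _ hww'
    rw [Function.onFun, Set.disjoint_left]
    intro z hz hz'
    apply hww'
    funext i
    have h3 := hz i (Set.mem_univ i)
    have h4 := hz' i (Set.mem_univ i)
    rw [Set.mem_ofPred_eq] at h3 h4
    rw [← h3, h4]
  · intro w _
    exact MeasurableSet.univ_pi fun i => meas_res p m (w i)

end

end Pool.Agent.W427.SMC
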