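import Pool.Agent.W427.SMC.Poin1

set_option autoImplicit false
set_option linter.unusedSectionVars false

/-! The relation between the Poincare series and the integral. -/

namespace Pool.Agent.W427.SMC

open MeasureTheory MvPolynomial
open scoped ENNReal

attribute [local instance] msZ bsZ

variable (p : ℕ) [Fact p.Prime]

lemma dvd_iff_val (m : ℕ) (z : ℤ_[p]) (hz : z ≠ 0) : (p : ℤ_[p]) ^ m ∣ z ↔ m ≤ z.valuation := by
  rw [← Ideal.mem_span_singleton, PadicInt.mem_span_pow_iff_le_valuation z hz]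

lemma Tt_lt_one (s : ℝ) (hs : 0 < s) : Tt p s < 1 := by
  unfold Tt
  rw [ENNReal.ofReal_lt_one]
  exact tr'_lt p s hs

open Classical in
lemma tau_id (s : ℝ) (hs : 0 < s) (z : ℤ_[p]) :
    tau p s z + (1 - Tt p s) * ∑' m : ℕ, (if (p : ℤ_[p]) ^ (m + 1) ∣ z then Tt p s ^ m else 0) =
      1 := by
  have hT := Tt_lt_one p s hs
  have h0 : 1 - Tt p s ≠ 0 := (tsub_pos_of_lt hT).ne'
  have h1 : 1 - Tt p s ≠ ⊤ := (lt_of_le_of_lt tsub_le_self ENNReal.one_lt_top).ne
  have h2 : Tt p s + (1 - Tt p s) = 1 := add_tsub_cancel_of_le hT.le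
  rcases eq_or_ne z 0 with rfl | hz
  · have h3 : tau p s 0 = 0 := by
      unfold tau
      rw [norm_zero, Real.zero_rpow hs.ne', ENNReal.ofReal_zero]
    simp only [dvd_zero, if_true]
    rw [h3, ENNReal.tsum_geometric, ENNReal.mul_inv_cancel h0 h1, zero_add]
  · have h3 : tau p s z = Tt p s ^ z.valuation := by
      conv_lhs => rw [up_spec p z hz]
      rw [tau_mul, tau_unit p _ _ (up_norm p z), mul_one, tau_pow, tau_p]
    have h4 : ∑' m : ℕ, (if (p : ℤ_[p]) ^ (m + 1) ∣ z then Tt p s ^ m else 0) =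
        ∑ m ∈ Finset.range z.valuation, Tt p s ^ m := by
      rw [tsum_eq_sum (s := Finset.range z.valuation)]
      · refine Finset.sum_congr rfl fun m hm => ?_
        rw [if_pos]
        rw [dvd_iff_val p _ z hz]
        exact Finset.mem_range.1 hm
      · intro m hm
        rw [if_neg]
        rw [dvd_iff_val p _ z hz]
        intro h
        exact hm (Finset.mem_range.2 h)
    have h5 : ∀ n : ℕ, Tt p s ^ n + (1 - Tt p s) * ∑ m ∈ Finset.range n, Tt p s ^ m = 1 := by
      intro n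
      induction n with
      | zero => simp
      | succ n ih =>
        rw [Finset.sum_range_succ, mul_add, pow_succ]
        calc Tt p s ^ n * Tt p s + ((1 - Tt p s) * ∑ m ∈ Finset.range n, Tt p s ^ m +
              (1 - Tt p s) * Tt p s ^ n) =
            Tt p s ^ n * (Tt p s + (1 - Tt p s)) +
              (1 - Tt p s) * ∑ m ∈ Finset.range n, Tt p s ^ m := by ring
          _ = 1 := by rw [h2, mul_one, ih]
    rw [h3, h4, h5]

variable {V : Type} [Fintype V] (f : MvPolynomial V ℤ)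

lemma aeval_cont : Continuous (fun x : V → ℤ_[p] => aeval x f) := by
  have : (fun x : V → ℤ_[p] => aeval x f) =
      fun x => eval x (map (Int.castRingHom ℤ_[p]) f) := by
    funext x
    rw [aeval_def, eval_map]
    rfl
  rw [this]
  exact MvPolynomial.continuous_eval _

/-- the normalised number of solutions -/
noncomputable def cN (m : ℕ) : ℝ := (solCount p m f : ℝ) * (((p : ℝ) ^ (Fintype.card V))⁻¹) ^ m

lemma cN_eq (m : ℕ) : ((Measure.pi fun _ : V => mu p) {z | (p : ℤ_[p]) ^ m ∣ aeval z f}).toReal =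
    cN p f m := by
  rw [mu_sol, cN]
  simp [ENNReal.toReal_mul, ENNReal.toReal_pow, ENNReal.toReal_inv]

lemma cN_nonneg (m : ℕ) : 0 ≤ cN p f m := by
  rw [← cN_eq]; exact ENNReal.toReal_nonneg

lemma cN_le_one (m : ℕ) : cN p f m ≤ 1 := by
  rw [← cN_eq]
  refine ENNReal.toReal_le_of_le_ofReal zero_le_one ?_
  rw [ENNReal.ofReal_one]
  exact prob_le_one

lemma cN_zero : cN p f 0 = 1 := by
  rw [← cN_eq]
  have : ({z | (p : ℤ_[p]) ^ 0 ∣ aeval z f} : Set (V → ℤ_[p])) = Set.univ := by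
    ext z; simp
  rw [this, measure_univ, ENNReal.toReal_one]

open Classical in
lemma Z_add (s : ℝ) (hs : 0 < s) :
    ∫⁻ z, tau p s (aeval z f) ∂(Measure.pi fun _ : V => mu p) + (1 - Tt p s) *
      ∑' m : ℕ, Tt p s ^ m *
        (Measure.pi fun _ : V => mu p) {z | (p : ℤ_[p]) ^ (m + 1) ∣ aeval z f} = 1 := by
  have hcl : ∀ m : ℕ, MeasurableSet {z : V → ℤ_[p] | (p : ℤ_[p]) ^ m ∣ aeval z f} := by
    intro m
    have : {z : V → ℤ_[p] | (p : ℤ_[p]) ^ m ∣ aeval z f} =
        {z : V → ℤ_[p] | ‖aeval z f‖ ≤ ‖(p : ℤ_[p]) ^ m‖} := by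
      ext z; rw [Set.mem_ofPred_eq, Set.mem_ofPred_eq, dvd_iff_norm]
    rw [this]
    exact (isClosed_le (continuous_norm.comp (aeval_cont p f)) continuous_const).measurableSet
  have h1 : ∀ m : ℕ, Tt p s ^ m *
        (Measure.pi fun _ : V => mu p) {z | (p : ℤ_[p]) ^ (m + 1) ∣ aeval z f} =
      ∫⁻ z, (if (p : ℤ_[p]) ^ (m + 1) ∣ aeval z f then Tt p s ^ m else 0)
        ∂(Measure.pi fun _ : V => mu p) := by
    intro m
    rw [← lintegral_indicator_const (hcl (m + 1))]
    refine lintegral_congr fun z => ?_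
    by_cases h : (p : ℤ_[p]) ^ (m + 1) ∣ aeval z f
    · rw [if_pos h, Set.indicator_of_mem (by exact h)]
    · rw [if_neg h, Set.indicator_of_notMem (by exact h)]
  have hm : ∀ m : ℕ, Measurable (fun z : V → ℤ_[p] =>
      (if (p : ℤ_[p]) ^ (m + 1) ∣ aeval z f then Tt p s ^ m else 0)) := fun m =>
    Measurable.ite (hcl (m + 1)) measurable_const measurable_const
  simp only [h1]
  rw [← lintegral_tsum (fun m => (hm m).aemeasurable),
    ← lintegral_const_mul _ (Measurable.ennreal_tsum hm)]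
  refine (lintegral_add_left ((tau_meas p s).comp (aeval_cont p f).measurable) _).symm.trans ?_
  simp only [Function.comp_apply]
  rw [lintegral_congr (g := fun _ => 1) fun z => tau_id p s hs (aeval z f)]
  simp

/-- The value of the Poincare series. -/
theorem poin_val (s : ℝ) (hs : 0 < s) :
    (1 - tr' p s) * ∑' m : ℕ, cN p f m * tr' p s ^ m =
      1 - tr' p s * (∫⁻ z, tau p s (aeval z f) ∂(Measure.pi fun _ : V => mu p)).toReal := by
  have hT := Tt_lt_one p s hs
  have h1 : 1 - Tt p s ≠ ⊤ := (lt_of_le_of_lt tsub_le_self ENNReal.one_lt_top).ne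
  set Z := ∫⁻ z, tau p s (aeval z f) ∂(Measure.pi fun _ : V => mu p) with hZ
  set A : ℝ≥0∞ := ∑' m : ℕ, Tt p s ^ m *
        (Measure.pi fun _ : V => mu p) {z | (p : ℤ_[p]) ^ (m + 1) ∣ aeval z f} with hA
  have h2 : Z + (1 - Tt p s) * A = 1 := Z_add p f s hs
  have hZt : Z ≠ ⊤ := by
    intro h
    rw [h] at h2
    simp at h2
  have hBt : (1 - Tt p s) * A ≠ ⊤ := by
    intro h
    rw [h] at h2
    simp at h2
  have h3 := congrArg ENNReal.toReal h2
  rw [ENNReal.toReal_add hZt hBt, ENNReal.toReal_mul, ENNReal.toReal_sub_of_le hT.le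
    ENNReal.one_ne_top, ENNReal.toReal_one, Tt_toReal] at h3
  have h4 : A.toReal = ∑' m : ℕ, cN p f (m + 1) * tr' p s ^ m := by
    rw [hA, ENNReal.tsum_toReal_eq]
    · refine tsum_congr fun m => ?_
      rw [ENNReal.toReal_mul, ENNReal.toReal_pow, Tt_toReal, cN_eq, mul_comm]
    · intro m
      exact ENNReal.mul_ne_top (ENNReal.pow_ne_top (hT.trans ENNReal.one_lt_top).ne)
        (measure_ne_top _ _)
  have ht0 := tr'_pos p s
  have ht1 := tr'_lt p s hs
  have hsum : Summable fun m : ℕ => cN p f m * tr' p s ^ m := by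
    refine Summable.of_nonneg_of_le (fun m => mul_nonneg (cN_nonneg p f m) (pow_nonneg ht0.le m))
      (fun m => ?_) (summable_geometric_of_lt_one ht0.le ht1)
    have := mul_le_mul_of_nonneg_right (cN_le_one p f m) (pow_nonneg ht0.le m)
    rwa [one_mul] at this
  rw [hsum.tsum_eq_zero_add, cN_zero, pow_zero, mul_one]
  have h5 : ∑' m : ℕ, cN p f (m + 1) * tr' p s ^ (m + 1) = tr' p s * A.toReal := by
    rw [h4, ← tsum_mul_left]
    refine tsum_congr fun m => ?_
    ring
  rw [h5]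
  linear_combination (tr' p s) * h3

end Pool.Agent.W427.SMC
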