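import Pool.Agent.W427.SMC.Poin2

set_option autoImplicit false
set_option linter.unusedSectionVars false

/-! The Poincare series as a rational function. -/

namespace Pool.Agent.W427.SMC

open Polynomial

/-- convergence of a power series on `(0, 1)` with the given sum -/
def Conv (F : PowerSeries ℂ) (S : ℝ → ℂ) : Prop :=
  ∀ t : ℝ, 0 < t → t < 1 → Summable (fun m => ‖PowerSeries.coeff m F‖ * t ^ m) ∧
    HasSum (fun m => PowerSeries.coeff m F * (t : ℂ) ^ m) (S t)

lemma Conv.add {F G : PowerSeries ℂ} {S R : ℝ → ℂ} (hF : Conv F S) (hG : Conv G R) :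
    Conv (F + G) (fun t => S t + R t) := by
  intro t h0 h1
  obtain ⟨a, b⟩ := hF t h0 h1
  obtain ⟨c, d⟩ := hG t h0 h1
  refine ⟨Summable.of_nonneg_of_le (fun m => by positivity) (fun m => ?_) (a.add c), ?_⟩
  · rw [map_add, ← add_mul]
    exact mul_le_mul_of_nonneg_right (norm_add_le _ _) (pow_nonneg h0.le m)
  · have := b.add d
    simp only [map_add, add_mul]
    exact this

lemma Conv.C_mul {F : PowerSeries ℂ} {S : ℝ → ℂ} (hF : Conv F S) (a : ℂ) :
    Conv (PowerSeries.C a * F) (fun t => a * S t) := by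
  intro t h0 h1
  obtain ⟨b, c⟩ := hF t h0 h1
  simp only [PowerSeries.coeff_C_mul, norm_mul, mul_assoc]
  exact ⟨b.mul_left _, c.mul_left _⟩

lemma Conv.X_mul {F : PowerSeries ℂ} {S : ℝ → ℂ} (hF : Conv F S) :
    Conv (PowerSeries.X * F) (fun t => (t : ℂ) * S t) := by
  intro t h0 h1
  obtain ⟨b, c⟩ := hF t h0 h1
  constructor
  · rw [← summable_nat_add_iff 1]
    simp only [PowerSeries.coeff_succ_X_mul]
    refine (b.mul_left t).congr fun m => ?_
    ring
  · rw [← hasSum_nat_add_iff' 1]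
    simp only [Finset.range_one, Finset.sum_singleton, PowerSeries.coeff_zero_X_mul, zero_mul,
      sub_zero, PowerSeries.coeff_succ_X_mul]
    have h2 := c.mul_left (t : ℂ)
    have h3 : (fun m => PowerSeries.coeff m F * (t : ℂ) ^ (m + 1)) =
        fun m => (t : ℂ) * (PowerSeries.coeff m F * (t : ℂ) ^ m) := by
      funext m; ring
    rw [h3]
    exact h2

lemma Conv.congr {F : PowerSeries ℂ} {S R : ℝ → ℂ} (hF : Conv F S)
    (h : ∀ t : ℝ, 0 < t → t < 1 → S t = R t) : Conv F R := fun t h0 h1 => by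
  rw [← h t h0 h1]
  exact hF t h0 h1

lemma Conv.poly_mul {F : PowerSeries ℂ} {S : ℝ → ℂ} (hF : Conv F S) (D : ℂ[X]) :
    Conv ((D : PowerSeries ℂ) * F) (fun t => D.eval (t : ℂ) * S t) := by
  induction D using Polynomial.induction_on with
  | C a =>
    rw [Polynomial.coe_C]
    simpa using hF.C_mul a
  | add p q hp hq =>
    rw [Polynomial.coe_add, add_mul]
    refine (hp.add hq).congr fun t _ _ => ?_
    rw [eval_add]; ring
  | monomial n a h =>
    have h1 : ((C a * X ^ (n + 1) : ℂ[X]) : PowerSeries ℂ) * F =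
        PowerSeries.X * (((C a * X ^ n : ℂ[X]) : PowerSeries ℂ) * F) := by
      simp only [Polynomial.coe_mul, Polynomial.coe_C, Polynomial.coe_pow, Polynomial.coe_X]
      ring
    rw [h1]
    refine h.X_mul.congr fun t _ _ => ?_
    simp only [eval_mul, eval_C, eval_pow, eval_X]
    ring

lemma Conv.one : Conv 1 (fun _ => 1) := by
  intro t h0 h1
  have h2 : ∀ m : ℕ, m ≠ 0 → PowerSeries.coeff m (1 : PowerSeries ℂ) = 0 := by
    intro m hm
    rw [PowerSeries.coeff_one, if_neg hm]
  constructor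
  · refine summable_of_ne_finset_zero (s := {0}) fun m hm => ?_
    rw [h2 m (by simpa using hm)]
    simp
  · have h3 := hasSum_single (f := fun m : ℕ => PowerSeries.coeff m (1 : PowerSeries ℂ) *
      (t : ℂ) ^ m) 0 (fun m hm => by
        rw [h2 m hm, zero_mul])
    simpa using h3

lemma Conv.poly (D : ℂ[X]) : Conv (D : PowerSeries ℂ) (fun t => D.eval (t : ℂ)) := by
  have h := Conv.one.poly_mul D
  rw [mul_one] at h
  exact h.congr fun t _ _ => mul_one _

lemma Conv.zero_of {F : PowerSeries ℂ} (hF : Conv F (fun _ => 0)) : F = 0 := by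
  ext n
  rw [map_zero]
  induction n using Nat.strong_induction_on with
  | _ n ih =>
    set M : ℝ := ∑' j : ℕ, ‖PowerSeries.coeff (j + (n + 1)) F‖ * (1 / 2 : ℝ) ^ j with hM
    have hs0 := (hF (1 / 2) (by norm_num) (by norm_num)).1
    have hs1 : Summable (fun j : ℕ => ‖PowerSeries.coeff (j + (n + 1)) F‖ * (1 / 2 : ℝ) ^ j) := by
      have h1 := ((summable_nat_add_iff (n + 1)).2 hs0).mul_left ((2 : ℝ) ^ (n + 1))
      refine h1.congr fun j => ?_
      rw [pow_add]
      have : (2 : ℝ) ^ (n + 1) * (1 / 2) ^ (n + 1) = 1 := by rw [← mul_pow]; norm_num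
      linear_combination (‖PowerSeries.coeff (j + (n + 1)) F‖ * (1 / 2 : ℝ) ^ j) * this
    have key : ∀ t : ℝ, 0 < t → t ≤ 1 / 2 → ‖PowerSeries.coeff n F‖ ≤ t * M := by
      intro t h0 h1
      obtain ⟨a, b⟩ := hF t h0 (by linarith)
      have h2 : HasSum (fun j => PowerSeries.coeff (j + (n + 1)) F * (t : ℂ) ^ (j + (n + 1)))
          (0 - ∑ i ∈ Finset.range (n + 1), PowerSeries.coeff i F * (t : ℂ) ^ i) :=
        (hasSum_nat_add_iff' (n + 1)).2 b
      rw [Finset.sum_range_succ, Finset.sum_eq_zero, zero_add, zero_sub] at h2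
      swap
      · intro i hi
        rw [ih i (Finset.mem_range.1 hi), zero_mul]
      have ht0 : (t : ℂ) ≠ 0 := by exact_mod_cast h0.ne'
      have h3 := h2.mul_left (((t : ℂ) ^ n)⁻¹)
      have h4 : ((t : ℂ) ^ n)⁻¹ * -(PowerSeries.coeff n F * (t : ℂ) ^ n) = -PowerSeries.coeff n F := by
        field_simp
      rw [h4] at h3
      rw [← norm_neg, ← h3.tsum_eq]
      have h5 : ∀ j : ℕ, ‖((t : ℂ) ^ n)⁻¹ * (PowerSeries.coeff (j + (n + 1)) F *
          (t : ℂ) ^ (j + (n + 1)))‖ ≤ t * (‖PowerSeries.coeff (j + (n + 1)) F‖ * (1 / 2 : ℝ) ^ j) := by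
        intro j
        have h6 : ((t : ℂ) ^ n)⁻¹ * (PowerSeries.coeff (j + (n + 1)) F * (t : ℂ) ^ (j + (n + 1))) =
            (t : ℂ) * (PowerSeries.coeff (j + (n + 1)) F * (t : ℂ) ^ j) := by
          field_simp
          ring
        rw [h6, norm_mul, norm_mul, norm_pow, Complex.norm_real, Real.norm_of_nonneg h0.le]
        refine mul_le_mul_of_nonneg_left (mul_le_mul_of_nonneg_left ?_ (norm_nonneg _)) h0.le
        exact pow_le_pow_left₀ h0.le h1 j
      refine (tsum_of_norm_bounded (hs1.mul_left t).hasSum h5).trans ?_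
      rw [tsum_mul_left]
    have hM0 : 0 ≤ M := tsum_nonneg fun j => by positivity
    by_contra hne
    have hpos : 0 < ‖PowerSeries.coeff n F‖ := norm_pos_iff.2 hne
    have h1 := key (min (1 / 2) (‖PowerSeries.coeff n F‖ / (2 * (M + 1))))
      (lt_min (by norm_num) (by positivity)) (min_le_left _ _)
    have h2 : min (1 / 2) (‖PowerSeries.coeff n F‖ / (2 * (M + 1))) * M ≤
        ‖PowerSeries.coeff n F‖ / (2 * (M + 1)) * (M + 1) := by
      refine mul_le_mul (min_le_right _ _) (by linarith) hM0 (by positivity)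
    have h3 : ‖PowerSeries.coeff n F‖ / (2 * (M + 1)) * (M + 1) = ‖PowerSeries.coeff n F‖ / 2 := by
      field_simp
    linarith

end Pool.Agent.W427.SMC
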