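import Pool.Agent.W427.SMC.Poin3

set_option autoImplicit false
set_option linter.unusedSectionVars false

/-! The Poincare series: the theorem. -/

namespace Pool.Agent.W427.SMC

open Polynomial MeasureTheory

attribute [local instance] msZ bsZ

section

variable (p : ℕ) [Fact p.Prime] {V : Type} [Fintype V] (f : MvPolynomial V ℤ)

lemma coeff_poincare (m : ℕ) : PowerSeries.coeff m (poincare p f) = (cN p f m : ℂ) := by
  rw [poincare, PowerSeries.coeff_mk, cN]
  push_cast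
  ring

lemma poincare_conv : Conv (poincare p f) (fun t => ∑' m : ℕ, (cN p f m : ℂ) * (t : ℂ) ^ m) := by
  intro t h0 h1
  have h2 : Summable (fun m => ‖PowerSeries.coeff m (poincare p f)‖ * t ^ m) := by
    refine Summable.of_nonneg_of_le (fun m => by positivity) (fun m => ?_)
      (summable_geometric_of_lt_one h0.le h1)
    rw [coeff_poincare, Complex.norm_real, Real.norm_of_nonneg (cN_nonneg p f m)]
    have := mul_le_mul_of_nonneg_right (cN_le_one p f m) (pow_nonneg h0.le m)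
    rwa [one_mul] at this
  refine ⟨h2, ?_⟩
  have h3 : Summable (fun m => PowerSeries.coeff m (poincare p f) * (t : ℂ) ^ m) := by
    refine Summable.of_norm (h2.congr fun m => ?_)
    rw [norm_mul, norm_pow, Complex.norm_real, Real.norm_of_nonneg h0.le]
  have h4 := h3.hasSum
  simp only [coeff_poincare] at h4 ⊢
  exact h4

lemma exists_s (t : ℝ) (h0 : 0 < t) (h1 : t < 1) : ∃ s : ℝ, 0 < s ∧ tr' p s = t := by
  have hp : (0 : ℝ) < p := by exact_mod_cast (Fact.out : p.Prime).pos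
  have hl := log_p_pos p
  refine ⟨-Real.log t / Real.log p, div_pos (neg_pos.2 (Real.log_neg h0 h1)) hl, ?_⟩
  unfold tr'
  rw [Real.rpow_def_of_pos hp]
  have : Real.log p * -(-Real.log t / Real.log p) = Real.log t := by
    field_simp
  rw [this, Real.exp_log h0]

/-- From the value of the integral to the Poincare series. -/
theorem poincare_of (D P : ℂ[X]) (hD : D ≠ 0)
    (h : ∀ s : ℝ, 0 ≤ s → D.eval (tr' p s : ℂ) *
      ((∫⁻ z, tau p s (MvPolynomial.aeval z f) ∂(Measure.pi fun _ : V => mu p)).toReal : ℂ) =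
        P.eval (tr' p s : ℂ)) :
    ∃ Φ : RatFunc ℂ, ((Φ.denom : ℂ[X]) : PowerSeries ℂ) * poincare p f =
      ((Φ.num : ℂ[X]) : PowerSeries ℂ) ∧ Φ.denom.rootMultiplicity 0 = 0 ∧
      ∀ x, Φ.denom.rootMultiplicity x ≤ D.rootMultiplicity x := by
  -- the value at `T = 1`
  have h1 : D.eval 1 = P.eval 1 := by
    have h2 := h 0 le_rfl
    have h3 : tr' p 0 = 1 := by simp [tr']
    have h4 : ∫⁻ z, tau p 0 (MvPolynomial.aeval z f) ∂(Measure.pi fun _ : V => mu p) = 1 := by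
      simp [tau]
    rw [h3, h4] at h2
    simpa using h2
  have h2 : (1 - X : ℂ[X]) ∣ D - X * P := by
    have h3 : (X - C 1 : ℂ[X]) ∣ D - X * P := by
      rw [dvd_iff_isRoot, IsRoot.def]
      simp [h1]
    have h4 : (1 - X : ℂ[X]) = -(X - C 1) := by rw [C_1]; ring
    rw [h4]
    exact (neg_dvd).2 h3
  obtain ⟨A, hA⟩ := h2
  have h3 : ((D : ℂ[X]) : PowerSeries ℂ) * poincare p f = (A : PowerSeries ℂ) := by
    rw [← sub_eq_zero]
    refine Conv.zero_of ?_
    have h4 := ((poincare_conv p f).poly_mul D).add ((Conv.poly A).C_mul (-1))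
    have h5 : ((D : ℂ[X]) : PowerSeries ℂ) * poincare p f - (A : PowerSeries ℂ) =
        ((D : ℂ[X]) : PowerSeries ℂ) * poincare p f + PowerSeries.C (-1) * (A : PowerSeries ℂ) := by
      rw [map_neg, map_one]; ring
    rw [h5]
    refine h4.congr fun t h0 h1' => ?_
    obtain ⟨s, hs, rfl⟩ := exists_s p t h0 h1'
    have h6 := poin_val p f s hs
    have h7 := h s hs.le
    set Z := (∫⁻ z, tau p s (MvPolynomial.aeval z f) ∂(Measure.pi fun _ : V => mu p)).toReal
    have h8 : (1 - (tr' p s : ℂ)) * ∑' m : ℕ, (cN p f m : ℂ) * (tr' p s : ℂ) ^ m =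
        1 - (tr' p s : ℂ) * (Z : ℂ) := by
      have h9 := congrArg (fun x : ℝ => (x : ℂ)) h6
      simp only [Complex.ofReal_mul, Complex.ofReal_sub, Complex.ofReal_one,
        Complex.ofReal_tsum, Complex.ofReal_pow] at h9
      exact h9
    have h9 : (1 - (tr' p s : ℂ)) ≠ 0 := by
      have : tr' p s ≠ 1 := h1'.ne
      rw [sub_ne_zero]
      exact_mod_cast this.symm
    have h10 := congrArg (fun Q : ℂ[X] => Q.eval (tr' p s : ℂ)) hA
    simp only [eval_sub, eval_mul, eval_X, eval_one] at h10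
    refine mul_left_cancel₀ h9 ?_
    rw [mul_zero]
    linear_combination D.eval (tr' p s : ℂ) * h8 - (tr' p s : ℂ) * h7 + h10
  -- removing the powers of `X`
  obtain ⟨B, hB, hnd⟩ := exists_eq_pow_rootMultiplicity_mul_and_not_dvd D hD 0
  set r := D.rootMultiplicity 0 with hr
  rw [C_0, sub_zero] at hB hnd
  have hB0 : B ≠ 0 := by
    rintro rfl
    exact hnd (dvd_zero _)
  have h4 : (X : ℂ[X]) ^ r ∣ A := by
    rw [X_pow_dvd_iff]
    intro d hd
    have h5 := congrArg (PowerSeries.coeff d) h3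
    rw [hB, Polynomial.coe_mul, Polynomial.coe_pow, Polynomial.coe_X, mul_assoc,
      PowerSeries.coeff_X_pow_mul', if_neg (by omega), Polynomial.coeff_coe] at h5
    exact h5.symm
  obtain ⟨A', hA'⟩ := h4
  have hX : (PowerSeries.X : PowerSeries ℂ) ^ r ≠ 0 := pow_ne_zero _ PowerSeries.X_ne_zero
  have h5 : ((B : ℂ[X]) : PowerSeries ℂ) * poincare p f = (A' : PowerSeries ℂ) := by
    rw [hB, hA', Polynomial.coe_mul, Polynomial.coe_mul, Polynomial.coe_pow, Polynomial.coe_X,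
      mul_assoc] at h3
    exact mul_left_cancel₀ hX h3
  set Φ : RatFunc ℂ := algebraMap ℂ[X] (RatFunc ℂ) A' / algebraMap ℂ[X] (RatFunc ℂ) B with hΦ
  have hdvd : Φ.denom ∣ B := RatFunc.denom_div_dvd A' B
  have hnum : Φ.num * B = A' * Φ.denom := by
    have h6 := RatFunc.num_div_denom Φ
    have hd0 : algebraMap ℂ[X] (RatFunc ℂ) Φ.denom ≠ 0 := by
      rw [Ne, FaithfulSMul.algebraMap_eq_zero_iff]; exact Φ.denom_ne_zero
    have hb0 : algebraMap ℂ[X] (RatFunc ℂ) B ≠ 0 := by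
      rw [Ne, FaithfulSMul.algebraMap_eq_zero_iff]; exact hB0
    have h7 : algebraMap ℂ[X] (RatFunc ℂ) Φ.num / algebraMap ℂ[X] (RatFunc ℂ) Φ.denom =
        algebraMap ℂ[X] (RatFunc ℂ) A' / algebraMap ℂ[X] (RatFunc ℂ) B := h6
    rw [div_eq_div_iff hd0 hb0, ← map_mul, ← map_mul] at h7
    exact RatFunc.algebraMap_injective ℂ h7
  refine ⟨Φ, ?_, ?_, fun x => ?_⟩
  · have hBs : ((B : ℂ[X]) : PowerSeries ℂ) ≠ 0 := by
      rw [Ne, Polynomial.coe_eq_zero_iff]; exact hB0
    refine mul_left_cancel₀ hBs ?_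
    have h6 : ((B : ℂ[X]) : PowerSeries ℂ) * (((Φ.denom : ℂ[X]) : PowerSeries ℂ) * poincare p f) =
        ((Φ.denom : ℂ[X]) : PowerSeries ℂ) * (((B : ℂ[X]) : PowerSeries ℂ) * poincare p f) := by
      ring
    rw [h6, h5, ← Polynomial.coe_mul, ← Polynomial.coe_mul, mul_comm B, hnum, mul_comm]
  · rw [rootMultiplicity_eq_zero]
    intro h6
    apply hnd
    have h7 := (dvd_iff_isRoot.2 h6).trans hdvd
    rwa [C_0, sub_zero] at h7
  · refine rootMultiplicity_le_rootMultiplicity_of_dvd hD ?_ x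
    rw [hB]
    exact hdvd.mul_left _

end

variable {ι κ : Type} [Fintype ι] [DecidableEq ι] [Fintype κ] [DecidableEq κ] {Jk : κ → Type}
  [∀ k, Fintype (Jk k)] [∀ k, DecidableEq (Jk k)]
  (a : ι → ℕ) (Nk : κ → ℕ) (c : (k : κ) → Jk k → ℤ) (m : (k : κ) → Jk k → ℕ)
  (v : (k : κ) → Jk k → ι → ℕ) (p : ℕ) [Fact p.Prime]

theorem main_poincare (hc : ∀ k j, c k j ≠ 0) (hm : ∀ k j, 0 < m k j) (hN : ∀ k, 0 < Nk k)
    (hne : ∀ k, Nonempty (Jk k)) (b : ℂ[X]) (hb0 : b ≠ 0)
    (hb : Pool.Agent.H628R4.TP.IsBFunction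
      (MvPolynomial.map (Int.castRingHom ℂ) (sparseProd a Nk c m v)) b) :
    ∃ Φ : RatFunc ℂ, ((Φ.denom : ℂ[X]) : PowerSeries ℂ) * poincare p (sparseProd a Nk c m v) =
      ((Φ.num : ℂ[X]) : PowerSeries ℂ) ∧
      ∀ T : ℂ, Φ.denom.rootMultiplicity T ≤
        b.rootMultiplicity ((-Real.log ‖T‖ / Real.log p : ℝ) : ℂ) := by
  rw [map_sparseProd] at hb
  obtain ⟨D, P, hD0, hDm, hDP⟩ := core a Nk c m v p hc hm hN hne b hb0 hb
  obtain ⟨Φ, h1, h2, h3⟩ := poincare_of p (sparseProd a Nk c m v) D P hD0 (fun s hs => by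
    rw [← hDP s hs]
    simp only [aeval_sparseProd]
    rfl)
  refine ⟨Φ, h1, fun T => ?_⟩
  rcases eq_or_ne T 0 with rfl | hT
  · rw [h2]
    exact Nat.zero_le _
  · exact (h3 T).trans (hDm T hT)

end Pool.Agent.W427.SMC
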