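import Pool.Agent.W427.SMC.Num2
import Pool.Agent.W427.SMC.Local

set_option autoImplicit false
set_option linter.unusedSectionVars false

/-! From the numerical relation to the polynomial relation. -/

namespace Pool.Agent.W427.SMC

open MvPolynomial Pool.Agent.H628R4.TP

variable {κ : Type} [Fintype κ] [DecidableEq κ] {Jk : κ → Type}
  [∀ k, Fintype (Jk k)] [∀ k, DecidableEq (Jk k)]
  (Nk : κ → ℕ) (sp : (k : κ) → Jk k)

/-- the value of `s` in terms of the free parameters -/
noncomputable def sg : MvPolynomial (Option (Σ k, Jk k)) ℂ :=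
  X none + ∑ k, ∑ j ∈ Finset.univ.erase (sp k), X (some ⟨k, j⟩)

noncomputable def th : Option (Σ k, Jk k) → MvPolynomial (Option (Σ k, Jk k)) ℂ
  | none => sg sp
  | some p => if p.2 = sp p.1 then
      (Nk p.1 : MvPolynomial (Option (Σ k, Jk k)) ℂ) * sg sp -
        ∑ j ∈ Finset.univ.erase (sp p.1), X (some ⟨p.1, j⟩)
      else X (some p)

/-- evaluation point -/
def pt (n : ℕ) (α : (k : κ) → Jk k → ℕ) : Option (Σ k, Jk k) → ℂ :=
  fun o => Option.elim o (n : ℂ) (fun p => (α p.1 p.2 : ℂ))

lemma th_zero (hN : ∀ k, 0 < Nk k) (F : MvPolynomial (Option (Σ k, Jk k)) ℂ)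
    (h : ∀ (n : ℕ) (α : (k : κ) → Jk k → ℕ), α ∈ Sn Nk n → eval (pt n α) F = 0) :
    aeval (th Nk sp) F = 0 := by
  refine funext_set (fun _ => Set.range ((↑) : ℕ → ℂ))
    (fun _ => Set.infinite_range_of_injective Nat.cast_injective) fun y hy => ?_
  choose x hx using fun o => hy o (Set.mem_univ o)
  rw [map_zero]
  set n : ℕ := x none + ∑ k, ∑ j ∈ Finset.univ.erase (sp k), x (some ⟨k, j⟩) with hn
  set α : (k : κ) → Jk k → ℕ := fun k j => if j = sp k then
    Nk k * n - ∑ j ∈ Finset.univ.erase (sp k), x (some ⟨k, j⟩) else x (some ⟨k, j⟩) with hα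
  have hle : ∀ k, ∑ j ∈ Finset.univ.erase (sp k), x (some ⟨k, j⟩) ≤ Nk k * n := by
    intro k
    have h1 : ∑ j ∈ Finset.univ.erase (sp k), x (some ⟨k, j⟩) ≤ n := by
      rw [hn]
      refine le_trans ?_ (Nat.le_add_left _ _)
      exact Finset.single_le_sum
        (f := fun k => ∑ j ∈ Finset.univ.erase (sp k), x (some ⟨k, j⟩))
        (fun _ _ => Nat.zero_le _) (Finset.mem_univ k)
    exact h1.trans (Nat.le_mul_of_pos_left _ (hN k))
  have hαS : α ∈ Sn Nk n := by
    rw [mem_Sn]
    intro k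
    rw [← Finset.add_sum_erase _ _ (Finset.mem_univ (sp k))]
    have h2 : ∑ j ∈ Finset.univ.erase (sp k), α k j =
        ∑ j ∈ Finset.univ.erase (sp k), x (some ⟨k, j⟩) :=
      Finset.sum_congr rfl fun j hj => if_neg (Finset.ne_of_mem_erase hj)
    rw [h2]
    have h3 : α k (sp k) = Nk k * n - ∑ j ∈ Finset.univ.erase (sp k), x (some ⟨k, j⟩) := if_pos rfl
    rw [h3]
    exact Nat.sub_add_cancel (hle k)
  rw [← h n α hαS]
  have h4 : eval y (sg sp) = (n : ℂ) := by
    rw [sg, hn]
    push_cast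
    simp [hx]
  have h5 : (fun o => eval y (th Nk sp o)) = pt n α := by
    funext o
    rcases o with _ | ⟨k, j⟩
    · exact h4
    · simp only [th, pt, Option.elim_some, hα]
      split_ifs with hj
      · rw [Nat.cast_sub (hle k), map_sub, map_mul, h4]
        push_cast
        simp [hx]
      · simp [hx]
  rw [← h5]
  have h6 : ∀ (z : Option (Σ k, Jk k) → ℂ) (G : MvPolynomial (Option (Σ k, Jk k)) ℂ),
      eval z G = aeval z G := fun z G => by rw [← coe_aeval_eq_eval]; rfl
  simp only [h6]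
  rw [← AlgHom.comp_apply, comp_aeval]

lemma th_eval (R : Type) [CommRing R] [Algebra ℂ R] (α : (Σ k, Jk k) → R) (s : R)
    (h : ∀ k, ∑ j, α ⟨k, j⟩ = (Nk k : R) * s) (F : MvPolynomial (Option (Σ k, Jk k)) ℂ)
    (hF : aeval (th Nk sp) F = 0) : aeval (fun o => Option.elim o s α) F = 0 := by
  set t : R := s - ∑ k, ∑ j ∈ Finset.univ.erase (sp k), α ⟨k, j⟩ with ht
  have h1 : aeval (fun o => Option.elim o t α) (sg sp) = s := by
    rw [sg, ht]
    simp
  have h2 : ∀ o, aeval (fun o => Option.elim o t α) (th Nk sp o) = Option.elim o s α := by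
    intro o
    rcases o with _ | ⟨k, j⟩
    · exact h1
    · simp only [th]
      split_ifs with hj
      · rw [map_sub, map_mul, h1, map_natCast, ← h k]
        simp only [map_sum, aeval_X, Option.elim_some]
        rw [← Finset.add_sum_erase _ _ (Finset.mem_univ (sp k))]
        rw [show j = sp k from hj]
        ring
      · simp
  have h3 := congrArg (aeval (fun o => Option.elim o t α)) hF
  rw [map_zero, ← AlgHom.comp_apply, comp_aeval] at h3
  rw [← h3]
  congr 2
  funext o
  exact (h2 o).symm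

end Pool.Agent.W427.SMC
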